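import Pool.Agent.LB0.Sym

/-!
# LB5, section L0, module Dom (size 2): the charts

PROOF of `dom`.  Let `m = |y i0|` be the largest `|y i|` (`Finite.exists_max` or `Finset.exists_max_image`).  If `m = 0` the
first alternative holds.  If some extreme coordinate has `|y (ext e)| ≥ m / 4` the second one holds.  Otherwise all extreme
coordinates `P 0, P 2, P 3, P 5, P 6, P 8, P 9, P 11` are `< m / 4` in absolute value, so `i0 ∈ {1, 4, 7, 10}`, and the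
square of `y i0` is, up to `Qv y j` (`j = 1, 3, 0, 2` for `i0 = 1, 4, 7, 10`), a sum of three products of two coordinates,
each of which contains an extreme coordinate and one of which consists of two extreme ones:
`P 1² = Qv 1 - P 6 P 10 + P 7 P 9 + P 0 P 2`, `P 4² = Qv 3 - P 7 P 11 + P 8 P 10 + P 3 P 5`,
`P 7² = P 0 P 4 - P 1 P 3 + P 6 P 8 - Qv 0`, `P 10² = P 1 P 5 - P 2 P 4 + P 9 P 11 - Qv 2`.
So `m² ≤ Z + 2 (m/4) m + (m/4) m`, `m² / 4 ≤ Z`, `m ≤ 2 √Z` (`Real.le_sqrt`).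

PROOF of `domp`.  If `p` divides all extreme coordinates, the same four identities give `p ∣ y i ^ 2` for `i = 1, 4, 7, 10`,
so `p ∣ y i` (`Int.Prime.dvd_pow'` / `Prime.dvd_of_dvd_pow`) for all `i`.
-/

set_option autoImplicit false

namespace Pool.Agent.LB0

open Pool.Agent.PP5

private theorem dom_sq {y : Sp} {Z m : ℝ} (hm : 0 ≤ m) (h : ∀ j, |(Qv y j : ℝ)| ≤ Z)
    (hy : ∀ i, |(y i : ℝ)| ≤ m) (he : ∀ e : Fin 8, |(y (ext e) : ℝ)| ≤ m / 4)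
    {i : Fin 12} (hi : i = 1 ∨ i = 4 ∨ i = 7 ∨ i = 10) : (y i : ℝ) ^ 2 ≤ Z + 9 / 16 * m ^ 2 := by
  have key : ∀ a b : Fin 12, |(y a : ℝ)| ≤ m / 4 → |(y a : ℝ) * y b| ≤ m / 4 * m := by
    intro a b ha
    rw [abs_mul]
    exact mul_le_mul ha (hy b) (abs_nonneg _) (by positivity)
  have key' : ∀ a b : Fin 12, |(y b : ℝ)| ≤ m / 4 → |(y a : ℝ) * y b| ≤ m / 4 * m := by
    intro a b hb
    rw [mul_comm]
    exact key b a hb
  have key2 : ∀ a b : Fin 12, |(y a : ℝ)| ≤ m / 4 → |(y b : ℝ)| ≤ m / 4 →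
      |(y a : ℝ) * y b| ≤ m / 4 * (m / 4) := by
    intro a b ha hb
    rw [abs_mul]
    exact mul_le_mul ha hb (abs_nonneg _) (by positivity)
  have e0 : |(y 0 : ℝ)| ≤ m / 4 := he 0
  have e2 : |(y 2 : ℝ)| ≤ m / 4 := he 1
  have e3 : |(y 3 : ℝ)| ≤ m / 4 := he 2
  have e5 : |(y 5 : ℝ)| ≤ m / 4 := he 3
  have e6 : |(y 6 : ℝ)| ≤ m / 4 := he 4
  have e9 : |(y 9 : ℝ)| ≤ m / 4 := he 5
  have e8 : |(y 8 : ℝ)| ≤ m / 4 := he 6
  have e11 : |(y 11 : ℝ)| ≤ m / 4 := he 7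
  rcases hi with rfl | rfl | rfl | rfl
  · have h1 := abs_le.1 (h 1)
    have q : (Qv y 1 : ℝ) = y 6 * y 10 - y 7 * y 9 - y 0 * y 2 + y 1 ^ 2 := by
      simp [Qv]
    have a1 := abs_le.1 (key 6 10 e6)
    have a2 := abs_le.1 (key' 7 9 e9)
    have a3 := abs_le.1 (key2 0 2 e0 e2)
    nlinarith
  · have h1 := abs_le.1 (h 3)
    have q : (Qv y 3 : ℝ) = y 7 * y 11 - y 8 * y 10 - y 3 * y 5 + y 4 ^ 2 := by
      simp [Qv]
    have a1 := abs_le.1 (key' 7 11 e11)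
    have a2 := abs_le.1 (key 8 10 e8)
    have a3 := abs_le.1 (key2 3 5 e3 e5)
    nlinarith
  · have h1 := abs_le.1 (h 0)
    have q : (Qv y 0 : ℝ) = y 0 * y 4 - y 1 * y 3 + y 6 * y 8 - y 7 ^ 2 := by
      simp [Qv]
    have a1 := abs_le.1 (key 0 4 e0)
    have a2 := abs_le.1 (key' 1 3 e3)
    have a3 := abs_le.1 (key2 6 8 e6 e8)
    nlinarith
  · have h1 := abs_le.1 (h 2)
    have q : (Qv y 2 : ℝ) = y 1 * y 5 - y 2 * y 4 + y 9 * y 11 - y 10 ^ 2 := by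
      simp [Qv]
    have a1 := abs_le.1 (key' 1 5 e5)
    have a2 := abs_le.1 (key 2 4 e2)
    have a3 := abs_le.1 (key2 9 11 e9 e11)
    nlinarith

private theorem dom_ext (i : Fin 12) : (∃ e : Fin 8, i = ext e) ∨ i = 1 ∨ i = 4 ∨ i = 7 ∨ i = 10 := by
  revert i; decide

theorem dom {y : Sp} {Z : ℝ} (hZ : 0 ≤ Z) (h : ∀ j, |(Qv y j : ℝ)| ≤ Z) :
    (∀ i, |(y i : ℝ)| ≤ 2 * Real.sqrt Z) ∨
      ∃ e : Fin 8, y (ext e) ≠ 0 ∧ ∀ i, |(y i : ℝ)| ≤ 4 * |(y (ext e) : ℝ)| := by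
  obtain ⟨i0, hi0⟩ := Finite.exists_max (fun i => |(y i : ℝ)|)
  set m : ℝ := |(y i0 : ℝ)| with hm
  have hm0 : 0 ≤ m := abs_nonneg _
  by_cases hz : m = 0
  · left
    intro i
    have : |(y i : ℝ)| ≤ m := hi0 i
    have h2 := Real.sqrt_nonneg Z
    rw [hz] at this
    linarith
  have hmp : 0 < m := lt_of_le_of_ne hm0 (Ne.symm hz)
  by_cases hex : ∃ e : Fin 8, m / 4 < |(y (ext e) : ℝ)|
  · right
    obtain ⟨e, he⟩ := hex
    refine ⟨e, ?_, fun i => ?_⟩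
    · intro h0
      rw [h0] at he
      simp at he
      linarith
    · have : |(y i : ℝ)| ≤ m := hi0 i
      linarith
  · left
    push Not at hex
    have hi : i0 = 1 ∨ i0 = 4 ∨ i0 = 7 ∨ i0 = 10 := by
      rcases dom_ext i0 with ⟨e, he⟩ | hh
      · exfalso
        have h1 := hex e
        rw [← he, ← hm] at h1
        linarith
      · exact hh
    have h1 := dom_sq hm0 h hi0 hex hi
    have h2 : (y i0 : ℝ) ^ 2 = m ^ 2 := by rw [hm, sq_abs]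
    rw [h2] at h1
    have h3 : (m / 2) ^ 2 ≤ Z := by nlinarith
    have h4 : m / 2 ≤ Real.sqrt Z := Real.le_sqrt_of_sq_le h3
    intro i
    have : |(y i : ℝ)| ≤ m := hi0 i
    linarith

theorem domp {y : Sp} {p : ℕ} (hp : p.Prime) (h : ∀ j, (p : ℤ) ∣ Qv y j)
    (hy : ∃ i, ¬ (p : ℤ) ∣ y i) : ∃ e : Fin 8, ¬ (p : ℤ) ∣ y (ext e) := by
  by_contra hc
  push Not at hc
  have hpp : Prime (p : ℤ) := Nat.prime_iff_prime_int.1 hp
  have e0 : (p : ℤ) ∣ y 0 := hc 0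
  have e2 : (p : ℤ) ∣ y 2 := hc 1
  have e3 : (p : ℤ) ∣ y 3 := hc 2
  have e5 : (p : ℤ) ∣ y 5 := hc 3
  have e6 : (p : ℤ) ∣ y 6 := hc 4
  have e9 : (p : ℤ) ∣ y 9 := hc 5
  have e8 : (p : ℤ) ∣ y 8 := hc 6
  have e11 : (p : ℤ) ∣ y 11 := hc 7
  obtain ⟨i, hi⟩ := hy
  rcases dom_ext i with ⟨e, rfl⟩ | rfl | rfl | rfl | rfl
  · exact hi (hc e)
  · apply hi
    apply hpp.dvd_of_dvd_pow (n := 2)
    have q : y 1 ^ 2 = Qv y 1 - y 6 * y 10 + y 7 * y 9 + y 0 * y 2 := by simp [Qv]; ring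
    rw [q]
    exact (((h 1).sub (e6.mul_right _)).add (e9.mul_left _)).add (e0.mul_right _)
  · apply hi
    apply hpp.dvd_of_dvd_pow (n := 2)
    have q : y 4 ^ 2 = Qv y 3 - y 7 * y 11 + y 8 * y 10 + y 3 * y 5 := by simp [Qv]; ring
    rw [q]
    exact (((h 3).sub (e11.mul_left _)).add (e8.mul_right _)).add (e3.mul_right _)
  · apply hi
    apply hpp.dvd_of_dvd_pow (n := 2)
    have q : y 7 ^ 2 = y 0 * y 4 - y 1 * y 3 + y 6 * y 8 - Qv y 0 := by simp [Qv]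
    rw [q]
    exact (((e0.mul_right _).sub (e3.mul_left _)).add (e6.mul_right _)).sub (h 0)
  · apply hi
    apply hpp.dvd_of_dvd_pow (n := 2)
    have q : y 10 ^ 2 = y 1 * y 5 - y 2 * y 4 + y 9 * y 11 - Qv y 2 := by simp [Qv]
    rw [q]
    exact (((e5.mul_left _).sub (e2.mul_right _)).add (e9.mul_right _)).sub (h 2)

end Pool.Agent.LB0
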