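import Mathlib

/-!
# LB5, section L0, module Lat (size 4): points of a lattice in a box

PROOF.  `c = P0 ≠ 0`, `a = |c|`.  `L` contains `c Z^5`, so `L` is of finite index (the quotient `(Fin 5 → ℤ) ⧸ L` is finite: every class has a representative in `[0, a)^5`), and free with a basis `bN : Basis (Fin 5) ℤ L`
(`Module.finrank ℤ L = 5`: `≤` by `Submodule.finrank_le`, `≥` as `v ↦ c v` is an injective linear map `Z^5 → L` (`LinearMap.finrank_le_finrank_of_injective`); `Module.finBasisOfFinrankEq`).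
`AddSubgroup.index_eq_natAbs_det (Pi.basisFun ℤ (Fin 5)) L bN` and the hypothesis `hd` (applied to `bN`) give `c² ∣ L.index`, and `L.index ≠ 0`, so `c² ≤ L.index`.
PACKING: choose for every class `κ ∈ Z^5 / L` a representative `ρ κ ∈ [0, a)^5` (subtract `c` times integer vectors).  The map `(w, κ) ↦ w + ρ κ` on `S × (Z^5/L)` is injective (`w + ρ κ = w' + ρ κ'`
gives `κ = κ'` modulo `L`, then `w = w'`) with values in `[-M, M + a)^5`, which has `≤ (2 M + a + 1)^5 ≤ (4 M)^5` integer points (`1 ≤ a ≤ M`).  So `#S · L.index ≤ (4 M)^5`.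
-/

set_option autoImplicit false

namespace Pool.Agent.LB0

theorem lat {L : AddSubgroup (Fin 5 → ℤ)} {c : ℤ} (hc : c ≠ 0) (hL : ∀ v : Fin 5 → ℤ, c • v ∈ L)
    (hd : ∀ X : Fin 5 → Fin 5 → ℤ, (∀ i, X i ∈ L) → c ^ 2 ∣ (Matrix.of X).det) {M : ℝ}
    (hM : |(c : ℝ)| ≤ M) (S : Finset (Fin 5 → ℤ)) (hS : ∀ v ∈ S, v ∈ L ∧ ∀ k, |(v k : ℝ)| ≤ M) :
    (S.card : ℝ) * (c : ℝ) ^ 2 ≤ 4 ^ 5 * M ^ 5 := by
  classical
  set N : Submodule ℤ (Fin 5 → ℤ) := AddSubgroup.toIntSubmodule L with hN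
  have hNL : ∀ v, v ∈ N ↔ v ∈ L := fun v => Iff.rfl
  -- the rank
  have hrk : Module.finrank ℤ N = 5 := by
    refine le_antisymm ?_ ?_
    · have h := Submodule.finrank_le N
      simpa using h
    · let f : (Fin 5 → ℤ) →ₗ[ℤ] N :=
        { toFun := fun v => ⟨c • v, hL v⟩
          map_add' := fun v w => Subtype.ext (smul_add c v w)
          map_smul' := fun r v => Subtype.ext (smul_comm c r v) }
      have hf : Function.Injective f := by
        intro v w h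
        have h1 : c • v = c • w := congrArg Subtype.val h
        funext k
        have h2 : c * v k = c * w k := congrFun h1 k
        exact mul_left_cancel₀ hc h2
      have h := LinearMap.finrank_le_finrank_of_injective hf
      simpa using h
  -- the index
  let bN : Module.Basis (Fin 5) ℤ N := Module.finBasisOfFinrankEq ℤ N hrk
  have hidx := Submodule.natAbs_det_basis_change (Pi.basisFun ℤ (Fin 5)) N bN
  have hdv : c ^ 2 ∣ ((Pi.basisFun ℤ (Fin 5)).det (Subtype.val ∘ bN)) := by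
    rw [Pi.basisFun_det_apply]
    exact hd _ (fun i => (bN i).2)
  -- representatives
  have hrep : ∀ x : Fin 5 → ℤ, (Submodule.Quotient.mk (fun k => x k % c) : (Fin 5 → ℤ) ⧸ N)
      = Submodule.Quotient.mk x := by
    intro x
    rw [Submodule.Quotient.eq]
    have h1 : (fun k => x k % c) - x = c • (fun k => -(x k / c)) := by
      funext k
      show x k % c - x k = c * (-(x k / c))
      have := Int.emod_add_mul_ediv (x k) c
      linarith
    rw [h1]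
    exact hL _
  have hbox : ∀ x : Fin 5 → ℤ, ∀ k, 0 ≤ x k % c ∧ x k % c < |c| := fun x k =>
    ⟨Int.emod_nonneg _ hc, Int.emod_lt_abs _ hc⟩
  haveI hfin : Finite ((Fin 5 → ℤ) ⧸ N) := by
    refine Finite.of_surjective
      (fun b : (Fintype.piFinset (fun _ : Fin 5 => Finset.Ico (0 : ℤ) |c|)) =>
        (Submodule.Quotient.mk b.1 : (Fin 5 → ℤ) ⧸ N)) ?_
    intro κ
    obtain ⟨x, rfl⟩ := Submodule.Quotient.mk_surjective N κ
    refine ⟨⟨fun k => x k % c, ?_⟩, hrep x⟩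
    rw [Fintype.mem_piFinset]
    intro k
    rw [Finset.mem_Ico]
    exact hbox x k
  letI : Fintype ((Fin 5 → ℤ) ⧸ N) := Fintype.ofFinite _
  rw [Nat.card_eq_fintype_card] at hidx
  have hcard0 : 0 < Fintype.card ((Fin 5 → ℤ) ⧸ N) := Fintype.card_pos
  have hc2 : (c : ℝ) ^ 2 ≤ (Fintype.card ((Fin 5 → ℤ) ⧸ N) : ℝ) := by
    have h1 : (c ^ 2).natAbs ∣ Fintype.card ((Fin 5 → ℤ) ⧸ N) := by
      rw [← hidx]
      exact Int.natAbs_dvd_natAbs.mpr hdv
    have h2 := Nat.le_of_dvd hcard0 h1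
    have h3 : ((c ^ 2).natAbs : ℤ) = c ^ 2 := Int.natAbs_of_nonneg (sq_nonneg c)
    have h4 : c ^ 2 ≤ (Fintype.card ((Fin 5 → ℤ) ⧸ N) : ℤ) := by
      rw [← h3]
      exact_mod_cast h2
    exact_mod_cast h4
  -- packing
  have hout : ∀ κ : (Fin 5 → ℤ) ⧸ N, ∃ r : Fin 5 → ℤ, Submodule.Quotient.mk r = κ ∧
      ∀ k, 0 ≤ r k ∧ r k < |c| := by
    intro κ
    obtain ⟨x, rfl⟩ := Submodule.Quotient.mk_surjective N κ
    exact ⟨fun k => x k % c, hrep x, hbox x⟩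
  choose ρ hρ1 hρ2 using hout
  have hM1 : 1 ≤ M := by
    have h1 : (1 : ℝ) ≤ |(c : ℝ)| := by
      have : (1 : ℤ) ≤ |c| := Int.one_le_abs hc
      exact_mod_cast this
    linarith
  set B : Finset (Fin 5 → ℤ) := Fintype.piFinset
    (fun _ : Fin 5 => Finset.Icc (-⌊M⌋) (⌊M⌋ + |c| - 1)) with hB
  have hmaps : ∀ z ∈ S ×ˢ (Finset.univ : Finset ((Fin 5 → ℤ) ⧸ N)), z.1 + ρ z.2 ∈ B := by
    intro z hz
    rw [Finset.mem_product] at hz
    have h1 := (hS z.1 hz.1).2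
    rw [hB, Fintype.mem_piFinset]
    intro k
    rw [Finset.mem_Icc]
    have h2 : |z.1 k| ≤ ⌊M⌋ := by
      rw [Int.le_floor]
      push_cast
      exact h1 k
    have h3 := abs_le.mp h2
    have h4 := hρ2 z.2 k
    show -⌊M⌋ ≤ z.1 k + ρ z.2 k ∧ z.1 k + ρ z.2 k ≤ ⌊M⌋ + |c| - 1
    constructor
    · linarith [h3.1, h4.1]
    · linarith [h3.2, h4.2]
  have hinj : Set.InjOn (fun z : (Fin 5 → ℤ) × ((Fin 5 → ℤ) ⧸ N) => z.1 + ρ z.2)
      (S ×ˢ (Finset.univ : Finset ((Fin 5 → ℤ) ⧸ N)) : Finset _) := by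
    rintro ⟨w, κ⟩ hz ⟨w', κ'⟩ hz' h
    have h0 : w + ρ κ = w' + ρ κ' := h
    rw [Finset.mem_coe, Finset.mem_product] at hz hz'
    have h1 : w ∈ N := (hS w hz.1).1
    have h2 : w' ∈ N := (hS w' hz'.1).1
    have h3 : κ = κ' := by
      rw [← hρ1 κ, ← hρ1 κ', Submodule.Quotient.eq]
      have h4 : ρ κ - ρ κ' = w' - w := by
        rw [sub_eq_sub_iff_add_eq_add, add_comm (ρ κ) w, h0]
      rw [h4]
      exact N.sub_mem h2 h1
    subst h3
    rw [add_left_inj] at h0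
    rw [h0]
  have hle := Finset.card_le_card_of_injOn (fun z : (Fin 5 → ℤ) × ((Fin 5 → ℤ) ⧸ N) => z.1 + ρ z.2)
    hmaps hinj
  rw [Finset.card_product, Finset.card_univ, hB, Fintype.card_piFinset, Finset.prod_const,
    Finset.card_univ, Fintype.card_fin, Int.card_Icc] at hle
  have hfl : ((⌊M⌋ + |c| - 1 + 1 - -⌊M⌋).toNat : ℝ) ≤ 4 * M := by
    have h1 : (0 : ℤ) ≤ ⌊M⌋ := Int.floor_nonneg.mpr (by linarith)
    have h2 : 0 ≤ |c| := abs_nonneg c
    have h3 : (((⌊M⌋ + |c| - 1 + 1 - -⌊M⌋).toNat : ℤ)) = ⌊M⌋ + |c| - 1 + 1 - -⌊M⌋ :=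
      Int.toNat_of_nonneg (by linarith)
    have h4 : ((⌊M⌋ + |c| - 1 + 1 - -⌊M⌋).toNat : ℝ) = 2 * (⌊M⌋ : ℝ) + |(c : ℝ)| := by
      have h5 : (((⌊M⌋ + |c| - 1 + 1 - -⌊M⌋).toNat : ℤ) : ℝ)
          = ((⌊M⌋ + |c| - 1 + 1 - -⌊M⌋ : ℤ) : ℝ) := by rw [h3]
      rw [Int.cast_natCast] at h5
      rw [h5]
      push_cast
      ring
    rw [h4]
    have h6 := Int.floor_le M
    linarith
  have hfinal : (S.card : ℝ) * (Fintype.card ((Fin 5 → ℤ) ⧸ N) : ℝ) ≤ (4 * M) ^ 5 := by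
    have h1 : ((S.card * Fintype.card ((Fin 5 → ℤ) ⧸ N) : ℕ) : ℝ)
        ≤ (((⌊M⌋ + |c| - 1 + 1 - -⌊M⌋).toNat ^ 5 : ℕ) : ℝ) := by exact_mod_cast hle
    push_cast at h1
    exact h1.trans (pow_le_pow_left₀ (Nat.cast_nonneg _) hfl 5)
  calc (S.card : ℝ) * (c : ℝ) ^ 2 ≤ (S.card : ℝ) * (Fintype.card ((Fin 5 → ℤ) ⧸ N) : ℝ) :=
        mul_le_mul_of_nonneg_left hc2 (Nat.cast_nonneg _)
    _ ≤ (4 * M) ^ 5 := hfinal
    _ = 4 ^ 5 * M ^ 5 := by ring

end Pool.Agent.LB0
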