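import Pool.Agent.LB0.Defs

/-!
# LB5, section L0, module Sym: the symmetries
-/

set_option autoImplicit false

namespace Pool.Agent.LB0

open Pool.Agent.PP5

theorem gg_zero (e : Fin 8) (P : Sp) : gg e P 0 = P (ext e) := by
  fin_cases e <;> rfl

private def SP (f : Sp → Sp) : Prop := ∃ (σ : Equiv.Perm (Fin 12)) (s : Fin 12 → ℤ),
  (∀ i, s i = 1 ∨ s i = -1) ∧ ∀ (P : Sp) (i : Fin 12), f P i = s i * P (σ i)

private def QS (f : Sp → Sp) : Prop := ∃ (σ : Equiv.Perm (Fin 10)) (s : Fin 10 → ℤ),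
  (∀ j, s j = 1 ∨ s j = -1) ∧ ∀ (P : Sp) (j : Fin 10), Qv (f P) j = s j * Qv P (σ j)

private def XS (f : (Fin 10 → ℤ) → (Fin 10 → ℤ)) : Prop := ∃ (σ : Equiv.Perm (Fin 10)) (s : Fin 10 → ℤ),
  (∀ j, s j = 1 ∨ s j = -1) ∧ ∀ (x : Fin 10 → ℤ) (j : Fin 10), f x j = s j * x (σ j)

private theorem sgn_mul {a b : ℤ} (ha : a = 1 ∨ a = -1) (hb : b = 1 ∨ b = -1) :
    a * b = 1 ∨ a * b = -1 := by
  rcases ha with rfl | rfl <;> rcases hb with rfl | rfl <;> simp

private theorem SP.comp {f g : Sp → Sp} (hf : SP f) (hg : SP g) : SP (fun P => f (g P)) := by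
  obtain ⟨σ, s, h1, h2⟩ := hf
  obtain ⟨τ, t, h3, h4⟩ := hg
  exact ⟨σ.trans τ, fun i => s i * t (σ i), fun i => sgn_mul (h1 i) (h3 _), fun P i => by
    beta_reduce
    rw [h2, h4]; simp only [Equiv.trans_apply]; ring⟩

private theorem QS.comp {f g : Sp → Sp} (hf : QS f) (hg : QS g) : QS (fun P => f (g P)) := by
  obtain ⟨σ, s, h1, h2⟩ := hf
  obtain ⟨τ, t, h3, h4⟩ := hg
  exact ⟨σ.trans τ, fun i => s i * t (σ i), fun i => sgn_mul (h1 i) (h3 _), fun P i => by
    beta_reduce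
    rw [h2, h4]; simp only [Equiv.trans_apply]; ring⟩

private theorem XS.comp {f g : (Fin 10 → ℤ) → (Fin 10 → ℤ)} (hf : XS f) (hg : XS g) :
    XS (fun P => f (g P)) := by
  obtain ⟨σ, s, h1, h2⟩ := hf
  obtain ⟨τ, t, h3, h4⟩ := hg
  exact ⟨σ.trans τ, fun i => s i * t (σ i), fun i => sgn_mul (h1 i) (h3 _), fun P i => by
    beta_reduce
    rw [h2, h4]; simp only [Equiv.trans_apply]; ring⟩

private theorem id_sp : SP (fun P => P) := ⟨Equiv.refl _, fun _ => 1, fun _ => Or.inl rfl, fun P i => by simp⟩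
private theorem id_qs : QS (fun P => P) := ⟨Equiv.refl _, fun _ => 1, fun _ => Or.inl rfl, fun P i => by simp⟩
private theorem id_xs : XS (fun P => P) := ⟨Equiv.refl _, fun _ => 1, fun _ => Or.inl rfl, fun P i => by simp⟩

private theorem JV_sp : SP JV := by
  refine ⟨⟨![2, 1, 0, 5, 4, 3, 9, 10, 11, 6, 7, 8], ![2, 1, 0, 5, 4, 3, 9, 10, 11, 6, 7, 8], by decide, by decide⟩, ![1, -1, 1, 1, -1, 1, 1, 1, 1, -1, -1, -1], by decide, ?_⟩
  intro P i
  fin_cases i <;> simp [JV]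

private theorem JV_qs : QS JV := by
  refine ⟨⟨![2, 1, 0, 3, 5, 4, 7, 6, 9, 8], ![2, 1, 0, 3, 5, 4, 7, 6, 9, 8], by decide, by decide⟩, ![1, 1, 1, 1, -1, -1, 1, -1, 1, -1], by decide, ?_⟩
  intro P j
  fin_cases j <;> simp [JV, Qv] <;> ring

private theorem JW_sp : SP JW := by
  refine ⟨⟨![3, 4, 5, 0, 1, 2, 8, 7, 6, 11, 10, 9], ![3, 4, 5, 0, 1, 2, 8, 7, 6, 11, 10, 9], by decide, by decide⟩, ![1, 1, 1, -1, -1, -1, 1, -1, 1, 1, -1, 1], by decide, ?_⟩
  intro P i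
  fin_cases i <;> simp [JW]

private theorem JW_qs : QS JW := by
  refine ⟨⟨![0, 3, 2, 1, 5, 4, 8, 9, 6, 7], ![0, 3, 2, 1, 5, 4, 8, 9, 6, 7], by decide, by decide⟩, ![1, 1, 1, 1, 1, 1, 1, 1, -1, -1], by decide, ?_⟩
  intro P j
  fin_cases j <;> simp [JW, Qv] <;> ring

private theorem TT_sp : SP TT := by
  refine ⟨⟨![6, 7, 8, 9, 10, 11, 0, 1, 2, 3, 4, 5], ![6, 7, 8, 9, 10, 11, 0, 1, 2, 3, 4, 5], by decide, by decide⟩, ![1, 1, 1, -1, -1, -1, -1, 1, -1, -1, 1, -1], by decide, ?_⟩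
  intro P i
  fin_cases i <;> simp [TT]

private theorem TT_qs : QS TT := by
  refine ⟨⟨![1, 0, 3, 2, 5, 4, 6, 8, 7, 9], ![1, 0, 3, 2, 5, 4, 6, 8, 7, 9], by decide, by decide⟩, ![-1, -1, -1, -1, 1, -1, 1, 1, -1, -1], by decide, ?_⟩
  intro P j
  fin_cases j <;> simp [TT, Qv] <;> ring

private theorem XV_sp : XS XV := by
  refine ⟨⟨![2, 1, 0, 3, 5, 4, 7, 6, 9, 8], ![2, 1, 0, 3, 5, 4, 7, 6, 9, 8], by decide, by decide⟩, ![1, 1, 1, 1, -1, -1, 1, -1, 1, -1], by decide, ?_⟩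
  intro x j
  fin_cases j <;> simp [XV]

private theorem XW_sp : XS XW := by
  refine ⟨⟨![0, 3, 2, 1, 5, 4, 8, 9, 6, 7], ![0, 3, 2, 1, 5, 4, 8, 9, 6, 7], by decide, by decide⟩, ![1, 1, 1, 1, 1, 1, 1, 1, -1, -1], by decide, ?_⟩
  intro x j
  fin_cases j <;> simp [XW]

private theorem XT_sp : XS XT := by
  refine ⟨⟨![1, 0, 3, 2, 5, 4, 6, 8, 7, 9], ![1, 0, 3, 2, 5, 4, 6, 8, 7, 9], by decide, by decide⟩, ![-1, -1, -1, -1, 1, -1, 1, 1, -1, -1], by decide, ?_⟩
  intro x j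
  fin_cases j <;> simp [XT]

private theorem JV_InE {P : Sp} {x : Fin 10 → ℤ} (h : InE P x) : InE (JV P) (XV x) := by
  refine ⟨?_, ?_, ?_, ?_, ?_, ?_, ?_, ?_, ?_, ?_, ?_, ?_, ?_, ?_, ?_, ?_⟩
  · simp only [JV, XV, Matrix.cons_val]; linear_combination h.e12
  · simp only [JV, XV, Matrix.cons_val]; linear_combination (-1) * h.e11
  · simp only [JV, XV, Matrix.cons_val]; linear_combination (-1) * h.e9
  · simp only [JV, XV, Matrix.cons_val]; linear_combination (-1) * h.e10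
  · simp only [JV, XV, Matrix.cons_val]; linear_combination h.e14
  · simp only [JV, XV, Matrix.cons_val]; linear_combination (-1) * h.e13
  · simp only [JV, XV, Matrix.cons_val]; linear_combination h.e15
  · simp only [JV, XV, Matrix.cons_val]; linear_combination h.e16
  · simp only [JV, XV, Matrix.cons_val]; linear_combination (-1) * h.e3
  · simp only [JV, XV, Matrix.cons_val]; linear_combination (-1) * h.e4
  · simp only [JV, XV, Matrix.cons_val]; linear_combination h.e2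
  · simp only [JV, XV, Matrix.cons_val]; linear_combination (-1) * h.e1
  · simp only [JV, XV, Matrix.cons_val]; linear_combination h.e6
  · simp only [JV, XV, Matrix.cons_val]; linear_combination (-1) * h.e5
  · simp only [JV, XV, Matrix.cons_val]; linear_combination h.e7
  · simp only [JV, XV, Matrix.cons_val]; linear_combination h.e8

private theorem JW_InE {P : Sp} {x : Fin 10 → ℤ} (h : InE P x) : InE (JW P) (XW x) := by
  refine ⟨?_, ?_, ?_, ?_, ?_, ?_, ?_, ?_, ?_, ?_, ?_, ?_, ?_, ?_, ?_, ?_⟩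
  · simp only [JW, XW, Matrix.cons_val]; linear_combination h.e11
  · simp only [JW, XW, Matrix.cons_val]; linear_combination h.e12
  · simp only [JW, XW, Matrix.cons_val]; linear_combination (-1) * h.e10
  · simp only [JW, XW, Matrix.cons_val]; linear_combination h.e9
  · simp only [JW, XW, Matrix.cons_val]; linear_combination (-1) * h.e13
  · simp only [JW, XW, Matrix.cons_val]; linear_combination (-1) * h.e14
  · simp only [JW, XW, Matrix.cons_val]; linear_combination (-1) * h.e16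
  · simp only [JW, XW, Matrix.cons_val]; linear_combination h.e15
  · simp only [JW, XW, Matrix.cons_val]; linear_combination (-1) * h.e4
  · simp only [JW, XW, Matrix.cons_val]; linear_combination h.e3
  · simp only [JW, XW, Matrix.cons_val]; linear_combination h.e1
  · simp only [JW, XW, Matrix.cons_val]; linear_combination h.e2
  · simp only [JW, XW, Matrix.cons_val]; linear_combination (-1) * h.e5
  · simp only [JW, XW, Matrix.cons_val]; linear_combination (-1) * h.e6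
  · simp only [JW, XW, Matrix.cons_val]; linear_combination (-1) * h.e8
  · simp only [JW, XW, Matrix.cons_val]; linear_combination h.e7

private theorem TT_InE {P : Sp} {x : Fin 10 → ℤ} (h : InE P x) : InE (TT P) (XT x) := by
  refine ⟨?_, ?_, ?_, ?_, ?_, ?_, ?_, ?_, ?_, ?_, ?_, ?_, ?_, ?_, ?_, ?_⟩
  · simp only [TT, XT, Matrix.cons_val]; linear_combination h.e9
  · simp only [TT, XT, Matrix.cons_val]; linear_combination h.e10
  · simp only [TT, XT, Matrix.cons_val]; linear_combination h.e11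
  · simp only [TT, XT, Matrix.cons_val]; linear_combination (-1) * h.e12
  · simp only [TT, XT, Matrix.cons_val]; linear_combination (-1) * h.e15
  · simp only [TT, XT, Matrix.cons_val]; linear_combination (-1) * h.e16
  · simp only [TT, XT, Matrix.cons_val]; linear_combination h.e13
  · simp only [TT, XT, Matrix.cons_val]; linear_combination (-1) * h.e14
  · simp only [TT, XT, Matrix.cons_val]; linear_combination (-1) * h.e1
  · simp only [TT, XT, Matrix.cons_val]; linear_combination h.e2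
  · simp only [TT, XT, Matrix.cons_val]; linear_combination (-1) * h.e3
  · simp only [TT, XT, Matrix.cons_val]; linear_combination (-1) * h.e4
  · simp only [TT, XT, Matrix.cons_val]; linear_combination h.e7
  · simp only [TT, XT, Matrix.cons_val]; linear_combination h.e8
  · simp only [TT, XT, Matrix.cons_val]; linear_combination (-1) * h.e5
  · simp only [TT, XT, Matrix.cons_val]; linear_combination h.e6

/-- `gg e` is a signed permutation -/
theorem gg_sp (e : Fin 8) : ∃ (σ : Equiv.Perm (Fin 12)) (s : Fin 12 → ℤ), (∀ i, s i = 1 ∨ s i = -1) ∧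
    ∀ (P : Sp) (i : Fin 12), gg e P i = s i * P (σ i) := by
  fin_cases e
  · exact id_sp
  · exact JV_sp
  · exact JW_sp
  · exact JV_sp.comp JW_sp
  · exact TT_sp
  · exact TT_sp.comp JV_sp
  · exact TT_sp.comp JW_sp
  · exact TT_sp.comp (JV_sp.comp JW_sp)

theorem gg_Qv (e : Fin 8) : ∃ (σ : Equiv.Perm (Fin 10)) (s : Fin 10 → ℤ), (∀ j, s j = 1 ∨ s j = -1) ∧
    ∀ (P : Sp) (j : Fin 10), Qv (gg e P) j = s j * Qv P (σ j) := by
  fin_cases e
  · exact id_qs
  · exact JV_qs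
  · exact JW_qs
  · exact JV_qs.comp JW_qs
  · exact TT_qs
  · exact TT_qs.comp JV_qs
  · exact TT_qs.comp JW_qs
  · exact TT_qs.comp (JV_qs.comp JW_qs)

theorem hh_sp (e : Fin 8) : ∃ (σ : Equiv.Perm (Fin 10)) (s : Fin 10 → ℤ), (∀ j, s j = 1 ∨ s j = -1) ∧
    ∀ (x : Fin 10 → ℤ) (j : Fin 10), hh e x j = s j * x (σ j) := by
  fin_cases e
  · exact id_xs
  · exact XV_sp
  · exact XW_sp
  · exact XV_sp.comp XW_sp
  · exact XT_sp
  · exact XT_sp.comp XV_sp
  · exact XT_sp.comp XW_sp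
  · exact XT_sp.comp (XV_sp.comp XW_sp)

theorem gg_InE (e : Fin 8) {P : Sp} {x : Fin 10 → ℤ} (h : InE P x) : InE (gg e P) (hh e x) := by
  fin_cases e
  · exact h
  · exact JV_InE h
  · exact JW_InE h
  · exact JV_InE (JW_InE h)
  · exact TT_InE h
  · exact TT_InE (JV_InE h)
  · exact TT_InE (JW_InE h)
  · exact TT_InE (JV_InE (JW_InE h))

theorem Qd_iff_Qv (P : Sp) : PP5.Qd P ↔ ∀ j, Qv P j = 0 := by
  constructor
  · intro h j
    fin_cases j
    · exact h.h1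
    · exact h.h2
    · exact h.h3
    · exact h.h4
    · exact h.h5
    · exact h.h6
    · exact h.h7
    · exact h.h8
    · exact h.h9
    · exact h.h10
  · intro h
    exact ⟨h 0, h 1, h 2, h 3, h 4, h 5, h 6, h 7, h 8, h 9⟩

theorem Qv_congr {q : ℤ} {y y' : Sp} (h : ∀ i, q ∣ y i - y' i) (j : Fin 10) :
    q ∣ Qv y j - Qv y' j := by
  have e : ∀ i, y' i ≡ y i [ZMOD q] := fun i => (Int.modEq_iff_dvd).2 (h i)
  apply (Int.modEq_iff_dvd).1
  fin_cases j
  · exact ((((e 0).mul (e 4)).sub ((e 1).mul (e 3))).add ((e 6).mul (e 8))).sub ((e 7).pow 2)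
  · exact ((((e 6).mul (e 10)).sub ((e 7).mul (e 9))).sub ((e 0).mul (e 2))).add ((e 1).pow 2)
  · exact ((((e 1).mul (e 5)).sub ((e 2).mul (e 4))).add ((e 9).mul (e 11))).sub ((e 10).pow 2)
  · exact ((((e 7).mul (e 11)).sub ((e 8).mul (e 10))).sub ((e 3).mul (e 5))).add ((e 4).pow 2)
  · exact ((((e 6).mul (e 11)).sub ((e 2).mul (e 3))).sub ((e 7).mul (e 10))).add ((e 1).mul (e 4))
  · exact ((((e 0).mul (e 5)).add ((e 8).mul (e 9))).sub ((e 7).mul (e 10))).sub ((e 1).mul (e 4))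
  · exact ((((e 6).mul (e 4)).add ((e 0).mul (e 10))).sub ((e 7).mul (e 1))).sub ((e 3).mul (e 9))
  · exact ((((e 6).mul (e 5)).sub ((e 4).mul (e 9))).add ((e 1).mul (e 10))).sub ((e 7).mul (e 2))
  · exact ((((e 0).mul (e 11)).sub ((e 3).mul (e 10))).add ((e 7).mul (e 4))).sub ((e 1).mul (e 8))
  · exact ((((e 7).mul (e 5)).add ((e 1).mul (e 11))).sub ((e 4).mul (e 10))).sub ((e 8).mul (e 2))

theorem Qv_emb (P : Sp) (j : Fin 10) : PP5L.Qd (PP5.emb P) j = Qv P j := by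
  fin_cases j <;> simp [PP5L.Qd, PP5.emb, PP5.ex, Qv] <;> ring

theorem gg_inj (e : Fin 8) : Function.Injective (gg e) := by
  obtain ⟨σ, s, h1, h2⟩ := gg_sp e
  intro P P' h
  funext i
  have h3 := congrFun h (σ.symm i)
  rw [h2, h2, Equiv.apply_symm_apply] at h3
  rcases h1 (σ.symm i) with h4 | h4 <;> rw [h4] at h3 <;> linarith

theorem hh_inj (e : Fin 8) : Function.Injective (hh e) := by
  obtain ⟨σ, s, h1, h2⟩ := hh_sp e
  intro P P' h
  funext i
  have h3 := congrFun h (σ.symm i)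
  rw [h2, h2, Equiv.apply_symm_apply] at h3
  rcases h1 (σ.symm i) with h4 | h4 <;> rw [h4] at h3 <;> linarith

/-- every coordinate of `gg e P` is, up to sign, a coordinate of `P` -/
theorem gg_abs (e : Fin 8) (i : Fin 12) : ∃ k : Fin 12, ∀ P : Sp, |gg e P i| = |P k| := by
  obtain ⟨σ, s, h1, h2⟩ := gg_sp e
  refine ⟨σ i, fun P => ?_⟩
  rw [h2, abs_mul]
  rcases h1 i with h4 | h4 <;> rw [h4] <;> simp

theorem gg_abs' (e : Fin 8) (k : Fin 12) : ∃ i : Fin 12, ∀ P : Sp, |gg e P i| = |P k| := by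
  obtain ⟨σ, s, h1, h2⟩ := gg_sp e
  refine ⟨σ.symm k, fun P => ?_⟩
  rw [h2, abs_mul, Equiv.apply_symm_apply]
  rcases h1 (σ.symm k) with h4 | h4 <;> rw [h4] <;> simp

theorem hh_abs (e : Fin 8) (j : Fin 10) : ∃ k : Fin 10, ∀ x : Fin 10 → ℤ, |hh e x j| = |x k| := by
  obtain ⟨σ, s, h1, h2⟩ := hh_sp e
  refine ⟨σ j, fun P => ?_⟩
  rw [h2, abs_mul]
  rcases h1 j with h4 | h4 <;> rw [h4] <;> simp

theorem Qv_abs (e : Fin 8) (j : Fin 10) : ∃ k : Fin 10, ∀ P : Sp, |Qv (gg e P) j| = |Qv P k| := by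
  obtain ⟨σ, s, h1, h2⟩ := gg_Qv e
  refine ⟨σ j, fun P => ?_⟩
  rw [h2, abs_mul]
  rcases h1 j with h4 | h4 <;> rw [h4] <;> simp

/-- `gg e` is compatible with congruences -/
theorem gg_dvd (e : Fin 8) {q : ℤ} {y y' : Sp} (h : ∀ i, q ∣ gg e y i - gg e y' i) (i : Fin 12) :
    q ∣ y i - y' i := by
  obtain ⟨σ, s, h1, h2⟩ := gg_sp e
  have h3 := h (σ.symm i)
  rw [h2, h2, Equiv.apply_symm_apply, ← mul_sub] at h3
  rcases h1 (σ.symm i) with h4 | h4 <;> rw [h4] at h3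
  · simpa using h3
  · rwa [neg_one_mul, dvd_neg] at h3

theorem gg_Qd (e : Fin 8) {P : Sp} (h : Qd P) : Qd (gg e P) := by
  rw [Qd_iff_Qv] at h ⊢
  intro j
  obtain ⟨k, hk⟩ := Qv_abs e j
  rw [← abs_eq_zero, hk, h, abs_zero]

theorem gg_Pr (e : Fin 8) {P : Sp} (h : Pr P) : Pr (gg e P) := by
  intro p hp
  obtain ⟨k, hk⟩ := h p hp
  obtain ⟨i, hi⟩ := gg_abs' e k
  exact ⟨i, fun hd => hk (by rw [← dvd_abs, ← hi P, dvd_abs]; exact hd)⟩

end Pool.Agent.LB0
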