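import Pool.Agent.PP5LE.Cva
import Pool.Agent.LB0.Lat
import Pool.Agent.LB0.Sym

/-!
# LB5, section L0, module Ix (size 3): the number of `x` in `E_P`

PROOF.  `w x = fun k => x (PP5LE.wi k)`, `wi = ![0, 1, 5, 6, 8]`; `L = {w x : InE P x}` (an `AddSubgroup`: `InE` is linear in `x`).  `w` is injective on `E_P` (`P 0 x 7, P 0 x 3, P 0 x 9, P 0 x 2, P 0 x 4` are linear in the others:
`e2, e3, e6, e8, e10`).  `c • v ∈ L` for `c = P 0`: `v = ∑ v k e_k` and `c e_k = w (u k)` with `u k ∈ E_P` the vectors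
`u 0 : x0 = P 0, x7 = -P 9, x3 = P 4, x9 = -P 10, x4 = P 1`; `u 1 : x1 = P 0, x7 = P 7, x9 = P 8, x2 = P 4, x4 = P 3`;
`u 2 : x5 = P 0, x7 = P 6, x3 = -P 3, x9 = P 7, x2 = P 1`; `u 3 : x6 = P 0, x7 = P 1, x3 = -P 8, x2 = -P 10, x4 = -P 7`;
`u 4 : x8 = P 0, x3 = P 7, x9 = P 1, x2 = P 9, x4 = P 6` (other coordinates `0`); `InE P (u k)`: sixteen equations, each `0 = 0` or one of `h1, .., h10` of `Qd P` up to sign.
`hd` of `lat` is `PP5LE.cva` (choose `X a ∈ E_P` over the rows).  Apply `lat` to `S.image w`, same `M`.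
-/

set_option autoImplicit false

namespace Pool.Agent.LB0

open Pool.Agent.PP5

private theorem Ix_add {P : Sp} {x y : Fin 10 → ℤ} (hx : InE P x) (hy : InE P y) :
    InE P (x + y) := by
  refine ⟨?_, ?_, ?_, ?_, ?_, ?_, ?_, ?_, ?_, ?_, ?_, ?_, ?_, ?_, ?_, ?_⟩
  · simp only [Pi.add_apply]; linear_combination hx.e1 + hy.e1
  · simp only [Pi.add_apply]; linear_combination hx.e2 + hy.e2
  · simp only [Pi.add_apply]; linear_combination hx.e3 + hy.e3
  · simp only [Pi.add_apply]; linear_combination hx.e4 + hy.e4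
  · simp only [Pi.add_apply]; linear_combination hx.e5 + hy.e5
  · simp only [Pi.add_apply]; linear_combination hx.e6 + hy.e6
  · simp only [Pi.add_apply]; linear_combination hx.e7 + hy.e7
  · simp only [Pi.add_apply]; linear_combination hx.e8 + hy.e8
  · simp only [Pi.add_apply]; linear_combination hx.e9 + hy.e9
  · simp only [Pi.add_apply]; linear_combination hx.e10 + hy.e10
  · simp only [Pi.add_apply]; linear_combination hx.e11 + hy.e11
  · simp only [Pi.add_apply]; linear_combination hx.e12 + hy.e12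
  · simp only [Pi.add_apply]; linear_combination hx.e13 + hy.e13
  · simp only [Pi.add_apply]; linear_combination hx.e14 + hy.e14
  · simp only [Pi.add_apply]; linear_combination hx.e15 + hy.e15
  · simp only [Pi.add_apply]; linear_combination hx.e16 + hy.e16

private theorem Ix_smul {P : Sp} {x : Fin 10 → ℤ} (c : ℤ) (hx : InE P x) : InE P (c • x) := by
  refine ⟨?_, ?_, ?_, ?_, ?_, ?_, ?_, ?_, ?_, ?_, ?_, ?_, ?_, ?_, ?_, ?_⟩
  · simp only [Pi.smul_apply, smul_eq_mul]; linear_combination c * hx.e1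
  · simp only [Pi.smul_apply, smul_eq_mul]; linear_combination c * hx.e2
  · simp only [Pi.smul_apply, smul_eq_mul]; linear_combination c * hx.e3
  · simp only [Pi.smul_apply, smul_eq_mul]; linear_combination c * hx.e4
  · simp only [Pi.smul_apply, smul_eq_mul]; linear_combination c * hx.e5
  · simp only [Pi.smul_apply, smul_eq_mul]; linear_combination c * hx.e6
  · simp only [Pi.smul_apply, smul_eq_mul]; linear_combination c * hx.e7
  · simp only [Pi.smul_apply, smul_eq_mul]; linear_combination c * hx.e8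
  · simp only [Pi.smul_apply, smul_eq_mul]; linear_combination c * hx.e9
  · simp only [Pi.smul_apply, smul_eq_mul]; linear_combination c * hx.e10
  · simp only [Pi.smul_apply, smul_eq_mul]; linear_combination c * hx.e11
  · simp only [Pi.smul_apply, smul_eq_mul]; linear_combination c * hx.e12
  · simp only [Pi.smul_apply, smul_eq_mul]; linear_combination c * hx.e13
  · simp only [Pi.smul_apply, smul_eq_mul]; linear_combination c * hx.e14
  · simp only [Pi.smul_apply, smul_eq_mul]; linear_combination c * hx.e15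
  · simp only [Pi.smul_apply, smul_eq_mul]; linear_combination c * hx.e16

private theorem Ix_u0 {P : Sp} (hq : Qd P) :
    InE P (![P 0, 0, 0, P 4, P 1, 0, 0, -P 9, 0, -P 10] : Fin 10 → ℤ) := by
  refine ⟨?_, ?_, ?_, ?_, ?_, ?_, ?_, ?_, ?_, ?_, ?_, ?_, ?_, ?_, ?_, ?_⟩
  · simp only [Matrix.cons_val]; ring
  · simp only [Matrix.cons_val]; ring
  · simp only [Matrix.cons_val]; ring
  · simp only [Matrix.cons_val]; ring
  · simp only [Matrix.cons_val]; ring
  · simp only [Matrix.cons_val]; ring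
  · simp only [Matrix.cons_val]; linear_combination (-1) * hq.h6
  · simp only [Matrix.cons_val]; ring
  · simp only [Matrix.cons_val]; linear_combination hq.h3
  · simp only [Matrix.cons_val]; ring
  · simp only [Matrix.cons_val]; ring
  · simp only [Matrix.cons_val]; linear_combination (-1) * hq.h9
  · simp only [Matrix.cons_val]; ring
  · simp only [Matrix.cons_val]; linear_combination (-1) * hq.h7
  · simp only [Matrix.cons_val]; ring
  · simp only [Matrix.cons_val]; linear_combination hq.h2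

private theorem Ix_u1 {P : Sp} (hq : Qd P) :
    InE P (![0, P 0, P 4, 0, P 3, 0, 0, P 7, 0, P 8] : Fin 10 → ℤ) := by
  refine ⟨?_, ?_, ?_, ?_, ?_, ?_, ?_, ?_, ?_, ?_, ?_, ?_, ?_, ?_, ?_, ?_⟩
  · simp only [Matrix.cons_val]; ring
  · simp only [Matrix.cons_val]; ring
  · simp only [Matrix.cons_val]; ring
  · simp only [Matrix.cons_val]; linear_combination hq.h6
  · simp only [Matrix.cons_val]; ring
  · simp only [Matrix.cons_val]; ring
  · simp only [Matrix.cons_val]; ring
  · simp only [Matrix.cons_val]; ring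
  · simp only [Matrix.cons_val]; linear_combination (-1) * hq.h4
  · simp only [Matrix.cons_val]; ring
  · simp only [Matrix.cons_val]; linear_combination (-1) * hq.h7
  · simp only [Matrix.cons_val]; ring
  · simp only [Matrix.cons_val]; linear_combination (-1) * hq.h9
  · simp only [Matrix.cons_val]; ring
  · simp only [Matrix.cons_val]; ring
  · simp only [Matrix.cons_val]; linear_combination (-1) * hq.h1

private theorem Ix_u2 {P : Sp} (hq : Qd P) :
    InE P (![0, 0, P 1, -P 3, 0, P 0, 0, P 6, 0, P 7] : Fin 10 → ℤ) := by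
  refine ⟨?_, ?_, ?_, ?_, ?_, ?_, ?_, ?_, ?_, ?_, ?_, ?_, ?_, ?_, ?_, ?_⟩
  · simp only [Matrix.cons_val]; linear_combination hq.h9
  · simp only [Matrix.cons_val]; ring
  · simp only [Matrix.cons_val]; ring
  · simp only [Matrix.cons_val]; linear_combination (-1) * hq.h2
  · simp only [Matrix.cons_val]; linear_combination hq.h7
  · simp only [Matrix.cons_val]; ring
  · simp only [Matrix.cons_val]; linear_combination hq.h1
  · simp only [Matrix.cons_val]; ring
  · simp only [Matrix.cons_val]; linear_combination (-1) * hq.h5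
  · simp only [Matrix.cons_val]; ring
  · simp only [Matrix.cons_val]; ring
  · simp only [Matrix.cons_val]; ring
  · simp only [Matrix.cons_val]; ring
  · simp only [Matrix.cons_val]; ring
  · simp only [Matrix.cons_val]; ring
  · simp only [Matrix.cons_val]; ring

private theorem Ix_u3 {P : Sp} (hq : Qd P) :
    InE P (![0, 0, -P 10, -P 8, -P 7, 0, P 0, P 1, 0, 0] : Fin 10 → ℤ) := by
  refine ⟨?_, ?_, ?_, ?_, ?_, ?_, ?_, ?_, ?_, ?_, ?_, ?_, ?_, ?_, ?_, ?_⟩
  · simp only [Matrix.cons_val]; ring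
  · simp only [Matrix.cons_val]; ring
  · simp only [Matrix.cons_val]; ring
  · simp only [Matrix.cons_val]; ring
  · simp only [Matrix.cons_val]; linear_combination (-1) * hq.h6
  · simp only [Matrix.cons_val]; ring
  · simp only [Matrix.cons_val]; ring
  · simp only [Matrix.cons_val]; ring
  · simp only [Matrix.cons_val]; linear_combination (-1) * hq.h10
  · simp only [Matrix.cons_val]; ring
  · simp only [Matrix.cons_val]; linear_combination hq.h2
  · simp only [Matrix.cons_val]; ring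
  · simp only [Matrix.cons_val]; ring
  · simp only [Matrix.cons_val]; linear_combination hq.h1
  · simp only [Matrix.cons_val]; linear_combination (-1) * hq.h9
  · simp only [Matrix.cons_val]; ring

private theorem Ix_u4 {P : Sp} (hq : Qd P) :
    InE P (![0, 0, P 9, P 7, P 6, 0, 0, 0, P 0, P 1] : Fin 10 → ℤ) := by
  refine ⟨?_, ?_, ?_, ?_, ?_, ?_, ?_, ?_, ?_, ?_, ?_, ?_, ?_, ?_, ?_, ?_⟩
  · simp only [Matrix.cons_val]; linear_combination (-1) * hq.h6
  · simp only [Matrix.cons_val]; ring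
  · simp only [Matrix.cons_val]; ring
  · simp only [Matrix.cons_val]; ring
  · simp only [Matrix.cons_val]; ring
  · simp only [Matrix.cons_val]; ring
  · simp only [Matrix.cons_val]; ring
  · simp only [Matrix.cons_val]; ring
  · simp only [Matrix.cons_val]; linear_combination hq.h8
  · simp only [Matrix.cons_val]; ring
  · simp only [Matrix.cons_val]; ring
  · simp only [Matrix.cons_val]; linear_combination hq.h1
  · simp only [Matrix.cons_val]; linear_combination hq.h2
  · simp only [Matrix.cons_val]; ring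
  · simp only [Matrix.cons_val]; linear_combination hq.h7
  · simp only [Matrix.cons_val]; ring

private theorem Ix_zero {P : Sp} : InE P 0 := by
  refine ⟨?_, ?_, ?_, ?_, ?_, ?_, ?_, ?_, ?_, ?_, ?_, ?_, ?_, ?_, ?_, ?_⟩ <;> simp

private def Ix_L (P : Sp) : AddSubgroup (Fin 5 → ℤ) where
  carrier := {w | ∃ x : Fin 10 → ℤ, InE P x ∧ (fun k => x (PP5LE.wi k)) = w}
  add_mem' := by
    rintro a b ⟨x, hx, rfl⟩ ⟨y, hy, rfl⟩
    exact ⟨x + y, Ix_add hx hy, rfl⟩
  zero_mem' := ⟨0, Ix_zero, rfl⟩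
  neg_mem' := by
    rintro a ⟨x, hx, rfl⟩
    refine ⟨(-1 : ℤ) • x, Ix_smul (-1) hx, ?_⟩
    funext k
    simp

private theorem Ix_inj {P : Sp} (h0 : P 0 ≠ 0) {x y : Fin 10 → ℤ} (hx : InE P x) (hy : InE P y)
    (h : (fun k => x (PP5LE.wi k)) = fun k => y (PP5LE.wi k)) : x = y := by
  have a0 : x 0 = y 0 := congrFun h 0
  have a1 : x 1 = y 1 := congrFun h 1
  have a5 : x 5 = y 5 := congrFun h 2
  have a6 : x 6 = y 6 := congrFun h 3
  have a8 : x 8 = y 8 := congrFun h 4
  have a7 : x 7 = y 7 := by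
    refine mul_left_cancel₀ h0 ?_
    linear_combination (-1) * hx.e2 + hy.e2 + P 1 * a6 + P 7 * a1 - P 9 * a0 + P 6 * a5
  have a3 : x 3 = y 3 := by
    refine mul_left_cancel₀ h0 ?_
    linear_combination hx.e3 - hy.e3 - P 3 * a5 + P 4 * a0 + P 7 * a8 - P 8 * a6
  have a9 : x 9 = y 9 := by
    refine mul_left_cancel₀ h0 ?_
    linear_combination (-1) * hx.e6 + hy.e6 + P 1 * a8 + P 7 * a5 + P 8 * a1 - P 10 * a0
  have a2 : x 2 = y 2 := by
    refine mul_left_cancel₀ h0 ?_
    linear_combination (-1) * hx.e8 + hy.e8 + P 1 * a5 + P 4 * a1 + P 9 * a8 - P 10 * a6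
  have a4 : x 4 = y 4 := by
    refine mul_left_cancel₀ h0 ?_
    linear_combination hx.e10 - hy.e10 + P 1 * a0 + P 3 * a1 - P 7 * a6 + P 6 * a8
  funext j
  fin_cases j
  · exact a0
  · exact a1
  · exact a2
  · exact a3
  · exact a4
  · exact a5
  · exact a6
  · exact a7
  · exact a8
  · exact a9

theorem ix {P : Sp} {M : ℝ} (hq : Qd P) (h0 : P 0 ≠ 0) (hp : Pr P) (hM : |(P 0 : ℝ)| ≤ M)
    (S : Finset (Fin 10 → ℤ)) (hS : ∀ x ∈ S, InE P x ∧ ∀ j, |(x j : ℝ)| ≤ M) :
    (S.card : ℝ) * (P 0 : ℝ) ^ 2 ≤ 4 ^ 5 * M ^ 5 := by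
  classical
  have hL : ∀ v : Fin 5 → ℤ, P 0 • v ∈ Ix_L P := by
    intro v
    refine ⟨v 0 • _ + (v 1 • _ + (v 2 • _ + (v 3 • _ + v 4 • _))),
      Ix_add (Ix_smul (v 0) (Ix_u0 hq)) (Ix_add (Ix_smul (v 1) (Ix_u1 hq))
        (Ix_add (Ix_smul (v 2) (Ix_u2 hq)) (Ix_add (Ix_smul (v 3) (Ix_u3 hq))
          (Ix_smul (v 4) (Ix_u4 hq))))), ?_⟩
    funext k
    fin_cases k <;> simp [PP5LE.wi, mul_comm]
  have hd : ∀ X : Fin 5 → Fin 5 → ℤ, (∀ i, X i ∈ Ix_L P) → P 0 ^ 2 ∣ (Matrix.of X).det := by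
    intro X hX
    choose Y hY1 hY2 using hX
    have h := PP5LE.cva hq h0 (fun l hl hh => by
      obtain ⟨i, hi⟩ := hp l hl
      exact hi (hh i)) Y hY1
    have e : (Matrix.of fun a k : Fin 5 => Y a (PP5LE.wi k)) = Matrix.of X := by
      ext a k
      exact congrFun (hY2 a) k
    rw [e] at h
    exact h
  have hinj : Set.InjOn (fun x : Fin 10 → ℤ => fun k : Fin 5 => x (PP5LE.wi k)) (S : Set (Fin 10 → ℤ)) := by
    intro x hx y hy h
    exact Ix_inj h0 (hS x (Finset.mem_coe.1 hx)).1 (hS y (Finset.mem_coe.1 hy)).1 h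
  have h := lat h0 hL hd hM (S.image (fun x : Fin 10 → ℤ => fun k : Fin 5 => x (PP5LE.wi k))) (by
    intro v hv
    rw [Finset.mem_image] at hv
    obtain ⟨x, hx, rfl⟩ := hv
    exact ⟨⟨x, (hS x hx).1, rfl⟩, fun k => (hS x hx).2 _⟩)
  rw [Finset.card_image_of_injOn hinj] at h
  exact h

end Pool.Agent.LB0
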