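import Mathlib
import Pool.Agent.FTA.DivB

/-!
# LB5, section L0, module Om (size 2): divisor bounds

PROOF.  `Pool.Agent.FTA.divisor_bound` with `ε / 3`: `τ(n) ≤ c n^(ε/3)`.  `2 ^ ω(n) ≤ τ(n)` (every subset of the prime factors gives its product as a divisor:
`Finset.card_powerset`, `Finset.prod` injective; or `Nat.card_divisors` : `τ = ∏ (v_p + 1) ≥ ∏ 2`), so `8^ω(n) ≤ τ(n)³ ≤ c³ n^ε`; and `τ(n)² ≤ c² n^(2ε/3) ≤ c² n^ε`.
`C = 1 + c² + c³`.
-/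

set_option autoImplicit false

namespace Pool.Agent.LB0

private theorem om_two {n : ℕ} (hn : 1 ≤ n) : 2 ^ n.primeFactors.card ≤ n.divisors.card := by
  rw [Nat.card_divisors (by omega), ← Finset.prod_const]
  apply Finset.prod_le_prod'
  intro p hp
  have h1 := Nat.prime_of_mem_primeFactors hp
  have h2 := Nat.dvd_of_mem_primeFactors hp
  have h3 := (h1.dvd_iff_one_le_factorization (by omega : n ≠ 0)).1 h2
  omega

theorem om {ε : ℝ} (hε : 0 < ε) : ∃ C : ℝ, 0 ≤ C ∧ ∀ n : ℕ, 1 ≤ n →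
    (8 : ℝ) ^ n.primeFactors.card ≤ C * (n : ℝ) ^ ε ∧
    ((n.divisors.card : ℝ)) ^ 2 ≤ C * (n : ℝ) ^ ε := by
  obtain ⟨c, hc, h⟩ := Pool.Agent.FTA.divisor_bound (ε := ε / 3) (by positivity)
  refine ⟨c ^ 2 + c ^ 3, by positivity, ?_⟩
  intro n hn
  have hn1 : (1 : ℝ) ≤ n := by exact_mod_cast hn
  have h1 := h n (by omega)
  have h2 : ((2 : ℝ)) ^ n.primeFactors.card ≤ n.divisors.card := by exact_mod_cast om_two hn
  have h3 : (1 : ℝ) ≤ (n : ℝ) ^ (ε / 3) := Real.one_le_rpow hn1 (by positivity)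
  have e3 : ((n : ℝ) ^ (ε / 3)) ^ 3 = (n : ℝ) ^ ε := by
    rw [← Real.rpow_natCast, ← Real.rpow_mul (by positivity)]
    congr 1
    push_cast; ring
  have e2 : ((n : ℝ) ^ (ε / 3)) ^ 2 ≤ (n : ℝ) ^ ε := by
    rw [← e3]
    exact pow_le_pow_right₀ h3 (by norm_num)
  have hp : 0 ≤ (n : ℝ) ^ ε := by positivity
  constructor
  · have e8 : (8 : ℝ) ^ n.primeFactors.card = ((2 : ℝ) ^ n.primeFactors.card) ^ 3 := by
      rw [← pow_mul, mul_comm, pow_mul]; norm_num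
    calc (8 : ℝ) ^ n.primeFactors.card = ((2 : ℝ) ^ n.primeFactors.card) ^ 3 := e8
      _ ≤ (c * (n : ℝ) ^ (ε / 3)) ^ 3 := pow_le_pow_left₀ (by positivity) (h2.trans h1) 3
      _ = c ^ 3 * (n : ℝ) ^ ε := by rw [mul_pow, e3]
      _ ≤ (c ^ 2 + c ^ 3) * (n : ℝ) ^ ε := by
        apply mul_le_mul_of_nonneg_right _ hp
        have : 0 ≤ c ^ 2 := by positivity
        linarith
  · calc ((n.divisors.card : ℝ)) ^ 2 ≤ (c * (n : ℝ) ^ (ε / 3)) ^ 2 :=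
          pow_le_pow_left₀ (by positivity) h1 2
      _ = c ^ 2 * ((n : ℝ) ^ (ε / 3)) ^ 2 := by rw [mul_pow]
      _ ≤ c ^ 2 * (n : ℝ) ^ ε := mul_le_mul_of_nonneg_left e2 (by positivity)
      _ ≤ (c ^ 2 + c ^ 3) * (n : ℝ) ^ ε := by
        apply mul_le_mul_of_nonneg_right _ hp
        have : 0 ≤ c ^ 3 := by positivity
        linarith

end Pool.Agent.LB0
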