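import Pool.Agent.LB0.Gcb
import Pool.Agent.LB0.Ix
import Pool.Agent.LB0.Dom
import Pool.Agent.LB0.Om

/-!
# LB5, section L0, module Nl (size 4): the `x` with a short null vector

PROOF.  `C1` from `om δ`, `R0 = 1`, `B = R^(1-δ)`, `1 ≤ B ≤ R`.  Choose `P_x` for `x ∈ X`.  `Qv P_x = 0` (`Qd_iff_Qv`) and `P_x ≠ 0` (primitive), so `dom` with `Z = 0` gives a chart `e_x` with `P_x (ext e_x) ≠ 0`, `|P_x i| ≤ 4 |P_x (ext e_x)|`.
`X_e = {x : e_x = e}`, `#X_e = #(X_e.image (hh e))` (`hh_inj`).  For `x' = hh e x`, `x ∈ X_e`, let `P' = gg e P_x`: `InE P' x'` (`gg_InE`), `Qd P'`, `Pr P'`, `|P' i| ≤ 4 |P' 0|`, `P' 0 ≠ 0`, `|P' 0| ≤ B`, `|x' j| ≤ K R` (`hh_abs`).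
So it is enough to bound `#T` by `C2 R^(8 - 2δ)` for a finite set `T` of pairs `(x', P')` with these properties and with different `x'` (or: a set `T` of `x'` and a function `x' ↦ P'`):
`#T ≤ ∑_{c ≠ 0, |c| ≤ B} ∑_{P' : P' 0 = c} #{x' ∈ T with this P'}`; the inner number is `≤ 4^5 (K R)^5 / c²` (`ix`, `M = K R ≥ B ≥ |c|`), the number of `P'` is `≤ 9^6 |c|^4 τ(|c|)²` (`gc`), so
`#T ≤ 4^5 9^6 K^5 R^5 ∑_{0 < |c| ≤ B} |c|² τ(|c|)² ≤ C2' R^5 · 3 B · B² · C1 R^δ` (`τ(n)² ≤ C1 n^δ ≤ C1 R^δ`; the number of `c` is `≤ 2 B + 1 ≤ 3 B`)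
`= C2 R^(5 + 3 (1 - δ) + δ) = C2 R^(8 - 2 δ)`.
-/

set_option autoImplicit false

namespace Pool.Agent.LB0

open Pool.Agent.PP5

private theorem Nl_fib {α β : Type*} [DecidableEq β] (S : Finset α) (f : α → β) (t : Finset β)
    (h : ∀ a ∈ S, f a ∈ t) (b : β → ℝ)
    (hb : ∀ y ∈ t, ((S.filter (fun a => f a = y)).card : ℝ) ≤ b y) :
    (S.card : ℝ) ≤ ∑ y ∈ t, b y := by
  rw [Finset.card_eq_sum_card_fiberwise (f := f) (t := t) h]
  push_cast
  exact Finset.sum_le_sum hb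

/-- data attached to a point -/
private structure NlD (K R B : ℝ) (e : Fin 8) (P : Sp) (x : Fin 10 → ℤ) : Prop where
  inE : InE P (hh e x)
  qd : Qd P
  pr : Pr P
  ne : P 0 ≠ 0
  le : |(P 0 : ℝ)| ≤ B
  bd : ∀ i, |(P i : ℝ)| ≤ 4 * |(P 0 : ℝ)|
  xb : ∀ j, |(hh e x j : ℝ)| ≤ K * R

private theorem Nl_ex {K R B : ℝ} {x : Fin 10 → ℤ} (hX : Xx K R x)
    (h : ∃ P : Sp, InE P x ∧ Pr P ∧ (∀ i, |(P i : ℝ)| ≤ B) ∧ Qd P) :
    ∃ q : Fin 8 × Sp, NlD K R B q.1 q.2 x := by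
  obtain ⟨P, hE, hPr, hB, hQ⟩ := h
  have hQ0 : ∀ j, |(Qv P j : ℝ)| ≤ 0 := by
    intro j
    rw [(Qd_iff_Qv P).1 hQ j]
    simp
  rcases dom (le_refl (0 : ℝ)) hQ0 with h1 | ⟨e, he0, he⟩
  · exfalso
    obtain ⟨i, hi⟩ := hPr 2 Nat.prime_two
    apply hi
    have h2 := h1 i
    rw [Real.sqrt_zero, mul_zero] at h2
    have h3 : (P i : ℝ) = 0 := abs_eq_zero.mp (le_antisymm h2 (abs_nonneg _))
    have h4 : P i = 0 := by exact_mod_cast h3
    rw [h4]
    exact dvd_zero _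
  · refine ⟨(e, gg e P), ?_⟩
    have h0 : gg e P 0 = P (ext e) := gg_zero e P
    refine ⟨gg_InE e hE, gg_Qd e hQ, gg_Pr e hPr, ?_, ?_, ?_, ?_⟩
    · show gg e P 0 ≠ 0
      rw [h0]
      exact he0
    · show |((gg e P 0 : ℤ) : ℝ)| ≤ B
      rw [h0]
      exact hB _
    · intro i
      show |((gg e P i : ℤ) : ℝ)| ≤ 4 * |((gg e P 0 : ℤ) : ℝ)|
      obtain ⟨k, hk⟩ := gg_abs e i
      have h5 : |((gg e P i : ℤ) : ℝ)| = |((P k : ℤ) : ℝ)| := by
        rw [← Int.cast_abs, ← Int.cast_abs, hk P]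
      rw [h5, h0]
      exact he k
    · intro j
      show |((hh e x j : ℤ) : ℝ)| ≤ K * R
      obtain ⟨k, hk⟩ := hh_abs e j
      have h5 : |((hh e x j : ℤ) : ℝ)| = |((x k : ℤ) : ℝ)| := by
        rw [← Int.cast_abs, ← Int.cast_abs, hk x]
      rw [h5]
      exact hX.xb k

theorem nl {δ K : ℝ} (hδ : 0 < δ) (hδ1 : δ ≤ 1 / 4) (hK : 1 ≤ K) : ∃ C R0 : ℝ, 0 ≤ C ∧
    ∀ R : ℝ, R0 ≤ R → ∀ X : Finset (Fin 10 → ℤ), (∀ x ∈ X, Xx K R x ∧
      ∃ P : Sp, InE P x ∧ Pr P ∧ (∀ i, |(P i : ℝ)| ≤ R ^ (1 - δ)) ∧ Qd P) →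
    (X.card : ℝ) ≤ C * R ^ (8 - 2 * δ) := by
  classical
  obtain ⟨C1, hC1, hom⟩ := om hδ
  refine ⟨16 * (9 ^ 6 * (4 ^ 5 * K ^ 5)) * C1, 1, by positivity, ?_⟩
  intro R hR X hX
  set B : ℝ := R ^ (1 - δ) with hB
  have hR0 : 0 < R := by linarith
  have hB1 : 1 ≤ B := Real.one_le_rpow hR (by linarith)
  have hBR : B ≤ R := by
    calc B ≤ R ^ (1 : ℝ) := Real.rpow_le_rpow_of_exponent_le hR (by linarith)
      _ = R := Real.rpow_one R
  have hRKR : R ≤ K * R := by nlinarith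
  have hex : ∀ x : Fin 10 → ℤ, ∃ q : Fin 8 × Sp, x ∈ X → NlD K R B q.1 q.2 x := by
    intro x
    by_cases hx : x ∈ X
    · obtain ⟨q, hq⟩ := Nl_ex (hX x hx).1 (hX x hx).2
      exact ⟨q, fun _ => hq⟩
    · exact ⟨(0, 0), fun h => absurd h hx⟩
  choose q hq using hex
  -- the number of points with given `e` and `c`
  set t : Finset (Fin 8 × ℤ) := Finset.univ ×ˢ ((Finset.Icc (-(⌊B⌋₊ : ℤ)) (⌊B⌋₊ : ℤ)).erase 0) with ht
  have hmaps : ∀ x ∈ X, ((q x).1, (q x).2 0) ∈ t := by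
    intro x hx
    have h1 := hq x hx
    rw [ht, Finset.mem_product, Finset.mem_erase, Finset.mem_Icc]
    refine ⟨Finset.mem_univ _, h1.ne, ?_⟩
    have h2 : ((((q x).2 0).natAbs : ℕ) : ℝ) ≤ B := by
      have h3 : ((((q x).2 0).natAbs : ℕ) : ℝ) = |((q x).2 0 : ℝ)| := by
        rw [← Int.cast_abs, Int.abs_eq_natAbs]
        simp
      rw [h3]
      exact h1.le
    have h4 : ((q x).2 0).natAbs ≤ ⌊B⌋₊ := Nat.le_floor h2
    show -(⌊B⌋₊ : ℤ) ≤ (q x).2 0 ∧ (q x).2 0 ≤ (⌊B⌋₊ : ℤ)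
    omega
  have hfib := Nl_fib X (fun x => ((q x).1, (q x).2 0)) t hmaps
    (fun _ => 9 ^ 6 * (4 ^ 5 * K ^ 5) * R ^ 5 * B ^ 2 * (C1 * R ^ δ)) (by
      rintro ⟨e, c⟩ hec
      rw [ht, Finset.mem_product, Finset.mem_erase, Finset.mem_Icc] at hec
      obtain ⟨-, hc0, hc1, hc2⟩ := hec
      dsimp only at hc0 hc1 hc2
      set S := X.filter (fun x => ((q x).1, (q x).2 0) = (e, c)) with hS
      have hSm : ∀ x ∈ S, x ∈ X ∧ (q x).1 = e ∧ (q x).2 0 = c := by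
        intro x hx
        rw [hS, Finset.mem_filter, Prod.mk.injEq] at hx
        exact ⟨hx.1, hx.2.1, hx.2.2⟩
      have hcr : (0 : ℝ) < (c : ℝ) ^ 2 := by
        have : (c : ℝ) ≠ 0 := by exact_mod_cast hc0
        positivity
      have hcB : (c.natAbs : ℝ) ≤ B := by
        have : c.natAbs ≤ ⌊B⌋₊ := by omega
        exact (Nat.cast_le.mpr this).trans (Nat.floor_le (by linarith))
      have hc1' : 1 ≤ c.natAbs := by omega
      have hsqabs : (c : ℝ) ^ 2 = (c.natAbs : ℝ) ^ 2 := by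
        rw [← sq_abs, ← Int.cast_abs, Int.abs_eq_natAbs]
        simp
      -- points for given `P`
      have h1 := Nl_fib S (fun x => (q x).2) (S.image (fun x => (q x).2))
        (fun x hx => Finset.mem_image_of_mem _ hx)
        (fun _ => 4 ^ 5 * (K * R) ^ 5 / (c : ℝ) ^ 2) (by
          intro P hP
          obtain ⟨x0, hx0, rfl⟩ := Finset.mem_image.mp hP
          obtain ⟨hx0X, he0, hc00⟩ := hSm x0 hx0
          have hd0 := hq x0 hx0X
          have hinj : ((S.filter (fun x => (q x).2 = (q x0).2)).image (hh e)).card =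
              (S.filter (fun x => (q x).2 = (q x0).2)).card :=
            Finset.card_image_of_injective _ (hh_inj e)
          have h2 := ix (P := (q x0).2) (M := K * R) hd0.qd hd0.ne hd0.pr
            ((hd0.le.trans hBR).trans hRKR)
            ((S.filter (fun x => (q x).2 = (q x0).2)).image (hh e)) (by
              intro x' hx'
              obtain ⟨x, hx, rfl⟩ := Finset.mem_image.mp hx'
              rw [Finset.mem_filter] at hx
              obtain ⟨hxX, hxe, -⟩ := hSm x hx.1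
              have hd := hq x hxX
              refine ⟨?_, ?_⟩
              · have := hd.inE
                rw [hx.2, hxe] at this
                exact this
              · intro j
                have := hd.xb j
                rw [hxe] at this
                exact this)
          rw [hinj, hc00] at h2
          rw [le_div_iff₀ hcr]
          exact h2)
      rw [Finset.sum_const, nsmul_eq_mul] at h1
      have h2 := gc hc0 (S.image (fun x => (q x).2)) (by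
        intro P hP
        obtain ⟨x, hx, rfl⟩ := Finset.mem_image.mp hP
        obtain ⟨hxX, -, hxc⟩ := hSm x hx
        have hd := hq x hxX
        refine ⟨hxc, hd.qd, ?_⟩
        intro i
        have h3 := hd.bd i
        rw [hxc] at h3
        exact_mod_cast h3)
      have h3 : ((S.image (fun x => (q x).2)).card : ℝ) ≤
          9 ^ 6 * (c.natAbs : ℝ) ^ 4 * ((c.natAbs.divisors.card : ℕ) : ℝ) ^ 2 := by
        exact_mod_cast h2
      have h4 := (hom c.natAbs hc1').2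
      have h5 : (c.natAbs : ℝ) ^ δ ≤ R ^ δ :=
        Real.rpow_le_rpow (by positivity) (hcB.trans hBR) hδ.le
      have h6 : ((c.natAbs.divisors.card : ℕ) : ℝ) ^ 2 ≤ C1 * R ^ δ :=
        h4.trans (mul_le_mul_of_nonneg_left h5 hC1)
      have hRδ : 0 ≤ R ^ δ := Real.rpow_nonneg hR0.le _
      calc (S.card : ℝ) ≤ ((S.image (fun x => (q x).2)).card : ℝ) * (4 ^ 5 * (K * R) ^ 5 / (c : ℝ) ^ 2) := h1
        _ ≤ (9 ^ 6 * (c.natAbs : ℝ) ^ 4 * ((c.natAbs.divisors.card : ℕ) : ℝ) ^ 2) *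
            (4 ^ 5 * (K * R) ^ 5 / (c : ℝ) ^ 2) := by
          apply mul_le_mul_of_nonneg_right h3
          positivity
        _ = 9 ^ 6 * (4 ^ 5 * K ^ 5) * R ^ 5 * (c.natAbs : ℝ) ^ 2 *
            ((c.natAbs.divisors.card : ℕ) : ℝ) ^ 2 := by
          rw [hsqabs]
          have : (c.natAbs : ℝ) ≠ 0 := by
            have : (1 : ℝ) ≤ (c.natAbs : ℝ) := by exact_mod_cast hc1'
            linarith
          field_simp
        _ ≤ 9 ^ 6 * (4 ^ 5 * K ^ 5) * R ^ 5 * B ^ 2 * (C1 * R ^ δ) := by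
          have hK0 : 0 ≤ K := by linarith
          gcongr)
  rw [Finset.sum_const, nsmul_eq_mul] at hfib
  have hcard : (t.card : ℝ) ≤ 16 * B := by
    rw [ht, Finset.card_product, Finset.card_univ, Fintype.card_fin, Finset.card_erase_of_mem
      (by rw [Finset.mem_Icc]; omega), Int.card_Icc]
    have h1 : ((⌊B⌋₊ : ℤ) + 1 - (-(⌊B⌋₊ : ℤ))).toNat - 1 = 2 * ⌊B⌋₊ := by omega
    rw [h1]
    push_cast
    have h2 : (⌊B⌋₊ : ℝ) ≤ B := Nat.floor_le (by linarith)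
    linarith
  have hRδ : 0 ≤ R ^ δ := Real.rpow_nonneg hR0.le _
  have hK0 : 0 ≤ K := by linarith
  calc (X.card : ℝ) ≤ (t.card : ℝ) * (9 ^ 6 * (4 ^ 5 * K ^ 5) * R ^ 5 * B ^ 2 * (C1 * R ^ δ)) := hfib
    _ ≤ (16 * B) * (9 ^ 6 * (4 ^ 5 * K ^ 5) * R ^ 5 * B ^ 2 * (C1 * R ^ δ)) := by
      apply mul_le_mul_of_nonneg_right hcard
      positivity
    _ = 16 * (9 ^ 6 * (4 ^ 5 * K ^ 5)) * C1 * (R ^ (5 : ℕ) * B ^ (3 : ℕ) * R ^ δ) := by ring
    _ = 16 * (9 ^ 6 * (4 ^ 5 * K ^ 5)) * C1 * R ^ (8 - 2 * δ) := by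
      congr 1
      rw [hB, ← Real.rpow_natCast (R ^ (1 - δ)) 3, ← Real.rpow_mul hR0.le, ← Real.rpow_natCast R 5,
        ← Real.rpow_add hR0, ← Real.rpow_add hR0]
      congr 1
      push_cast
      ring

end Pool.Agent.LB0
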