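import Pool.Agent.LB0.Nn
import Pool.Agent.LB0.Nl
import Pool.Agent.LB.Defs

/-!
# LB5, section L0: the first minimum
-/

set_option autoImplicit false

namespace Pool.Agent.LB0

open Pool.Agent.PP5 Pool.Agent.LB

private theorem main_prim {P : Sp} (hP : P ≠ 0) : ∃ (g : ℤ) (P' : Sp), g ≠ 0 ∧
    (∀ j, P j = g * P' j) ∧ Pr P' := by
  obtain ⟨x0, h1, h2⟩ := Finset.extract_gcd P (Finset.univ_nonempty (α := Fin 12))
  refine ⟨Finset.univ.gcd P, x0, ?_, fun j => h1 j (Finset.mem_univ _), ?_⟩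
  · intro h
    apply hP
    funext j
    rw [h1 j (Finset.mem_univ _), h, zero_mul]; rfl
  · intro p hp
    by_contra hc
    push Not at hc
    have h3 : (p : ℤ) ∣ Finset.univ.gcd x0 := Finset.dvd_gcd (fun j _ => hc j)
    rw [h2] at h3
    have h4 := Int.natAbs_dvd_natAbs.mpr h3
    simp at h4
    exact hp.one_lt.ne' h4

private theorem main_InE {P P' : Sp} {x : Fin 10 → ℤ} {g : ℤ} (hg : g ≠ 0) (h : ∀ j, P j = g * P' j)
    (hE : InE P x) : InE P' x := by
  obtain ⟨e1, e2, e3, e4, e5, e6, e7, e8, e9, e10, e11, e12, e13, e14, e15, e16⟩ := hE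
  simp only [h] at e1 e2 e3 e4 e5 e6 e7 e8 e9 e10 e11 e12 e13 e14 e15 e16
  refine ⟨?_, ?_, ?_, ?_, ?_, ?_, ?_, ?_, ?_, ?_, ?_, ?_, ?_, ?_, ?_, ?_⟩ <;>
    refine mul_left_cancel₀ hg ?_
  · linear_combination e1
  · linear_combination e2
  · linear_combination e3
  · linear_combination e4
  · linear_combination e5
  · linear_combination e6
  · linear_combination e7
  · linear_combination e8
  · linear_combination e9
  · linear_combination e10
  · linear_combination e11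
  · linear_combination e12
  · linear_combination e13
  · linear_combination e14
  · linear_combination e15
  · linear_combination e16

private theorem main_BB (A : Fin 10 → ℤ) (j : Fin 10) : 1 ≤ |A j| + 1 ∧ |A j| + 1 ≤ PP5LB.BB A := by
  have h0 : ∀ i, 0 ≤ |A i| + 1 := fun i => by positivity
  have h1 : 1 ≤ |A j| + 1 := by have := abs_nonneg (A j); linarith
  have h2 : |A j| + 1 ≤ ∑ i, (|A i| + 1) :=
    Finset.single_le_sum (f := fun i => |A i| + 1) (fun i _ => h0 i) (Finset.mem_univ j)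
  refine ⟨h1, ?_⟩
  unfold PP5LB.BB
  nlinarith

private theorem main_Xx {h w r : ℕ} {c x : V10} (hh : 1 ≤ h) (hx : x ∈ Fm h w c r) :
    Xx ((PP5LB.BB (PP5LB.Ah h xs) : ℤ) : ℝ) (h * r : ℝ) x := by
  classical
  set A := PP5LB.Ah h xs with hA
  have hx1 : x ∈ PP5LB.XA A r := (Finset.mem_filter.1 hx).1
  obtain ⟨hx2, hF, a, b, d, hu⟩ := Finset.mem_filter.1 hx1
  have hx3 := Fintype.mem_piFinset.1 hx2
  have hr0 : (0 : ℤ) ≤ (r : ℤ) := Int.natCast_nonneg r
  have hh0 : (1 : ℝ) ≤ (h : ℝ) := by exact_mod_cast hh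
  have hr0' : (0 : ℝ) ≤ (r : ℝ) := Nat.cast_nonneg r
  refine ⟨hF, ?_, ?_, ?_⟩
  · intro p hp
    by_contra hc
    push Not at hc
    have h1 : (p : ℤ) ∣ 1 := by
      rw [← hu]
      exact ((Dvd.dvd.mul_left (hc 1) _).add (Dvd.dvd.mul_left (hc 6) _)).add
        (Dvd.dvd.mul_left (hc 7) _)
    have h4 := Int.natAbs_dvd_natAbs.mpr h1
    simp at h4
    exact hp.one_lt.ne' h4
  · have h0 := hx3 0
    have e : PP5LB.Bx A r 0 = Finset.Ico (A 0 * r) ((A 0 + 1) * r) := by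
      unfold PP5LB.Bx; simp
    rw [e, Finset.mem_Ico] at h0
    have e2 : A 0 = h := by simp [hA, PP5LB.Ah, xs]
    rw [e2] at h0
    exact_mod_cast h0.1
  · intro j
    have hj := hx3 j
    obtain ⟨b1, b2⟩ := main_BB A j
    have hB0 : (0 : ℤ) ≤ PP5LB.BB A := by linarith
    have h1 : |x j| ≤ PP5LB.BB A * r := by
      by_cases h3 : j = 3
      · unfold PP5LB.Bx at hj
        rw [if_pos h3, Finset.mem_Icc] at hj
        exact abs_le.2 hj
      · unfold PP5LB.Bx at hj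
        rw [if_neg h3, Finset.mem_Ico] at hj
        have c1 : (|A j| + 1) * (r : ℤ) ≤ PP5LB.BB A * r := mul_le_mul_of_nonneg_right b2 hr0
        have c2 : -(|A j| + 1) * (r : ℤ) ≤ A j * r :=
          mul_le_mul_of_nonneg_right (by have := neg_abs_le (A j); linarith) hr0
        have c3 : (A j + 1) * (r : ℤ) ≤ (|A j| + 1) * r :=
          mul_le_mul_of_nonneg_right (by have := le_abs_self (A j); linarith) hr0
        rw [abs_le]
        constructor
        · linarith [hj.1]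
        · linarith [hj.2]
    have h2 : |(x j : ℝ)| ≤ (PP5LB.BB A : ℝ) * r := by exact_mod_cast h1
    refine h2.trans ?_
    have hB : (0 : ℝ) ≤ (PP5LB.BB A : ℝ) := by exact_mod_cast hB0
    have h4 : (r : ℝ) ≤ h * r := by nlinarith
    exact mul_le_mul_of_nonneg_left h4 hB

theorem l0 : Pool.Agent.LB.StL0 := by
  classical
  refine ⟨1, fun δ hδ => ?_⟩
  set d : ℝ := min δ (1 / 4) with hd
  have hd0 : 0 < d := lt_min hδ (by norm_num)
  have hd1 : d ≤ 1 / 4 := min_le_right _ _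
  have hdδ : d ≤ δ := min_le_left _ _
  refine ⟨d, hd0, ?_⟩
  intro w c _ h hh
  set K : ℝ := ((PP5LB.BB (PP5LB.Ah h xs) : ℤ) : ℝ) with hKd
  have hK : 1 ≤ K := by
    have := main_BB (PP5LB.Ah h xs) 0
    have h2 : (1 : ℤ) ≤ PP5LB.BB (PP5LB.Ah h xs) := this.1.trans this.2
    rw [hKd]
    exact_mod_cast h2
  obtain ⟨C1, R1, hC1, hnn⟩ := nn hd0 hd1 hK
  obtain ⟨C2, R2, hC2, hnl⟩ := nl hd0 hd1 hK
  have hh0 : (1 : ℝ) ≤ (h : ℝ) := by exact_mod_cast hh
  obtain ⟨r1, hr1⟩ := Filter.eventually_atTop.1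
    (((tendsto_rpow_atTop hd0).comp tendsto_natCast_atTop_atTop).eventually_ge_atTop
      ((C1 + C2) * (h : ℝ) ^ (8 - 2 * d)))
  refine ⟨max (max r1 1) (max ⌈R1⌉₊ ⌈R2⌉₊), ?_⟩
  intro r hr
  have hrr1 : r1 ≤ r := (le_max_left _ _).trans ((le_max_left _ _).trans hr)
  have hr1' : 1 ≤ r := (le_max_right _ _).trans ((le_max_left _ _).trans hr)
  have hrR1 : R1 ≤ (r : ℝ) := (Nat.le_ceil R1).trans
    (by exact_mod_cast (le_max_left _ _).trans ((le_max_right _ _).trans hr))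
  have hrR2 : R2 ≤ (r : ℝ) := (Nat.le_ceil R2).trans
    (by exact_mod_cast (le_max_right _ _).trans ((le_max_right _ _).trans hr))
  have hr0 : (1 : ℝ) ≤ (r : ℝ) := by exact_mod_cast hr1'
  set R : ℝ := (h : ℝ) * r with hR
  have hrR : (r : ℝ) ≤ R := by rw [hR]; nlinarith
  have hR1 : 1 ≤ R := hr0.trans hrR
  have hR0 : 0 < R := by linarith
  set X := (Fm h w c r).filter (fun x => ¬ Lm (h * r) δ x) with hX
  set X1 := X.filter (fun x => ∃ P : Sp, InE P x ∧ Pr P ∧ (∀ i, |(P i : ℝ)| ≤ R ^ (1 - d)) ∧ ¬ Qd P)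
    with hX1
  set X2 := X.filter (fun x => ∃ P : Sp, InE P x ∧ Pr P ∧ (∀ i, |(P i : ℝ)| ≤ R ^ (1 - d)) ∧ Qd P)
    with hX2
  have hsub : X ⊆ X1 ∪ X2 := by
    intro x hx
    obtain ⟨hxF, hxL⟩ := Finset.mem_filter.1 hx
    unfold Lm at hxL
    push Not at hxL
    obtain ⟨P, hE, hP0, hPb⟩ := hxL
    obtain ⟨g, P', hg, hgP, hpr⟩ := main_prim hP0
    have hE' := main_InE hg hgP hE
    have hb' : ∀ i, |(P' i : ℝ)| ≤ R ^ (1 - d) := by
      intro i
      have h1 := hPb i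
      have h2 : |(P' i : ℝ)| ≤ |(P i : ℝ)| := by
        rw [hgP i]
        push_cast
        rw [abs_mul]
        have h5 : (1 : ℝ) ≤ |(g : ℝ)| := by
          have : (1 : ℤ) ≤ |g| := Int.one_le_abs hg
          exact_mod_cast this
        nlinarith [abs_nonneg (P' i : ℝ)]
      have h3 : R ^ (1 - δ) ≤ R ^ (1 - d) :=
        Real.rpow_le_rpow_of_exponent_le hR1 (by linarith)
      exact h2.trans (h1.le.trans h3)
    rw [Finset.mem_union]
    by_cases hq : Qd P'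
    · right
      exact Finset.mem_filter.2 ⟨hx, P', hE', hpr, hb', hq⟩
    · left
      exact Finset.mem_filter.2 ⟨hx, P', hE', hpr, hb', hq⟩
  have hXx : ∀ x ∈ X, Xx K R x := fun x hx => main_Xx hh (Finset.mem_filter.1 hx).1
  have h1 := hnn R (hrR1.trans hrR) X1 (fun x hx =>
    ⟨hXx x (Finset.mem_filter.1 hx).1, (Finset.mem_filter.1 hx).2⟩)
  have h2 := hnl R (hrR2.trans hrR) X2 (fun x hx =>
    ⟨hXx x (Finset.mem_filter.1 hx).1, (Finset.mem_filter.1 hx).2⟩)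
  have h3 : (X.card : ℝ) ≤ X1.card + X2.card := by
    exact_mod_cast (Finset.card_le_card hsub).trans (Finset.card_union_le _ _)
  have h4 : R ^ (8 - 3 * d) ≤ R ^ (8 - 2 * d) :=
    Real.rpow_le_rpow_of_exponent_le hR1 (by linarith)
  have h5 : (X.card : ℝ) ≤ (C1 + C2) * R ^ (8 - 2 * d) := by
    have := mul_le_mul_of_nonneg_left h4 hC1
    linarith
  refine h5.trans ?_
  have h6 : (C1 + C2) * (h : ℝ) ^ (8 - 2 * d) ≤ (r : ℝ) ^ d := hr1 r hrr1
  rw [hR, Real.mul_rpow (by positivity) (by positivity), ← mul_assoc]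
  calc (C1 + C2) * (h : ℝ) ^ (8 - 2 * d) * (r : ℝ) ^ (8 - 2 * d)
      ≤ (r : ℝ) ^ d * (r : ℝ) ^ (8 - 2 * d) := mul_le_mul_of_nonneg_right h6 (by positivity)
    _ = (r : ℝ) ^ (8 - d) := by
        rw [← Real.rpow_add (by linarith)]; congr 1; ring

end Pool.Agent.LB0

namespace Pool.Agent.LB

theorem stL0 : StL0 := Pool.Agent.LB0.l0

end Pool.Agent.LB
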