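import Pool.Agent.LB0.Pk

/-!
# LB5, section L0, module Mq (size 3): null vectors modulo `q`

PROOF.  Induction `Nat.recOnPosPrimePosCoprime` (or `induction q using Nat.recOnPosPrimePosCoprime`): prime powers: `pk`
(`Nat.primeFactors_prime_pow`); `q = 0`: excluded; `q = 1`: `Inc 1 S` gives `#S ≤ 1`; `q = a b`, `a, b > 1` coprime: put `S_a = S.image (fun y i => y i % a)`, `S_b` similarly.
`Inc a S_a` (the entries are reduced: `Int.emod_emod_of_dvd`, `Int.emod_emod_eq_...`), the other hypotheses for `S_a` and `a` follow from `Qv_congr`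
(`a ∣ y i % a - y i`, `a ∣ a b ∣ Qv y j`; for `p ∣ a`: `p ∣ y i % a ↔ p ∣ y i`).  The map `y ↦ (y % a, y % b)`, `S → S_a × S_b`, is injective
(`a, b ∣ y i - y' i` and `a, b` coprime give `a b ∣ y i - y' i`; `Inc (a b) S`), so `#S ≤ #S_a #S_b`.
`Nat.Coprime.card_primeFactors_mul` (or `Nat.Coprime.primeFactors_mul` with `card_union_of_disjoint`).
-/

set_option autoImplicit false

namespace Pool.Agent.LB0

open Pool.Agent.PP5

private def mqr (n : ℕ) (y : Sp) : Sp := fun i => y i % (n : ℤ)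

private theorem mqr_dvd (n : ℕ) (y : Sp) (i : Fin 12) : (n : ℤ) ∣ mqr n y i - y i :=
  (Int.modEq_iff_dvd).1 (Int.mod_modEq (y i) n).symm

private theorem mqr_eq {n : ℕ} {y y' : Sp} (h : mqr n y = mqr n y') (i : Fin 12) :
    (n : ℤ) ∣ y i - y' i := by
  have h1 : y' i % (n : ℤ) = y i % (n : ℤ) := (congrFun h i).symm
  exact (Int.modEq_iff_dvd).1 h1

private theorem mq_inc (n : ℕ) (S : Finset Sp) : Inc n (S.image (mqr n)) := by
  intro z hz z' hz' hd
  obtain ⟨y, _, rfl⟩ := Finset.mem_image.1 hz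
  obtain ⟨y', _, rfl⟩ := Finset.mem_image.1 hz'
  funext i
  have h1 : mqr n y' i % (n : ℤ) = mqr n y i % (n : ℤ) := (Int.modEq_iff_dvd).2 (hd i)
  unfold mqr at h1 ⊢
  rw [Int.emod_emod_of_dvd _ (dvd_refl _), Int.emod_emod_of_dvd _ (dvd_refl _)] at h1
  exact h1.symm

private theorem mq_hyp {n q : ℕ} (hn : n ∣ q) {S : Finset Sp}
    (h : ∀ y ∈ S, (∀ j, (q : ℤ) ∣ Qv y j) ∧ ∀ p : ℕ, p.Prime → p ∣ q → ∃ i, ¬ (p : ℤ) ∣ y i) :
    ∀ z ∈ S.image (mqr n), (∀ j, (n : ℤ) ∣ Qv z j) ∧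
      ∀ p : ℕ, p.Prime → p ∣ n → ∃ i, ¬ (p : ℤ) ∣ z i := by
  intro z hz
  obtain ⟨y, hy, rfl⟩ := Finset.mem_image.1 hz
  obtain ⟨h1, h2⟩ := h y hy
  refine ⟨fun j => ?_, fun p hp hpn => ?_⟩
  · have h3 := Qv_congr (mqr_dvd n y) j
    have h4 : (n : ℤ) ∣ Qv y j := dvd_trans (Int.natCast_dvd_natCast.2 hn) (h1 j)
    have h5 := dvd_add h3 h4
    rwa [sub_add_cancel] at h5
  · obtain ⟨i, hi⟩ := h2 p hp (hpn.trans hn)
    refine ⟨i, fun hd => hi ?_⟩
    have h3 : (p : ℤ) ∣ mqr n y i - y i := dvd_trans (Int.natCast_dvd_natCast.2 hpn) (mqr_dvd n y i)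
    have h4 := dvd_sub hd h3
    rwa [sub_sub_cancel] at h4

theorem mq (q : ℕ) (hq : 0 < q) (S : Finset Sp) (hS : Inc q S)
    (h : ∀ y ∈ S, (∀ j, (q : ℤ) ∣ Qv y j) ∧ ∀ p : ℕ, p.Prime → p ∣ q → ∃ i, ¬ (p : ℤ) ∣ y i) :
    S.card ≤ 8 ^ q.primeFactors.card * q ^ 7 := by
  have key : ∀ q : ℕ, 0 < q → ∀ S : Finset Sp, Inc q S →
      (∀ y ∈ S, (∀ j, (q : ℤ) ∣ Qv y j) ∧ ∀ p : ℕ, p.Prime → p ∣ q → ∃ i, ¬ (p : ℤ) ∣ y i) →
      S.card ≤ 8 ^ q.primeFactors.card * q ^ 7 := by
    intro q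
    induction q using Nat.recOnPosPrimePosCoprime with
    | prime_pow p n hp hn =>
      intro _ S hS h
      rw [Nat.primeFactors_prime_pow hn.ne' hp, Finset.card_singleton, pow_one]
      exact pk hp hn S hS fun y hy => ⟨(h y hy).1, (h y hy).2 p hp (dvd_pow_self p hn.ne')⟩
    | zero => intro h0; exact absurd h0 (lt_irrefl 0)
    | one =>
      intro _ S hS _
      have h1 : S.card ≤ 1 := Finset.card_le_one.2 fun y hy y' hy' =>
        hS y hy y' hy' fun i => by simp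
      simpa using h1
    | coprime a b ha hb hab iha ihb =>
      intro _ S hS h
      have hSa := iha (by omega) (S.image (mqr a)) (mq_inc a S) (mq_hyp (Dvd.intro b rfl) h)
      have hSb := ihb (by omega) (S.image (mqr b)) (mq_inc b S) (mq_hyp (Dvd.intro_left a rfl) h)
      have h1 : S.card ≤ (S.image (mqr a) ×ˢ S.image (mqr b)).card := by
        apply Finset.card_le_card_of_injOn (fun y => (mqr a y, mqr b y))
        · intro y hy
          exact Finset.mem_coe.2 (Finset.mem_product.2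
            ⟨Finset.mem_image_of_mem _ hy, Finset.mem_image_of_mem _ hy⟩)
        · intro y hy y' hy' he
          have e1 := (Prod.mk.inj he).1
          have e2 := (Prod.mk.inj he).2
          apply hS y hy y' hy'
          intro i
          have h3 : IsCoprime (a : ℤ) (b : ℤ) := Nat.isCoprime_iff_coprime.2 hab
          have h4 := h3.mul_dvd (mqr_eq e1 i) (mqr_eq e2 i)
          push_cast
          exact h4
      rw [Finset.card_product] at h1
      rw [hab.primeFactors_mul, Finset.card_union_of_disjoint hab.disjoint_primeFactors]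
      calc S.card ≤ (S.image (mqr a)).card * (S.image (mqr b)).card := h1
        _ ≤ (8 ^ a.primeFactors.card * a ^ 7) * (8 ^ b.primeFactors.card * b ^ 7) :=
          Nat.mul_le_mul hSa hSb
        _ = 8 ^ (a.primeFactors.card + b.primeFactors.card) * (a * b) ^ 7 := by
          rw [pow_add, mul_pow]; ring
  exact key q hq S hS h

end Pool.Agent.LB0
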