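import Pool.Agent.LB0.Rc
import Pool.Agent.LB0.Mq

/-!
# LB5, section L0, module Cub (size 3): vectors which are null modulo `q`

PROOF.  `ρ P i = P i % q ∈ [0, q)`, `f P i = P i / q`, `P i = q f P i + ρ P i`.  The map `P ↦ (f P, ρ P)` is injective, so
`#S ≤ #(S.image f) * #(S.image ρ)`.  `S.image ρ` satisfies the hypotheses of `mq` (`Inc`: reduced entries; `Qv_congr`; primitive), so it has `≤ 8^ω(q) q^7` elements.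
For `y = f P` (`P ∈ S`): `|y i| ≤ B / q + 1 ≤ 2 B / q =: Y` (`q ≤ B`), and `q² Qv y j = Qv (P - ρ) j = Qv P j - (polar form of P, ρ) + Qv ρ j` (by `ring` for each of the ten `j`), where the
polar form has eight terms `P a ρ b` (`2 P 7 ρ 7` counts twice), each `≤ B q`, and `|Qv ρ j| ≤ 4 q²`; so `q² |Qv y j| ≤ q M + 8 B q + 4 q² ≤ q (M + 12 B)`,
`|Qv y j| ≤ (M + 12 B) / q =: Z`, `1 ≤ Y ≤ Z`.  `rc`: `#(S.image f) ≤ 5^20 (Y² + Z) Z^5`, and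
`(Y² + Z) Z^5 q^7 = (4 B² + q (M + 12 B)) (M + 12 B)^5 ≤ 12^6 (B² + q (M + B)) (M + B)^5`.  (`5^20 · 12^6 ≤ 10^21`.)
-/

set_option autoImplicit false

namespace Pool.Agent.LB0

open Pool.Agent.PP5

private theorem Cub_prod {q B p1 p2 y1 y2 r1 r2 : ℝ} (hq : 0 ≤ q) (hB : q ≤ B)
    (e1 : p1 = q * y1 + r1) (e2 : p2 = q * y2 + r2) (h1 : |p1| ≤ B) (h2 : |p2| ≤ B)
    (g1 : |r1| ≤ q) (g2 : |r2| ≤ q) : |q ^ 2 * (y1 * y2) - p1 * p2| ≤ 3 * (B * q) := by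
  have hB0 : 0 ≤ B := hq.trans hB
  have e : q ^ 2 * (y1 * y2) - p1 * p2 = r1 * r2 - p1 * r2 - r1 * p2 := by
    rw [e1, e2]
    ring
  have h3 : |r1 * r2| ≤ B * q := by
    rw [abs_mul]
    exact mul_le_mul (g1.trans hB) g2 (abs_nonneg _) hB0
  have h4 : |p1 * r2| ≤ B * q := by
    rw [abs_mul]
    exact mul_le_mul h1 g2 (abs_nonneg _) hB0
  have h5 : |r1 * p2| ≤ B * q := by
    rw [abs_mul, mul_comm]
    exact mul_le_mul h2 g1 (abs_nonneg _) hB0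
  rw [e]
  have h6 := abs_sub (r1 * r2 - p1 * r2) (r1 * p2)
  have h7 := abs_sub (r1 * r2) (p1 * r2)
  linarith

private theorem Cub_Qv {q B M : ℝ} (P y : Sp)
    (hd : ∀ a b : Fin 12, |q ^ 2 * ((y a : ℝ) * (y b : ℝ)) - (P a : ℝ) * (P b : ℝ)| ≤ 3 * (B * q))
    (hM : ∀ j, |(Qv P j : ℝ)| ≤ q * M) (j : Fin 10) :
    |q ^ 2 * (Qv y j : ℝ)| ≤ q * (M + 12 * B) := by
  have hd' : ∀ a b : Fin 12, -(3 * (B * q)) ≤ q ^ 2 * ((y a : ℝ) * (y b : ℝ)) - (P a : ℝ) * (P b : ℝ)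
      ∧ q ^ 2 * ((y a : ℝ) * (y b : ℝ)) - (P a : ℝ) * (P b : ℝ) ≤ 3 * (B * q) :=
    fun a b => abs_le.1 (hd a b)
  have hM' : ∀ j, -(q * M) ≤ (Qv P j : ℝ) ∧ (Qv P j : ℝ) ≤ q * M := fun j => abs_le.1 (hM j)
  rw [abs_le]
  fin_cases j
  · have h0 : -(q * M) ≤ ((P 0 * P 4 - P 1 * P 3 + P 6 * P 8 - P 7 ^ 2 : ℤ) : ℝ) ∧
      ((P 0 * P 4 - P 1 * P 3 + P 6 * P 8 - P 7 ^ 2 : ℤ) : ℝ) ≤ q * M := hM' 0
    show -(q * (M + 12 * B)) ≤ q ^ 2 * ((y 0 * y 4 - y 1 * y 3 + y 6 * y 8 - y 7 ^ 2 : ℤ) : ℝ) ∧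
      q ^ 2 * ((y 0 * y 4 - y 1 * y 3 + y 6 * y 8 - y 7 ^ 2 : ℤ) : ℝ) ≤ q * (M + 12 * B)
    push_cast at h0 ⊢
    obtain ⟨a1, a2⟩ := hd' 0 4
    obtain ⟨b1, b2⟩ := hd' 1 3
    obtain ⟨c1, c2⟩ := hd' 6 8
    obtain ⟨d1, d2⟩ := hd' 7 7
    obtain ⟨f1, f2⟩ := h0
    constructor <;> linarith
  · have h0 : -(q * M) ≤ ((P 6 * P 10 - P 7 * P 9 - P 0 * P 2 + P 1 ^ 2 : ℤ) : ℝ) ∧
      ((P 6 * P 10 - P 7 * P 9 - P 0 * P 2 + P 1 ^ 2 : ℤ) : ℝ) ≤ q * M := hM' 1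
    show -(q * (M + 12 * B)) ≤ q ^ 2 * ((y 6 * y 10 - y 7 * y 9 - y 0 * y 2 + y 1 ^ 2 : ℤ) : ℝ) ∧
      q ^ 2 * ((y 6 * y 10 - y 7 * y 9 - y 0 * y 2 + y 1 ^ 2 : ℤ) : ℝ) ≤ q * (M + 12 * B)
    push_cast at h0 ⊢
    obtain ⟨a1, a2⟩ := hd' 6 10
    obtain ⟨b1, b2⟩ := hd' 7 9
    obtain ⟨c1, c2⟩ := hd' 0 2
    obtain ⟨d1, d2⟩ := hd' 1 1
    obtain ⟨f1, f2⟩ := h0
    constructor <;> linarith
  · have h0 : -(q * M) ≤ ((P 1 * P 5 - P 2 * P 4 + P 9 * P 11 - P 10 ^ 2 : ℤ) : ℝ) ∧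
      ((P 1 * P 5 - P 2 * P 4 + P 9 * P 11 - P 10 ^ 2 : ℤ) : ℝ) ≤ q * M := hM' 2
    show -(q * (M + 12 * B)) ≤ q ^ 2 * ((y 1 * y 5 - y 2 * y 4 + y 9 * y 11 - y 10 ^ 2 : ℤ) : ℝ) ∧
      q ^ 2 * ((y 1 * y 5 - y 2 * y 4 + y 9 * y 11 - y 10 ^ 2 : ℤ) : ℝ) ≤ q * (M + 12 * B)
    push_cast at h0 ⊢
    obtain ⟨a1, a2⟩ := hd' 1 5
    obtain ⟨b1, b2⟩ := hd' 2 4
    obtain ⟨c1, c2⟩ := hd' 9 11
    obtain ⟨d1, d2⟩ := hd' 10 10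
    obtain ⟨f1, f2⟩ := h0
    constructor <;> linarith
  · have h0 : -(q * M) ≤ ((P 7 * P 11 - P 8 * P 10 - P 3 * P 5 + P 4 ^ 2 : ℤ) : ℝ) ∧
      ((P 7 * P 11 - P 8 * P 10 - P 3 * P 5 + P 4 ^ 2 : ℤ) : ℝ) ≤ q * M := hM' 3
    show -(q * (M + 12 * B)) ≤ q ^ 2 * ((y 7 * y 11 - y 8 * y 10 - y 3 * y 5 + y 4 ^ 2 : ℤ) : ℝ) ∧
      q ^ 2 * ((y 7 * y 11 - y 8 * y 10 - y 3 * y 5 + y 4 ^ 2 : ℤ) : ℝ) ≤ q * (M + 12 * B)
    push_cast at h0 ⊢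
    obtain ⟨a1, a2⟩ := hd' 7 11
    obtain ⟨b1, b2⟩ := hd' 8 10
    obtain ⟨c1, c2⟩ := hd' 3 5
    obtain ⟨d1, d2⟩ := hd' 4 4
    obtain ⟨f1, f2⟩ := h0
    constructor <;> linarith
  · have h0 : -(q * M) ≤ ((P 6 * P 11 - P 2 * P 3 - P 7 * P 10 + P 1 * P 4 : ℤ) : ℝ) ∧
      ((P 6 * P 11 - P 2 * P 3 - P 7 * P 10 + P 1 * P 4 : ℤ) : ℝ) ≤ q * M := hM' 4
    show -(q * (M + 12 * B)) ≤ q ^ 2 * ((y 6 * y 11 - y 2 * y 3 - y 7 * y 10 + y 1 * y 4 : ℤ) : ℝ) ∧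
      q ^ 2 * ((y 6 * y 11 - y 2 * y 3 - y 7 * y 10 + y 1 * y 4 : ℤ) : ℝ) ≤ q * (M + 12 * B)
    push_cast at h0 ⊢
    obtain ⟨a1, a2⟩ := hd' 6 11
    obtain ⟨b1, b2⟩ := hd' 2 3
    obtain ⟨c1, c2⟩ := hd' 7 10
    obtain ⟨d1, d2⟩ := hd' 1 4
    obtain ⟨f1, f2⟩ := h0
    constructor <;> linarith
  · have h0 : -(q * M) ≤ ((P 0 * P 5 + P 8 * P 9 - P 7 * P 10 - P 1 * P 4 : ℤ) : ℝ) ∧
      ((P 0 * P 5 + P 8 * P 9 - P 7 * P 10 - P 1 * P 4 : ℤ) : ℝ) ≤ q * M := hM' 5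
    show -(q * (M + 12 * B)) ≤ q ^ 2 * ((y 0 * y 5 + y 8 * y 9 - y 7 * y 10 - y 1 * y 4 : ℤ) : ℝ) ∧
      q ^ 2 * ((y 0 * y 5 + y 8 * y 9 - y 7 * y 10 - y 1 * y 4 : ℤ) : ℝ) ≤ q * (M + 12 * B)
    push_cast at h0 ⊢
    obtain ⟨a1, a2⟩ := hd' 0 5
    obtain ⟨b1, b2⟩ := hd' 8 9
    obtain ⟨c1, c2⟩ := hd' 7 10
    obtain ⟨d1, d2⟩ := hd' 1 4
    obtain ⟨f1, f2⟩ := h0
    constructor <;> linarith
  · have h0 : -(q * M) ≤ ((P 6 * P 4 + P 0 * P 10 - P 7 * P 1 - P 3 * P 9 : ℤ) : ℝ) ∧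
      ((P 6 * P 4 + P 0 * P 10 - P 7 * P 1 - P 3 * P 9 : ℤ) : ℝ) ≤ q * M := hM' 6
    show -(q * (M + 12 * B)) ≤ q ^ 2 * ((y 6 * y 4 + y 0 * y 10 - y 7 * y 1 - y 3 * y 9 : ℤ) : ℝ) ∧
      q ^ 2 * ((y 6 * y 4 + y 0 * y 10 - y 7 * y 1 - y 3 * y 9 : ℤ) : ℝ) ≤ q * (M + 12 * B)
    push_cast at h0 ⊢
    obtain ⟨a1, a2⟩ := hd' 6 4
    obtain ⟨b1, b2⟩ := hd' 0 10
    obtain ⟨c1, c2⟩ := hd' 7 1
    obtain ⟨d1, d2⟩ := hd' 3 9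
    obtain ⟨f1, f2⟩ := h0
    constructor <;> linarith
  · have h0 : -(q * M) ≤ ((P 6 * P 5 - P 4 * P 9 + P 1 * P 10 - P 7 * P 2 : ℤ) : ℝ) ∧
      ((P 6 * P 5 - P 4 * P 9 + P 1 * P 10 - P 7 * P 2 : ℤ) : ℝ) ≤ q * M := hM' 7
    show -(q * (M + 12 * B)) ≤ q ^ 2 * ((y 6 * y 5 - y 4 * y 9 + y 1 * y 10 - y 7 * y 2 : ℤ) : ℝ) ∧
      q ^ 2 * ((y 6 * y 5 - y 4 * y 9 + y 1 * y 10 - y 7 * y 2 : ℤ) : ℝ) ≤ q * (M + 12 * B)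
    push_cast at h0 ⊢
    obtain ⟨a1, a2⟩ := hd' 6 5
    obtain ⟨b1, b2⟩ := hd' 4 9
    obtain ⟨c1, c2⟩ := hd' 1 10
    obtain ⟨d1, d2⟩ := hd' 7 2
    obtain ⟨f1, f2⟩ := h0
    constructor <;> linarith
  · have h0 : -(q * M) ≤ ((P 0 * P 11 - P 3 * P 10 + P 7 * P 4 - P 1 * P 8 : ℤ) : ℝ) ∧
      ((P 0 * P 11 - P 3 * P 10 + P 7 * P 4 - P 1 * P 8 : ℤ) : ℝ) ≤ q * M := hM' 8
    show -(q * (M + 12 * B)) ≤ q ^ 2 * ((y 0 * y 11 - y 3 * y 10 + y 7 * y 4 - y 1 * y 8 : ℤ) : ℝ) ∧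
      q ^ 2 * ((y 0 * y 11 - y 3 * y 10 + y 7 * y 4 - y 1 * y 8 : ℤ) : ℝ) ≤ q * (M + 12 * B)
    push_cast at h0 ⊢
    obtain ⟨a1, a2⟩ := hd' 0 11
    obtain ⟨b1, b2⟩ := hd' 3 10
    obtain ⟨c1, c2⟩ := hd' 7 4
    obtain ⟨d1, d2⟩ := hd' 1 8
    obtain ⟨f1, f2⟩ := h0
    constructor <;> linarith
  · have h0 : -(q * M) ≤ ((P 7 * P 5 + P 1 * P 11 - P 4 * P 10 - P 8 * P 2 : ℤ) : ℝ) ∧
      ((P 7 * P 5 + P 1 * P 11 - P 4 * P 10 - P 8 * P 2 : ℤ) : ℝ) ≤ q * M := hM' 9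
    show -(q * (M + 12 * B)) ≤ q ^ 2 * ((y 7 * y 5 + y 1 * y 11 - y 4 * y 10 - y 8 * y 2 : ℤ) : ℝ) ∧
      q ^ 2 * ((y 7 * y 5 + y 1 * y 11 - y 4 * y 10 - y 8 * y 2 : ℤ) : ℝ) ≤ q * (M + 12 * B)
    push_cast at h0 ⊢
    obtain ⟨a1, a2⟩ := hd' 7 5
    obtain ⟨b1, b2⟩ := hd' 1 11
    obtain ⟨c1, c2⟩ := hd' 4 10
    obtain ⟨d1, d2⟩ := hd' 8 2
    obtain ⟨f1, f2⟩ := h0
    constructor <;> linarith

theorem cub {q : ℕ} {B M : ℝ} (hq : 1 ≤ q) (hB : (q : ℝ) ≤ B) (hM : 0 ≤ M) (S : Finset Sp)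
    (h : ∀ P ∈ S, (∀ i, |(P i : ℝ)| ≤ B) ∧ (∀ j, (q : ℤ) ∣ Qv P j) ∧
      (∀ j, |(Qv P j : ℝ)| ≤ q * M) ∧ Pr P) :
    (S.card : ℝ) ≤ 10 ^ 21 * ((B ^ 2 + q * (M + B)) * (M + B) ^ 5) * 8 ^ q.primeFactors.card := by
  classical
  have hqR : (1 : ℝ) ≤ q := by exact_mod_cast hq
  have hq0 : (0 : ℝ) < q := lt_of_lt_of_le one_pos hqR
  have hB0 : (0 : ℝ) < B := lt_of_lt_of_le hq0 hB
  have hqZ : (q : ℤ) ≠ 0 := by
    have : 0 < q := hq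
    exact_mod_cast this.ne'
  set f : Sp → Sp := fun P i => P i / (q : ℤ) with hf
  set r : Sp → Sp := fun P i => P i % (q : ℤ) with hr
  have hfr : ∀ P : Sp, ∀ i, P i = (q : ℤ) * f P i + r P i := fun P i =>
    (Int.mul_ediv_add_emod (P i) (q : ℤ)).symm
  have hcard : S.card ≤ (S.image f).card * (S.image r).card := by
    rw [← Finset.card_product]
    refine Finset.card_le_card_of_injOn (fun P => (f P, r P)) ?_ ?_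
    · intro P hP
      exact Finset.mem_coe.2 (Finset.mem_product.2 ⟨Finset.mem_image_of_mem _ (Finset.mem_coe.1 hP),
        Finset.mem_image_of_mem _ (Finset.mem_coe.1 hP)⟩)
    · intro P _ P' _ he
      obtain ⟨h1, h2⟩ := Prod.mk.inj he
      funext i
      rw [hfr P i, hfr P' i, h1, h2]
  have hrd : ∀ P : Sp, ∀ i, (q : ℤ) ∣ r P i - P i := by
    intro P i
    refine ⟨-(f P i), ?_⟩
    have := hfr P i
    linear_combination (-1) * this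
  have h2 : (S.image r).card ≤ 8 ^ q.primeFactors.card * q ^ 7 := by
    apply mq q hq
    · intro y hy y' hy' hd
      obtain ⟨P, hP, rfl⟩ := Finset.mem_image.1 hy
      obtain ⟨P', hP', rfl⟩ := Finset.mem_image.1 hy'
      funext i
      have h3 : (P' i % (q : ℤ)) % (q : ℤ) = (P i % (q : ℤ)) % (q : ℤ) :=
        (Int.modEq_iff_dvd).2 (hd i)
      rw [Int.emod_emod_of_dvd _ dvd_rfl, Int.emod_emod_of_dvd _ dvd_rfl] at h3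
      exact h3.symm
    · intro y hy
      obtain ⟨P, hP, rfl⟩ := Finset.mem_image.1 hy
      obtain ⟨h3, h4, h5, h6⟩ := h P hP
      refine ⟨fun j => ?_, fun p hp hpq => ?_⟩
      · have h7 := Qv_congr (hrd P) j
        have h8 := dvd_add h7 (h4 j)
        rwa [sub_add_cancel] at h8
      · obtain ⟨i, hi⟩ := h6 p hp
        refine ⟨i, fun hd => hi ?_⟩
        have h7 : (p : ℤ) ∣ (q : ℤ) := by exact_mod_cast hpq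
        rw [hfr P i]
        exact dvd_add (h7.mul_right _) hd
  have hrq : ∀ P : Sp, ∀ i, |((r P i : ℤ) : ℝ)| ≤ q := by
    intro P i
    have h3 : 0 ≤ r P i := Int.emod_nonneg _ hqZ
    have h4 : r P i < q := Int.emod_lt_of_pos _ (by exact_mod_cast (show 0 < q from hq))
    rw [abs_of_nonneg (by exact_mod_cast h3)]
    exact_mod_cast h4.le
  have hfrR : ∀ P : Sp, ∀ i, ((P i : ℤ) : ℝ) = (q : ℝ) * ((f P i : ℤ) : ℝ) + ((r P i : ℤ) : ℝ) := by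
    intro P i
    have h3 := hfr P i
    calc ((P i : ℤ) : ℝ) = (((q : ℤ) * f P i + r P i : ℤ) : ℝ) := by rw [← h3]
      _ = _ := by push_cast; ring
  have h1 : ((S.image f).card : ℝ) ≤ 5 ^ 20 * (((2 * B / q) ^ 2 + (M + 12 * B) / q) *
      ((M + 12 * B) / q) ^ 5) := by
    apply rc
    · rw [le_div_iff₀ hq0]
      linarith
    · exact div_le_div_of_nonneg_right (by linarith) hq0.le
    · intro y hy
      obtain ⟨P, hP, rfl⟩ := Finset.mem_image.1 hy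
      obtain ⟨h3, h4, h5, h6⟩ := h P hP
      refine ⟨fun i => ?_, fun j => ?_⟩
      · rw [le_div_iff₀ hq0]
        have e1 : |((f P i : ℤ) : ℝ)| * q = |((P i : ℤ) : ℝ) - ((r P i : ℤ) : ℝ)| := by
          rw [hfrR P i, add_sub_cancel_right, abs_mul, abs_of_pos hq0]
          ring
        rw [e1]
        have e2 := abs_sub ((P i : ℤ) : ℝ) ((r P i : ℤ) : ℝ)
        have e3 := h3 i
        have e4 := hrq P i
        linarith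
      · have h7 := Cub_Qv (q := (q : ℝ)) (B := B) (M := M) P (f P) (fun a b =>
          Cub_prod hq0.le hB (hfrR P a) (hfrR P b) (h3 a) (h3 b) (hrq P a) (hrq P b)) h5 j
        rw [le_div_iff₀ hq0]
        rw [abs_mul, abs_of_pos (pow_pos hq0 2)] at h7
        have h8 : (q : ℝ) * (|((Qv (f P) j : ℤ) : ℝ)| * q) ≤ q * (M + 12 * B) := by
          calc (q : ℝ) * (|((Qv (f P) j : ℤ) : ℝ)| * q) = (q : ℝ) ^ 2 * |((Qv (f P) j : ℤ) : ℝ)| := by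
                ring
            _ ≤ _ := h7
        exact le_of_mul_le_mul_left h8 hq0
  have h3 : (S.card : ℝ) ≤ ((S.image f).card : ℝ) * ((S.image r).card : ℝ) := by
    exact_mod_cast hcard
  have h4 : ((S.image r).card : ℝ) ≤ 8 ^ q.primeFactors.card * (q : ℝ) ^ 7 := by
    exact_mod_cast h2
  have hMB : 0 < M + 12 * B := by linarith
  have hMB1 : 0 < M + B := by linarith
  have hpos1 : (0 : ℝ) ≤ 5 ^ 20 * (((2 * B / q) ^ 2 + (M + 12 * B) / q) * ((M + 12 * B) / q) ^ 5) := by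
    positivity
  have h5 : (((2 * B / q) ^ 2 + (M + 12 * B) / q) * ((M + 12 * B) / q) ^ 5) * (q : ℝ) ^ 7
      = (4 * B ^ 2 + q * (M + 12 * B)) * (M + 12 * B) ^ 5 := by
    field_simp
    ring
  have h6 : (4 * B ^ 2 + q * (M + 12 * B)) ≤ 12 * (B ^ 2 + q * (M + B)) := by
    nlinarith [mul_nonneg hq0.le hM, mul_nonneg hq0.le hB0.le, sq_nonneg B]
  have h7 : (M + 12 * B) ^ 5 ≤ 12 ^ 5 * (M + B) ^ 5 := by
    rw [← mul_pow]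
    exact pow_le_pow_left₀ hMB.le (by linarith) 5
  have h8 : (4 * B ^ 2 + q * (M + 12 * B)) * (M + 12 * B) ^ 5
      ≤ 12 ^ 6 * ((B ^ 2 + q * (M + B)) * (M + B) ^ 5) := by
    calc (4 * B ^ 2 + q * (M + 12 * B)) * (M + 12 * B) ^ 5
        ≤ (12 * (B ^ 2 + q * (M + B))) * (12 ^ 5 * (M + B) ^ 5) :=
          mul_le_mul h6 h7 (by positivity) (by positivity)
      _ = 12 ^ 6 * ((B ^ 2 + q * (M + B)) * (M + B) ^ 5) := by ring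
  have h9 : (0 : ℝ) ≤ (B ^ 2 + q * (M + B)) * (M + B) ^ 5 := by positivity
  calc (S.card : ℝ) ≤ ((S.image f).card : ℝ) * ((S.image r).card : ℝ) := h3
    _ ≤ (5 ^ 20 * (((2 * B / q) ^ 2 + (M + 12 * B) / q) * ((M + 12 * B) / q) ^ 5)) *
        (8 ^ q.primeFactors.card * (q : ℝ) ^ 7) := mul_le_mul h1 h4 (Nat.cast_nonneg _) hpos1
    _ = 5 ^ 20 * ((((2 * B / q) ^ 2 + (M + 12 * B) / q) * ((M + 12 * B) / q) ^ 5) * (q : ℝ) ^ 7) *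
        8 ^ q.primeFactors.card := by ring
    _ = 5 ^ 20 * ((4 * B ^ 2 + q * (M + 12 * B)) * (M + 12 * B) ^ 5) *
        8 ^ q.primeFactors.card := by rw [h5]
    _ ≤ 5 ^ 20 * (12 ^ 6 * ((B ^ 2 + q * (M + B)) * (M + B) ^ 5)) *
        8 ^ q.primeFactors.card := by gcongr
    _ ≤ 10 ^ 21 * ((B ^ 2 + q * (M + B)) * (M + B) ^ 5) * 8 ^ q.primeFactors.card := by
        apply mul_le_mul_of_nonneg_right _ (by positivity)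
        rw [← mul_assoc]
        apply mul_le_mul_of_nonneg_right _ h9
        norm_num

end Pool.Agent.LB0
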