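import Pool.Agent.PP5.DL
import Pool.Agent.PP5.DI

/-!
# LB5, section L0 (the first minimum of `L_x`): definitions

`Qv P` = the ten quadrics of `P` (as an integer vector), `Qd P ↔ Qv P = 0`.  `gg e` (`e : Fin 8`) = eight signed
permutations of the twelve coordinates which preserve the quadrics up to sign and order and move the extreme coordinate
`ext e` to the place `0`; `hh e` = the corresponding signed permutations of the ten coordinates of `x`.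
-/

set_option autoImplicit false

namespace Pool.Agent.LB0

open Pool.Agent.PP5

/-- the ten quadrics -/
def Qv (P : Sp) : Fin 10 → ℤ := ![
  P 0 * P 4 - P 1 * P 3 + P 6 * P 8 - P 7 ^ 2,
  P 6 * P 10 - P 7 * P 9 - P 0 * P 2 + P 1 ^ 2,
  P 1 * P 5 - P 2 * P 4 + P 9 * P 11 - P 10 ^ 2,
  P 7 * P 11 - P 8 * P 10 - P 3 * P 5 + P 4 ^ 2,
  P 6 * P 11 - P 2 * P 3 - P 7 * P 10 + P 1 * P 4,
  P 0 * P 5 + P 8 * P 9 - P 7 * P 10 - P 1 * P 4,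
  P 6 * P 4 + P 0 * P 10 - P 7 * P 1 - P 3 * P 9,
  P 6 * P 5 - P 4 * P 9 + P 1 * P 10 - P 7 * P 2,
  P 0 * P 11 - P 3 * P 10 + P 7 * P 4 - P 1 * P 8,
  P 7 * P 5 + P 1 * P 11 - P 4 * P 10 - P 8 * P 2]

def JV (P : Sp) : Sp := ![P 2, -P 1, P 0, P 5, -P 4, P 3, P 9, P 10, P 11, -P 6, -P 7, -P 8]
def JW (P : Sp) : Sp := ![P 3, P 4, P 5, -P 0, -P 1, -P 2, P 8, -P 7, P 6, P 11, -P 10, P 9]
def TT (P : Sp) : Sp := ![P 6, P 7, P 8, -P 9, -P 10, -P 11, -P 0, P 1, -P 2, -P 3, P 4, -P 5]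

/-- the eight symmetries -/
def gg (e : Fin 8) (P : Sp) : Sp :=
  (![P, JV P, JW P, JV (JW P), TT P, TT (JV P), TT (JW P), TT (JV (JW P))] : Fin 8 → Sp) e

def XV (x : Fin 10 → ℤ) : Fin 10 → ℤ := ![x 2, x 1, x 0, x 3, -x 5, -x 4, x 7, -x 6, x 9, -x 8]
def XW (x : Fin 10 → ℤ) : Fin 10 → ℤ := ![x 0, x 3, x 2, x 1, x 5, x 4, x 8, x 9, -x 6, -x 7]
def XT (x : Fin 10 → ℤ) : Fin 10 → ℤ := ![-x 1, -x 0, -x 3, -x 2, x 5, -x 4, x 6, x 8, -x 7, -x 9]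

/-- the eight symmetries of the `x` -/
def hh (e : Fin 8) (x : Fin 10 → ℤ) : Fin 10 → ℤ :=
  (![x, XV x, XW x, XV (XW x), XT x, XT (XV x), XT (XW x), XT (XV (XW x))] : Fin 8 → (Fin 10 → ℤ)) e

/-- the extreme coordinates -/
def ext : Fin 8 → Fin 12 := ![0, 2, 3, 5, 6, 9, 8, 11]

/-- pairwise incongruent modulo `q` -/
def Inc (q : ℕ) (S : Finset Sp) : Prop :=
  ∀ y ∈ S, ∀ y' ∈ S, (∀ i, (q : ℤ) ∣ y i - y' i) → y = y'

/-- primitive -/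
def Pr (P : Sp) : Prop := ∀ p : ℕ, p.Prime → ∃ i, ¬ (p : ℤ) ∣ P i

/-- the conditions on `x` which are used -/
structure Xx (K R : ℝ) (x : Fin 10 → ℤ) : Prop where
  ff : PP5L.FF x = 0
  pr : ∀ p : ℕ, p.Prime → ∃ j, ¬ (p : ℤ) ∣ x j
  x0 : R ≤ (x 0 : ℝ)
  xb : ∀ j, |(x j : ℝ)| ≤ K * R

end Pool.Agent.LB0
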