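import Mathlib

/-!
# LB5, section L0, module Gca (size 4): congruences in a box

`Bx a = [-4a, 4a]`.
PROOF of `gc1`.  `d = gcd(u, m)`, `m = d m'`, `u = d u'`.  If the set is empty: trivial.  Otherwise fix an element `t0`; for every `t` in the set `m ∣ u (t - t0)`, `m' ∣ u' (t - t0)`, `m' ∣ t - t0` (`gcd(u', m') = 1`:
`Int.gcd_div_gcd_div_gcd`, or directly `IsCoprime.dvd_of_dvd_mul_left`), so the number of `t` is `≤ 8 a / m' + 1` (e.g. `t ↦ (t - t0) / m'` is injective into an interval of length `8 a / m'`;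
or `Int.Ioc_filter_modEq_card` / `Int.card_Icc_filter_..`), and `(8 a / m' + 1) m ≤ 8 a d + m ≤ 9 a d` (`m ≤ a ≤ a d`).
PROOF of `gc3`.  `gcd(v, m) ≤ ∑_{d ∣ m, d ∣ v} d` (one of the terms), exchange the sums, and `#{v ∈ Bx a : d ∣ v} d ≤ 9 a` by `gc1` with `u = 1`, `b = 0`, `m = d` (`gcd(1, d) = 1`; `d ≤ m ≤ a`).
PROOF of `gc2`.  For fixed `r, v` the number of `t` with `g ∣ r² - v t` times `g` is `≤ 9 a gcd(v, g)` (`gc1` with `u = -v`, `b = r²`, `m = g`); the sum over `v` is `≤ 9 a · 9 a τ(g)` by `gc3`, the number of `r` is `8 a + 1 ≤ 9 a`.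
-/

set_option autoImplicit false

namespace Pool.Agent.LB0

open Finset

/-- `[-4a, 4a]` -/
noncomputable def Bx (a : ℕ) : Finset ℤ := Icc (-(4 * (a : ℤ))) (4 * a)

private theorem Gca_cnt {a m : ℕ} (hm : 1 ≤ m) (t0 : ℤ) :
    ((Bx a).filter (fun t => (m : ℤ) ∣ t - t0)).card * m ≤ 8 * a + m := by
  have hm0 : (0 : ℤ) < (m : ℤ) := by exact_mod_cast hm
  have hmq : (0 : ℚ) < (m : ℚ) := by exact_mod_cast hm
  have h1 : (Bx a).filter (fun t => (m : ℤ) ∣ t - t0)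
      = (Ico (-(4 * (a : ℤ))) (4 * a + 1)).filter (fun t => t ≡ t0 [ZMOD (m : ℤ)]) := by
    ext t
    simp only [Bx, mem_filter, mem_Icc, mem_Ico]
    constructor
    · rintro ⟨⟨h1, h2⟩, h3⟩
      exact ⟨⟨h1, by omega⟩, (Int.modEq_iff_dvd.2 h3).symm⟩
    · rintro ⟨⟨h1, h2⟩, h3⟩
      exact ⟨⟨h1, by omega⟩, Int.modEq_iff_dvd.1 h3.symm⟩
  rw [h1]
  have h2 := Int.Ico_filter_modEq_card (-(4 * (a : ℤ))) (4 * a + 1) hm0 t0
  set c := ((Ico (-(4 * (a : ℤ))) (4 * a + 1)).filter (fun t => t ≡ t0 [ZMOD (m : ℤ)])).card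
    with hc
  rcases le_total (⌈(((4 * a + 1 : ℤ) : ℚ) - (t0 : ℚ)) / ((m : ℤ) : ℚ)⌉
      - ⌈(((-(4 * (a : ℤ)) : ℤ) : ℚ) - (t0 : ℚ)) / ((m : ℤ) : ℚ)⌉) 0 with h3 | h3
  · rw [max_eq_right h3] at h2
    have h4 : c = 0 := by exact_mod_cast h2
    rw [h4]
    omega
  · rw [max_eq_left h3] at h2
    have h5 := Int.ceil_lt_add_one ((((4 * a + 1 : ℤ) : ℚ) - (t0 : ℚ)) / ((m : ℤ) : ℚ))
    have h6 := Int.le_ceil ((((-(4 * (a : ℤ)) : ℤ) : ℚ) - (t0 : ℚ)) / ((m : ℤ) : ℚ))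
    have h7 : (c : ℚ) < (((4 * a + 1 : ℤ) : ℚ) - (t0 : ℚ)) / ((m : ℤ) : ℚ) + 1
        - (((-(4 * (a : ℤ)) : ℤ) : ℚ) - (t0 : ℚ)) / ((m : ℤ) : ℚ) := by
      have h8 : (c : ℚ) = ((⌈(((4 * a + 1 : ℤ) : ℚ) - (t0 : ℚ)) / ((m : ℤ) : ℚ)⌉
          - ⌈(((-(4 * (a : ℤ)) : ℤ) : ℚ) - (t0 : ℚ)) / ((m : ℤ) : ℚ)⌉ : ℤ) : ℚ) := by
        rw [← h2]
        norm_cast
      rw [h8, Int.cast_sub]
      linarith
    have h9 : (((4 * a + 1 : ℤ) : ℚ) - (t0 : ℚ)) / ((m : ℤ) : ℚ) + 1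
        - (((-(4 * (a : ℤ)) : ℤ) : ℚ) - (t0 : ℚ)) / ((m : ℤ) : ℚ)
        = (8 * a + 1 + m : ℚ) / m := by
      field_simp
      push_cast
      ring
    rw [h9, lt_div_iff₀ hmq] at h7
    have h10 : c * m < 8 * a + 1 + m := by exact_mod_cast h7
    omega

theorem gc1 {a m : ℕ} (hm : 1 ≤ m) (hma : m ≤ a) (u b : ℤ) :
    ((Bx a).filter (fun t => (m : ℤ) ∣ u * t + b)).card * m ≤ 9 * a * Int.gcd u m := by
  rcases ((Bx a).filter (fun t => (m : ℤ) ∣ u * t + b)).eq_empty_or_nonempty with he | ⟨t0, ht0⟩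
  · rw [he]
    simp
  have hm0 : (m : ℤ) ≠ 0 := by
    have : m ≠ 0 := by omega
    exact_mod_cast this
  have hd : 0 < Int.gcd u m := Int.gcd_pos_of_ne_zero_right _ hm0
  obtain ⟨u', m', hcop, hu', hm'⟩ := Int.exists_gcd_one hd
  have hd0 : (0 : ℤ) < (Int.gcd u m : ℤ) := by exact_mod_cast hd
  have hm'pos : 0 < m' := by
    have h1 : (0 : ℤ) < m' * (Int.gcd u m : ℤ) := by
      rw [← hm']
      exact_mod_cast hm
    exact pos_of_mul_pos_left h1 hd0.le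
  obtain ⟨k, rfl⟩ := Int.eq_ofNat_of_zero_le hm'pos.le
  have hk : 1 ≤ k := by exact_mod_cast hm'pos
  have hmk : m = k * Int.gcd u m := by exact_mod_cast hm'
  have hsub : (Bx a).filter (fun t => (m : ℤ) ∣ u * t + b)
      ⊆ (Bx a).filter (fun t => (k : ℤ) ∣ t - t0) := by
    intro t ht
    rw [mem_filter] at ht ht0 ⊢
    refine ⟨ht.1, ?_⟩
    have h1 : (m : ℤ) ∣ u * (t - t0) := by
      have h2 := dvd_sub ht.2 ht0.2
      have h3 : u * t + b - (u * t0 + b) = u * (t - t0) := by ring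
      rwa [h3] at h2
    have h4 : (k : ℤ) * (Int.gcd u m : ℤ) ∣ (u' * (t - t0)) * (Int.gcd u m : ℤ) := by
      have h5 : u * (t - t0) = (u' * (t - t0)) * (Int.gcd u m : ℤ) := by
        rw [hu'] at h1 ⊢
        conv_lhs => rw [hu']
        ring
      rw [← h5]
      have h6 : (k : ℤ) * (Int.gcd u m : ℤ) = (m : ℤ) := by exact_mod_cast hmk.symm
      rw [h6]
      exact h1
    have h7 : (k : ℤ) ∣ u' * (t - t0) := Int.dvd_of_mul_dvd_mul_right hd0.ne' h4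
    have h8 : IsCoprime (k : ℤ) u' := (Int.isCoprime_iff_gcd_eq_one.2 hcop).symm
    exact h8.dvd_of_dvd_mul_left h7
  have h1 := card_le_card hsub
  have h2 := Gca_cnt (a := a) hk t0
  set c := ((Bx a).filter (fun t => (m : ℤ) ∣ u * t + b)).card
  set c' := ((Bx a).filter (fun t => (k : ℤ) ∣ t - t0)).card
  set d := Int.gcd u m
  calc c * m = c * k * d := by rw [hmk]; ring
    _ ≤ (c' * k) * d := by gcongr
    _ ≤ (8 * a + k) * d := by gcongr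
    _ = 8 * a * d + m := by rw [add_mul, ← hmk]
    _ ≤ 8 * a * d + a * d := by nlinarith
    _ = 9 * a * d := by ring

theorem gc3 {a m : ℕ} (hm : 1 ≤ m) (hma : m ≤ a) :
    ∑ v ∈ Bx a, Int.gcd v m ≤ 9 * a * m.divisors.card := by
  have h1 : ∀ v ∈ Bx a, Int.gcd v m ≤ ∑ d ∈ m.divisors, (if (d : ℤ) ∣ v then d else 0) := by
    intro v _
    have h2 : Int.gcd v m ∈ m.divisors := by
      rw [Nat.mem_divisors]
      refine ⟨?_, by omega⟩
      have h3 : ((Int.gcd v m : ℕ) : ℤ) ∣ (m : ℤ) := Int.gcd_dvd_right _ _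
      exact_mod_cast h3
    have h4 : (if ((Int.gcd v m : ℕ) : ℤ) ∣ v then Int.gcd v m else 0) = Int.gcd v m :=
      if_pos (Int.gcd_dvd_left _ _)
    calc Int.gcd v m = (if ((Int.gcd v m : ℕ) : ℤ) ∣ v then Int.gcd v m else 0) := h4.symm
      _ ≤ ∑ d ∈ m.divisors, (if (d : ℤ) ∣ v then d else 0) :=
        single_le_sum (f := fun d : ℕ => if (d : ℤ) ∣ v then d else 0)
          (fun _ _ => Nat.zero_le _) h2
  refine (sum_le_sum h1).trans ?_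
  rw [sum_comm]
  have h5 : ∀ d ∈ m.divisors, ∑ v ∈ Bx a, (if (d : ℤ) ∣ v then d else 0) ≤ 9 * a := by
    intro d hd
    rw [Nat.mem_divisors] at hd
    have hd1 : 1 ≤ d := Nat.pos_of_dvd_of_pos hd.1 hm
    have hdm : d ≤ m := Nat.le_of_dvd hm hd.1
    have h6 := gc1 hd1 (hdm.trans hma) 1 0
    have h7 : Int.gcd 1 d = 1 := by simp
    rw [h7, mul_one] at h6
    have h8 : ∑ v ∈ Bx a, (if (d : ℤ) ∣ v then d else 0)
        = ((Bx a).filter (fun t => (d : ℤ) ∣ 1 * t + 0)).card * d := by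
      rw [← sum_filter, sum_const, smul_eq_mul]
      simp only [one_mul, add_zero]
    rw [h8]
    exact h6
  calc ∑ d ∈ m.divisors, ∑ v ∈ Bx a, (if (d : ℤ) ∣ v then d else 0)
      ≤ ∑ d ∈ m.divisors, 9 * a := sum_le_sum h5
    _ = 9 * a * m.divisors.card := by rw [sum_const, smul_eq_mul, mul_comm]

theorem gc2 {a g : ℕ} (hg : 1 ≤ g) (hga : g ≤ a) :
    (((Bx a) ×ˢ (Bx a) ×ˢ (Bx a)).filter
      (fun t : ℤ × ℤ × ℤ => (g : ℤ) ∣ t.1 ^ 2 - t.2.1 * t.2.2)).card * g ≤ 9 ^ 3 * a ^ 3 * g.divisors.card := by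
  rw [card_filter, sum_product]
  simp only [sum_product]
  have h1 : ∀ r ∈ Bx a, (∑ v ∈ Bx a, ∑ t ∈ Bx a, (if (g : ℤ) ∣ r ^ 2 - v * t then 1 else 0)) * g
      ≤ 9 * a * (9 * a * g.divisors.card) := by
    intro r _
    rw [sum_mul]
    have h2 : ∀ v ∈ Bx a, (∑ t ∈ Bx a, (if (g : ℤ) ∣ r ^ 2 - v * t then 1 else 0)) * g
        ≤ 9 * a * Int.gcd v g := by
      intro v _
      have h3 := gc1 hg hga (-v) (r ^ 2)
      rw [Int.neg_gcd] at h3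
      rw [← card_filter]
      have h4 : (Bx a).filter (fun t => (g : ℤ) ∣ r ^ 2 - v * t)
          = (Bx a).filter (fun t => (g : ℤ) ∣ -v * t + r ^ 2) := by
        refine filter_congr fun t _ => ?_
        have h5 : r ^ 2 - v * t = -v * t + r ^ 2 := by ring
        rw [h5]
      rw [h4]
      exact h3
    calc ∑ v ∈ Bx a, (∑ t ∈ Bx a, (if (g : ℤ) ∣ r ^ 2 - v * t then 1 else 0)) * g
        ≤ ∑ v ∈ Bx a, 9 * a * Int.gcd v g := sum_le_sum h2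
      _ = 9 * a * ∑ v ∈ Bx a, Int.gcd v g := by rw [mul_sum]
      _ ≤ 9 * a * (9 * a * g.divisors.card) := Nat.mul_le_mul_left _ (gc3 hg hga)
  rw [sum_mul]
  have hcard : (Bx a).card ≤ 9 * a := by
    unfold Bx
    rw [Int.card_Icc]
    omega
  calc ∑ r ∈ Bx a, (∑ v ∈ Bx a, ∑ t ∈ Bx a, (if (g : ℤ) ∣ r ^ 2 - v * t then 1 else 0)) * g
      ≤ ∑ r ∈ Bx a, 9 * a * (9 * a * g.divisors.card) := sum_le_sum h1
    _ = (Bx a).card * (9 * a * (9 * a * g.divisors.card)) := by rw [sum_const, smul_eq_mul]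
    _ ≤ (9 * a) * (9 * a * (9 * a * g.divisors.card)) := Nat.mul_le_mul_right _ hcard
    _ = 9 ^ 3 * a ^ 3 * g.divisors.card := by ring

end Pool.Agent.LB0
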