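import Pool.Agent.LB0.Sym
import Pool.Agent.LB0.Gca

/-!
# LB5, section L0, module Gcb (size 4): the null vectors with given large coordinate `P 0 = c`

PROOF.  `a = |c| ≥ 1`.  All coordinates lie in `Bx a`.  For `P ∈ S` (fields of `Qd`; `q1 = P 3`, `(r, v, t) = (P 7, P 6, P 8)`, `p2 = P 1`, `s1 = P 9`, `q2 = P 4`, `s2 = P 10`):
(1) `c q2 = p2 q1 + (r² - v t)` (h1), (2) `c s2 = r p2 + q1 s1 - v q2` (h7), (3) `c P 2 = v s2 - r s1 + p2²` (h2), `c P 5 = r s2 + p2 q2 - t s1` (h6), `c P 11 = q1 s2 - r q2 + p2 t` (h9).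
So the map `P ↦ (q1, (r, v, t), p2, s1)` is injective on `S` (`c ≠ 0`).  Its image is contained in the union over `q1 ∈ Bx a`, `g = gcd(q1, c)`, over the `(r, v, t)` with `g ∣ r² - v t` (by (1)),
over the `p2 ∈ Bx a` with `a ∣ q1 p2 + (r² - v t)` (by (1); `≤ 9 g` of them by `gc1` with `m = a`), over the `s1 ∈ Bx a` with
`a ∣ q1 s1 + (r p2 - v q2)`, `q2 = (p2 q1 + r² - v t) / c` (by (2); `≤ 9 g`).  So
`#S ≤ ∑_{q1} 81 g² #{(r, v, t) : g ∣ r² - v t} ≤ ∑_{q1} 81 g 9³ a³ τ(g) ≤ 81 · 9³ a³ τ(a) ∑_{q1} gcd(q1, a) ≤ 9^6 a^4 τ(a)²` (`gc2`, `τ(g) ≤ τ(a)` as `g ∣ a`, `gc3` with `m = a`).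
(In Lean: `Finset.card_le_card_of_injOn` into a nested `Finset.sigma`, or four times `Finset.card_eq_sum_card_fiberwise`.)
-/

set_option autoImplicit false

namespace Pool.Agent.LB0

open Pool.Agent.PP5

/-- the count of `gc1` with the modulus `a` -/
private theorem gcb_one {a : ℕ} (ha : 1 ≤ a) (u b : ℤ) :
    ((Bx a).filter (fun t => (a : ℤ) ∣ u * t + b)).card ≤ 9 * Int.gcd u a := by
  have h := gc1 ha le_rfl u b
  have h2 : ((Bx a).filter (fun t => (a : ℤ) ∣ u * t + b)).card * a ≤ (9 * Int.gcd u a) * a := by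
    calc _ ≤ 9 * a * Int.gcd u a := h
      _ = (9 * Int.gcd u a) * a := by ring
  exact Nat.le_of_mul_le_mul_right h2 ha

theorem gc {c : ℤ} (hc : c ≠ 0) (S : Finset Sp)
    (h : ∀ P ∈ S, P 0 = c ∧ Qd P ∧ ∀ i, |P i| ≤ 4 * |c|) :
    S.card ≤ 9 ^ 6 * c.natAbs ^ 4 * c.natAbs.divisors.card ^ 2 := by
  classical
  obtain ⟨a, ha⟩ : ∃ a : ℕ, a = c.natAbs := ⟨_, rfl⟩
  rw [← ha]
  have ha1 : 1 ≤ a := by rw [ha]; exact Int.natAbs_pos.2 hc
  have hac : (a : ℤ) ∣ c := by rw [ha]; exact Int.natAbs_dvd.2 dvd_rfl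
  have haz : ((a : ℤ)) = |c| := by rw [ha]; exact Int.natCast_natAbs c
  have hbx : ∀ P ∈ S, ∀ i, P i ∈ Bx a := by
    intro P hP i
    have h1 := (h P hP).2.2 i
    rw [← haz] at h1
    unfold Bx
    rw [Finset.mem_Icc]
    exact ⟨by linarith [(abs_le.1 h1).1], (abs_le.1 h1).2⟩
  have e1 : ∀ P ∈ S, c * P 4 = P 3 * P 1 + (P 7 ^ 2 - P 6 * P 8) := by
    intro P hP
    obtain ⟨h0, hq, -⟩ := h P hP
    have := hq.h1
    rw [← h0]; linarith
  have e2 : ∀ P ∈ S, c * P 10 = P 3 * P 9 + (P 7 * P 1 - P 6 * P 4) := by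
    intro P hP
    obtain ⟨h0, hq, -⟩ := h P hP
    have := hq.h7
    rw [← h0]; linarith
  have e3 : ∀ P ∈ S, c * P 2 = P 6 * P 10 - P 7 * P 9 + P 1 ^ 2 := by
    intro P hP
    obtain ⟨h0, hq, -⟩ := h P hP
    have := hq.h2
    rw [← h0]; linarith
  have e4 : ∀ P ∈ S, c * P 5 = P 7 * P 10 + P 1 * P 4 - P 8 * P 9 := by
    intro P hP
    obtain ⟨h0, hq, -⟩ := h P hP
    have := hq.h6
    rw [← h0]; linarith
  have e5 : ∀ P ∈ S, c * P 11 = P 3 * P 10 - P 7 * P 4 + P 1 * P 8 := by
    intro P hP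
    obtain ⟨h0, hq, -⟩ := h P hP
    have := hq.h9
    rw [← h0]; linarith
  have hg1 : ∀ q : ℤ, 1 ≤ Int.gcd q a := by
    intro q
    refine Nat.pos_of_ne_zero fun h0 => ?_
    have := (Int.gcd_eq_zero_iff.1 h0).2
    omega
  have hga : ∀ q : ℤ, Int.gcd q a ∣ a := by
    intro q
    have := Int.gcd_dvd_right q (a : ℤ)
    exact Int.natCast_dvd_natCast.1 this
  -- one value of `P 3`
  have key : ∀ q ∈ Bx a, (S.filter (fun P => P 3 = q)).card
      ≤ 9 ^ 5 * a ^ 3 * a.divisors.card * Int.gcd q a := by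
    intro q _
    obtain ⟨g, hg⟩ : ∃ g : ℕ, g = Int.gcd q a := ⟨_, rfl⟩
    rw [← hg]
    have g1 : 1 ≤ g := hg ▸ hg1 q
    have gda : g ∣ a := hg ▸ hga q
    have gle : g ≤ a := Nat.le_of_dvd ha1 gda
    have gq : (g : ℤ) ∣ q := by rw [hg]; exact Int.gcd_dvd_left q (a : ℤ)
    have gc' : (g : ℤ) ∣ c := (Int.natCast_dvd_natCast.2 gda).trans hac
    have hN := gc2 g1 gle
    have hst : (S.filter (fun P => P 3 = q)).card ≤ (9 * g * (9 * g)) *
        (((Bx a) ×ˢ (Bx a) ×ˢ (Bx a)).filter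
          (fun t : ℤ × ℤ × ℤ => (g : ℤ) ∣ t.1 ^ 2 - t.2.1 * t.2.2)).card := by
      refine Finset.card_le_mul_card_image_of_maps_to (f := fun P : Sp => (P 7, P 6, P 8)) ?_ _ ?_
      · intro P hP
        obtain ⟨hP, h3⟩ := Finset.mem_filter.1 hP
        rw [Finset.mem_filter, Finset.mem_product, Finset.mem_product]
        refine ⟨⟨hbx P hP _, hbx P hP _, hbx P hP _⟩, ?_⟩
        show (g : ℤ) ∣ P 7 ^ 2 - P 6 * P 8
        have h5 : P 7 ^ 2 - P 6 * P 8 = c * P 4 - q * P 1 := by rw [e1 P hP, h3]; ring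
        rw [h5]
        exact (gc'.mul_right _).sub (gq.mul_right _)
      · rintro ⟨r, v, t⟩ -
        have hB : ∀ P ∈ (S.filter (fun P => P 3 = q)).filter (fun P : Sp => (P 7, P 6, P 8) = (r, v, t)),
            P ∈ S ∧ P 3 = q ∧ P 7 = r ∧ P 6 = v ∧ P 8 = t := by
          intro P hP
          obtain ⟨hP, h2⟩ := Finset.mem_filter.1 hP
          obtain ⟨hP, h3⟩ := Finset.mem_filter.1 hP
          simp only [Prod.mk.injEq] at h2
          exact ⟨hP, h3, h2.1, h2.2.1, h2.2.2⟩
        refine (Finset.card_le_mul_card_image_of_maps_to (f := fun P : Sp => P 1)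
          (t := (Bx a).filter (fun p => (a : ℤ) ∣ q * p + (r ^ 2 - v * t))) ?_ (9 * g) ?_).trans ?_
        · intro P hP
          obtain ⟨hP, h3, h7, h6, h8⟩ := hB P hP
          rw [Finset.mem_filter]
          refine ⟨hbx P hP _, ?_⟩
          have h5 := e1 P hP
          rw [h3, h7, h6, h8] at h5
          show (a : ℤ) ∣ q * P 1 + (r ^ 2 - v * t)
          rw [← h5]
          exact hac.mul_right _
        · intro p _
          rcases Finset.eq_empty_or_nonempty (((S.filter (fun P => P 3 = q)).filter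
            (fun P : Sp => (P 7, P 6, P 8) = (r, v, t))).filter (fun P : Sp => P 1 = p)) with hE | ⟨Q, hQ⟩
          · rw [hE]; simp
          · have hC : ∀ P ∈ ((S.filter (fun P => P 3 = q)).filter
                (fun P : Sp => (P 7, P 6, P 8) = (r, v, t))).filter (fun P : Sp => P 1 = p),
                P ∈ S ∧ P 3 = q ∧ P 7 = r ∧ P 6 = v ∧ P 8 = t ∧ P 1 = p := by
              intro P hP
              obtain ⟨hP, h1⟩ := Finset.mem_filter.1 hP
              obtain ⟨a1, a2, a3, a4, a5⟩ := hB P hP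
              exact ⟨a1, a2, a3, a4, a5, h1⟩
            have hP4 : ∀ P ∈ ((S.filter (fun P => P 3 = q)).filter
                (fun P : Sp => (P 7, P 6, P 8) = (r, v, t))).filter (fun P : Sp => P 1 = p),
                P 4 = Q 4 := by
              intro P hP
              obtain ⟨hP, h3, h7, h6, h8, h1⟩ := hC P hP
              obtain ⟨hQ, k3, k7, k6, k8, k1⟩ := hC Q hQ
              apply mul_left_cancel₀ hc
              rw [e1 P hP, e1 Q hQ, h3, h7, h6, h8, h1, k3, k7, k6, k8, k1]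
            refine (Finset.card_le_card_of_injOn (fun P : Sp => P 9)
              (t := (Bx a).filter (fun s => (a : ℤ) ∣ q * s + (r * p - v * Q 4))) ?_ ?_).trans
              ((gcb_one ha1 q _).trans (by rw [hg]))
            · intro P hP
              have h4 := hP4 P hP
              obtain ⟨hP, h3, h7, h6, h8, h1⟩ := hC P hP
              rw [Finset.mem_coe, Finset.mem_filter]
              refine ⟨hbx P hP _, ?_⟩
              have h5 := e2 P hP
              rw [h3, h7, h6, h1, h4] at h5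
              show (a : ℤ) ∣ q * P 9 + (r * p - v * Q 4)
              rw [← h5]
              exact hac.mul_right _
            · intro P hP P' hP' h9
              have h4 : P 4 = P' 4 := (hP4 P hP).trans (hP4 P' hP').symm
              obtain ⟨hP, h3, h7, h6, h8, h1⟩ := hC P hP
              obtain ⟨hP', k3, k7, k6, k8, k1⟩ := hC P' hP'
              have h9' : P 9 = P' 9 := h9
              have h3' : P 3 = P' 3 := h3.trans k3.symm
              have h7' : P 7 = P' 7 := h7.trans k7.symm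
              have h6' : P 6 = P' 6 := h6.trans k6.symm
              have h8' : P 8 = P' 8 := h8.trans k8.symm
              have h1' : P 1 = P' 1 := h1.trans k1.symm
              have h0' : P 0 = P' 0 := (h P hP).1.trans (h P' hP').1.symm
              have h10 : P 10 = P' 10 := by
                apply mul_left_cancel₀ hc
                rw [e2 P hP, e2 P' hP', h3', h9', h7', h1', h6', h4]
              have h2' : P 2 = P' 2 := by
                apply mul_left_cancel₀ hc
                rw [e3 P hP, e3 P' hP', h6', h10, h7', h9', h1']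
              have h5' : P 5 = P' 5 := by
                apply mul_left_cancel₀ hc
                rw [e4 P hP, e4 P' hP', h7', h10, h1', h4, h8', h9']
              have h11 : P 11 = P' 11 := by
                apply mul_left_cancel₀ hc
                rw [e5 P hP, e5 P' hP', h3', h10, h7', h4, h1', h8']
              funext i
              fin_cases i
              · exact h0'
              · exact h1'
              · exact h2'
              · exact h3'
              · exact h4
              · exact h5'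
              · exact h6'
              · exact h7'
              · exact h8'
              · exact h9'
              · exact h10
              · exact h11
        · refine Nat.mul_le_mul_left _ ((gcb_one ha1 q _).trans (by rw [hg]))
    calc (S.filter (fun P => P 3 = q)).card
        ≤ (9 * g * (9 * g)) * (((Bx a) ×ˢ (Bx a) ×ˢ (Bx a)).filter
          (fun t : ℤ × ℤ × ℤ => (g : ℤ) ∣ t.1 ^ 2 - t.2.1 * t.2.2)).card := hst
      _ = 81 * g * ((((Bx a) ×ˢ (Bx a) ×ˢ (Bx a)).filter
          (fun t : ℤ × ℤ × ℤ => (g : ℤ) ∣ t.1 ^ 2 - t.2.1 * t.2.2)).card * g) := by ring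
      _ ≤ 81 * g * (9 ^ 3 * a ^ 3 * g.divisors.card) := Nat.mul_le_mul_left _ hN
      _ ≤ 81 * g * (9 ^ 3 * a ^ 3 * a.divisors.card) := by
          refine Nat.mul_le_mul_left _ (Nat.mul_le_mul_left _ ?_)
          exact Finset.card_le_card (Nat.divisors_subset_of_dvd (by omega) gda)
      _ = 9 ^ 5 * a ^ 3 * a.divisors.card * g := by ring
  have h3 := gc3 ha1 (le_refl a)
  calc S.card = ∑ q ∈ Bx a, (S.filter (fun P => P 3 = q)).card :=
        Finset.card_eq_sum_card_fiberwise (fun P hP => hbx P hP 3)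
    _ ≤ ∑ q ∈ Bx a, 9 ^ 5 * a ^ 3 * a.divisors.card * Int.gcd q a := Finset.sum_le_sum key
    _ = 9 ^ 5 * a ^ 3 * a.divisors.card * ∑ q ∈ Bx a, Int.gcd q a := by rw [Finset.mul_sum]
    _ ≤ 9 ^ 5 * a ^ 3 * a.divisors.card * (9 * a * a.divisors.card) := Nat.mul_le_mul_left _ h3
    _ = 9 ^ 6 * a ^ 4 * a.divisors.card ^ 2 := by ring

end Pool.Agent.LB0
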