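import Pool.Agent.LB0.Sym

/-!
# LB5, section L0, module Qx (size 1): the quadrics of a vector of `L_x`

PROOF.  `PP5.emb P ∈ PP5L.Lx x` (`PP5.emb_mem`), so `∈ PP5L.Kx x` (`PP5L.Lx_le_Kx`).  `PP5L.exists_partner hp` gives `x'` with `bF x x' = 1`; `PP5L.Bd_Kx` : `Bd s s j = bx x' s s * x j` and
`PP5L.bx_self` : `bx x' s s = 2 * PP x' s` (see the proof of `PP5L.Lx_summary` in PP5/LMain.lean), and `Bd s s j = 2 * Qd s j` (`PP5S.Bd_self`, or `simp [PP5L.Bd, PP5L.Qd]; ring`), so `Qd s j = PP x' s * x j`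
(cancel `2`); `Qv_emb`.
-/

set_option autoImplicit false

namespace Pool.Agent.LB0

open Pool.Agent.PP5

theorem qx {x : Fin 10 → ℤ} {P : Sp} (hF : PP5L.FF x = 0)
    (hp : ∀ p : ℕ, p.Prime → ∃ j, ¬ (p : ℤ) ∣ x j) (h : InE P x) :
    ∃ q : ℤ, ∀ j, Qv P j = q * x j := by
  obtain ⟨x', h1⟩ := PP5L.exists_partner hp
  have hs := PP5L.Lx_le_Kx x (emb_mem.2 h)
  refine ⟨PP5L.PP x (PP5L.HH x' (emb P)), fun j => ?_⟩
  rw [← Qv_emb]
  exact PP5L.Qd_Kx hF h1 hs j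

end Pool.Agent.LB0
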