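import Pool.Agent.LB0.Cub
import Pool.Agent.LB0.Om
import Pool.Agent.LB0.Qx

/-!
# LB5, section L0, module Nn (size 4): the `x` with a short vector which is not null

PROOF.  Constants: `C1` from `om δ`; `R0 = max 1 (4^(1/δ))` (so `4 ≤ R^δ`).  `B = R^(1-δ)`, `1 ≤ B ≤ R`, `B² ≥ R` (`δ ≤ 1/4`).  Choose `P_x` for every `x ∈ X` and `q_x` by `qx`: `Qv P_x j = q_x * x j`;
`q_x ≠ 0` (otherwise `Qd P_x`, `Qd_iff_Qv`).  `|q_x| R ≤ |q_x| |x 0| = |Qv P_x 0| ≤ 4 B²`.  Let `N = ⌊4 B² / R⌋` (an integer, `4 B²/R = 4 R^(1-2δ) ≤ B` as `4 ≤ R^δ`).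
`X = ⋃_{q ∈ [-N, N] \ {0}} X_q`, `X_q = {x : q_x = q}` (`Finset.card_eq_sum_card_fiberwise` or `card_biUnion_le`).
For `q ≠ 0` the map `x ↦ P_x` is injective on `X_q` (`q x j = Qv P_x j`), and its image satisfies the hypotheses of `cub` with `q.natAbs`, `B`, `M = K R`
(`|Qv P_x j| = |q| |x j| ≤ |q| K R`).  So `#X_q ≤ 10^21 (B² + |q| (K R + B)) (K R + B)^5 8^ω(|q|)`, where `B ≤ R`, `|q| (K R + B) ≤ (4 B²/R) (K + 1) R = 4 (K + 1) B²`,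
`(K R + B)^5 ≤ ((K + 1) R)^5`, `8^ω(|q|) ≤ C1 |q|^δ ≤ C1 R^δ`: `#X_q ≤ C2 B² R^(5+δ)`, `C2 = 10^21 (4 K + 5) (K + 1)^5 C1`.
The number of `q` is `≤ 2 N + 1 ≤ 8 B²/R + 1 ≤ 9 B²/R`.  Total `≤ 9 C2 B^4 R^(4 + δ) = 9 C2 R^(4 (1-δ) + 4 + δ) = 9 C2 R^(8 - 3δ)`.
-/

set_option autoImplicit false

namespace Pool.Agent.LB0

open Pool.Agent.PP5

private theorem nn_qv {P : Sp} {B : ℝ} (h : ∀ i, |(P i : ℝ)| ≤ B) (j : Fin 10) :
    |(Qv P j : ℝ)| ≤ 4 * B ^ 2 := by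
  have hb : ∀ a b : Fin 12, -(B ^ 2) ≤ (P a : ℝ) * P b ∧ (P a : ℝ) * P b ≤ B ^ 2 := by
    intro a b
    refine abs_le.1 ?_
    rw [abs_mul, pow_two]
    exact mul_le_mul (h a) (h b) (abs_nonneg _) ((abs_nonneg _).trans (h a))
  rw [abs_le]
  fin_cases j
  · show _ ≤ ((P 0 * P 4 - P 1 * P 3 + P 6 * P 8 - P 7 ^ 2 : ℤ) : ℝ) ∧
      ((P 0 * P 4 - P 1 * P 3 + P 6 * P 8 - P 7 ^ 2 : ℤ) : ℝ) ≤ _
    push_cast
    obtain ⟨h1, h2⟩ := hb 0 4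
    obtain ⟨h3, h4⟩ := hb 1 3
    obtain ⟨h5, h6⟩ := hb 6 8
    obtain ⟨h7, h8⟩ := hb 7 7
    constructor <;> nlinarith
  · show _ ≤ ((P 6 * P 10 - P 7 * P 9 - P 0 * P 2 + P 1 ^ 2 : ℤ) : ℝ) ∧
      ((P 6 * P 10 - P 7 * P 9 - P 0 * P 2 + P 1 ^ 2 : ℤ) : ℝ) ≤ _
    push_cast
    obtain ⟨h1, h2⟩ := hb 6 10
    obtain ⟨h3, h4⟩ := hb 7 9
    obtain ⟨h5, h6⟩ := hb 0 2
    obtain ⟨h7, h8⟩ := hb 1 1
    constructor <;> nlinarith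
  · show _ ≤ ((P 1 * P 5 - P 2 * P 4 + P 9 * P 11 - P 10 ^ 2 : ℤ) : ℝ) ∧
      ((P 1 * P 5 - P 2 * P 4 + P 9 * P 11 - P 10 ^ 2 : ℤ) : ℝ) ≤ _
    push_cast
    obtain ⟨h1, h2⟩ := hb 1 5
    obtain ⟨h3, h4⟩ := hb 2 4
    obtain ⟨h5, h6⟩ := hb 9 11
    obtain ⟨h7, h8⟩ := hb 10 10
    constructor <;> nlinarith
  · show _ ≤ ((P 7 * P 11 - P 8 * P 10 - P 3 * P 5 + P 4 ^ 2 : ℤ) : ℝ) ∧
      ((P 7 * P 11 - P 8 * P 10 - P 3 * P 5 + P 4 ^ 2 : ℤ) : ℝ) ≤ _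
    push_cast
    obtain ⟨h1, h2⟩ := hb 7 11
    obtain ⟨h3, h4⟩ := hb 8 10
    obtain ⟨h5, h6⟩ := hb 3 5
    obtain ⟨h7, h8⟩ := hb 4 4
    constructor <;> nlinarith
  · show _ ≤ ((P 6 * P 11 - P 2 * P 3 - P 7 * P 10 + P 1 * P 4 : ℤ) : ℝ) ∧
      ((P 6 * P 11 - P 2 * P 3 - P 7 * P 10 + P 1 * P 4 : ℤ) : ℝ) ≤ _
    push_cast
    obtain ⟨h1, h2⟩ := hb 6 11
    obtain ⟨h3, h4⟩ := hb 2 3
    obtain ⟨h5, h6⟩ := hb 7 10
    obtain ⟨h7, h8⟩ := hb 1 4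
    constructor <;> linarith
  · show _ ≤ ((P 0 * P 5 + P 8 * P 9 - P 7 * P 10 - P 1 * P 4 : ℤ) : ℝ) ∧
      ((P 0 * P 5 + P 8 * P 9 - P 7 * P 10 - P 1 * P 4 : ℤ) : ℝ) ≤ _
    push_cast
    obtain ⟨h1, h2⟩ := hb 0 5
    obtain ⟨h3, h4⟩ := hb 8 9
    obtain ⟨h5, h6⟩ := hb 7 10
    obtain ⟨h7, h8⟩ := hb 1 4
    constructor <;> linarith
  · show _ ≤ ((P 6 * P 4 + P 0 * P 10 - P 7 * P 1 - P 3 * P 9 : ℤ) : ℝ) ∧
      ((P 6 * P 4 + P 0 * P 10 - P 7 * P 1 - P 3 * P 9 : ℤ) : ℝ) ≤ _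
    push_cast
    obtain ⟨h1, h2⟩ := hb 6 4
    obtain ⟨h3, h4⟩ := hb 0 10
    obtain ⟨h5, h6⟩ := hb 7 1
    obtain ⟨h7, h8⟩ := hb 3 9
    constructor <;> linarith
  · show _ ≤ ((P 6 * P 5 - P 4 * P 9 + P 1 * P 10 - P 7 * P 2 : ℤ) : ℝ) ∧
      ((P 6 * P 5 - P 4 * P 9 + P 1 * P 10 - P 7 * P 2 : ℤ) : ℝ) ≤ _
    push_cast
    obtain ⟨h1, h2⟩ := hb 6 5
    obtain ⟨h3, h4⟩ := hb 4 9
    obtain ⟨h5, h6⟩ := hb 1 10
    obtain ⟨h7, h8⟩ := hb 7 2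
    constructor <;> linarith
  · show _ ≤ ((P 0 * P 11 - P 3 * P 10 + P 7 * P 4 - P 1 * P 8 : ℤ) : ℝ) ∧
      ((P 0 * P 11 - P 3 * P 10 + P 7 * P 4 - P 1 * P 8 : ℤ) : ℝ) ≤ _
    push_cast
    obtain ⟨h1, h2⟩ := hb 0 11
    obtain ⟨h3, h4⟩ := hb 3 10
    obtain ⟨h5, h6⟩ := hb 7 4
    obtain ⟨h7, h8⟩ := hb 1 8
    constructor <;> linarith
  · show _ ≤ ((P 7 * P 5 + P 1 * P 11 - P 4 * P 10 - P 8 * P 2 : ℤ) : ℝ) ∧
      ((P 7 * P 5 + P 1 * P 11 - P 4 * P 10 - P 8 * P 2 : ℤ) : ℝ) ≤ _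
    push_cast
    obtain ⟨h1, h2⟩ := hb 7 5
    obtain ⟨h3, h4⟩ := hb 1 11
    obtain ⟨h5, h6⟩ := hb 4 10
    obtain ⟨h7, h8⟩ := hb 8 2
    constructor <;> linarith

theorem nn {δ K : ℝ} (hδ : 0 < δ) (hδ1 : δ ≤ 1 / 4) (hK : 1 ≤ K) : ∃ C R0 : ℝ, 0 ≤ C ∧
    ∀ R : ℝ, R0 ≤ R → ∀ X : Finset (Fin 10 → ℤ), (∀ x ∈ X, Xx K R x ∧
      ∃ P : Sp, InE P x ∧ Pr P ∧ (∀ i, |(P i : ℝ)| ≤ R ^ (1 - δ)) ∧ ¬ Qd P) →
    (X.card : ℝ) ≤ C * R ^ (8 - 3 * δ) := by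
  classical
  obtain ⟨C1, hC1, h1⟩ := om hδ
  refine ⟨8 * (10 ^ 21 * ((4 * K + 5) * (K + 1) ^ 5) * C1), max 1 (4 ^ (1 / δ)), by positivity, ?_⟩
  intro R hR X hX
  have hR1 : 1 ≤ R := (le_max_left _ _).trans hR
  have hR0 : 0 < R := by linarith
  have hR4 : 4 ≤ R ^ δ := by
    have h2 : (4 : ℝ) ^ (1 / δ) ≤ R := (le_max_right _ _).trans hR
    have h3 := Real.rpow_le_rpow (by positivity) h2 hδ.le
    rw [← Real.rpow_mul (by norm_num), one_div, inv_mul_cancel₀ hδ.ne', Real.rpow_one] at h3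
    exact h3
  obtain ⟨B, hB⟩ : ∃ B : ℝ, B = R ^ (1 - δ) := ⟨_, rfl⟩
  have hB0 : 0 < B := hB ▸ Real.rpow_pos_of_pos hR0 _
  have hBR : B ≤ R := by
    have h2 := Real.rpow_le_rpow_of_exponent_le hR1 (show 1 - δ ≤ 1 by linarith)
    rwa [Real.rpow_one, ← hB] at h2
  have hBB : 4 * B ^ 2 ≤ B * R := by
    have h3 : B * R ^ δ = R := by
      rw [hB, ← Real.rpow_add hR0, sub_add_cancel, Real.rpow_one]
    calc 4 * B ^ 2 = B * (B * 4) := by ring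
      _ ≤ B * (B * R ^ δ) := by gcongr
      _ = B * R := by rw [h3]
  have hBN : 4 * B ^ 2 / R ≤ B := by rwa [div_le_iff₀ hR0]
  have hch : ∀ x : Fin 10 → ℤ, ∃ (P : Sp) (q : ℤ), x ∈ X → (Pr P ∧ (∀ i, |(P i : ℝ)| ≤ B) ∧
      ¬ Qd P ∧ ∀ j, Qv P j = q * x j) := by
    intro x
    by_cases hx : x ∈ X
    · obtain ⟨h2, P, h3, h4, h5, h6⟩ := hX x hx
      obtain ⟨q, hq⟩ := qx h2.ff h2.pr h3
      exact ⟨P, q, fun _ => ⟨h4, by rw [hB]; exact h5, h6, hq⟩⟩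
    · exact ⟨0, 0, fun h => absurd h hx⟩
  choose P q hPq using hch
  obtain ⟨N, hN⟩ : ∃ N : ℕ, N = ⌊4 * B ^ 2 / R⌋₊ := ⟨_, rfl⟩
  have hNle : (N : ℝ) ≤ 4 * B ^ 2 / R := by
    rw [hN]; exact Nat.floor_le (by positivity)
  have hq : ∀ x ∈ X, q x ≠ 0 ∧ ((q x).natAbs : ℝ) ≤ 4 * B ^ 2 / R := by
    intro x hx
    obtain ⟨h4, h5, h6, h7⟩ := hPq x hx
    obtain ⟨hx1, -⟩ := hX x hx
    refine ⟨fun h0 => h6 ((Qd_iff_Qv _).2 fun j => by rw [h7, h0, zero_mul]), ?_⟩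
    rw [le_div_iff₀ hR0]
    have h8 := nn_qv h5 0
    rw [h7] at h8
    push_cast at h8
    rw [abs_mul] at h8
    rw [Nat.cast_natAbs, Int.cast_abs]
    exact (mul_le_mul_of_nonneg_left (hx1.x0.trans (le_abs_self _)) (abs_nonneg _)).trans h8
  have hqT : ∀ x ∈ X, q x ∈ (Finset.Icc (-(N : ℤ)) N).erase 0 := by
    intro x hx
    rw [Finset.mem_erase, Finset.mem_Icc]
    refine ⟨(hq x hx).1, abs_le.1 ?_⟩
    have h2 : (q x).natAbs ≤ N := by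
      rw [hN]
      exact Nat.le_floor (hq x hx).2
    rw [Int.abs_eq_natAbs]
    exact_mod_cast h2
  have hT : ((((Finset.Icc (-(N : ℤ)) N).erase 0).card : ℕ) : ℝ) ≤ 8 * B ^ 2 / R := by
    have h2 : ((Finset.Icc (-(N : ℤ)) N).erase 0).card = 2 * N := by
      rw [Finset.card_erase_of_mem (by rw [Finset.mem_Icc]; constructor <;> omega), Int.card_Icc]
      omega
    rw [h2]
    push_cast
    have h3 : 8 * B ^ 2 / R = 2 * (4 * B ^ 2 / R) := by ring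
    rw [h3]
    linarith
  have hfib : ∀ k ∈ (Finset.Icc (-(N : ℤ)) N).erase 0, ((X.filter fun x => q x = k).card : ℝ) ≤
      10 ^ 21 * ((4 * K + 5) * (K + 1) ^ 5) * C1 * (B ^ 2 * R ^ 5 * R ^ δ) := by
    intro k hk
    rw [Finset.mem_erase, Finset.mem_Icc] at hk
    obtain ⟨hk0, hk1, hk2⟩ := hk
    have hkN : ((k.natAbs : ℕ) : ℝ) ≤ 4 * B ^ 2 / R := by
      refine le_trans ?_ hNle
      have h2 : k.natAbs ≤ N := by omega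
      exact_mod_cast h2
    have hkpos : 1 ≤ k.natAbs := by omega
    have hinj : Set.InjOn P (X.filter fun x => q x = k : Finset (Fin 10 → ℤ)) := by
      intro x hx y hy hxy
      rw [Finset.mem_coe, Finset.mem_filter] at hx hy
      funext j
      have h2 := (hPq x hx.1).2.2.2 j
      have h3 := (hPq y hy.1).2.2.2 j
      rw [hx.2] at h2
      rw [hy.2] at h3
      have h4 : k * x j = k * y j := by rw [← h2, ← h3, hxy]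
      exact mul_left_cancel₀ hk0 h4
    rw [← Finset.card_image_of_injOn hinj]
    have hc := cub (q := k.natAbs) (B := B) (M := K * R) hkpos (hkN.trans hBN) (by positivity)
      ((X.filter fun x => q x = k).image P) (by
        intro Q hQ
        obtain ⟨x, hx, rfl⟩ := Finset.mem_image.1 hQ
        rw [Finset.mem_filter] at hx
        obtain ⟨h4, h5, h6, h7⟩ := hPq x hx.1
        obtain ⟨hx1, -⟩ := hX x hx.1
        rw [hx.2] at h7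
        refine ⟨h5, fun j => ?_, fun j => ?_, h4⟩
        · rw [h7]
          exact (Int.natAbs_dvd.2 (dvd_refl k)).mul_right _
        · rw [h7]
          push_cast
          rw [abs_mul, Nat.cast_natAbs, Int.cast_abs]
          exact mul_le_mul_of_nonneg_left (hx1.xb j) (abs_nonneg _))
    refine hc.trans ?_
    have h2 : (8 : ℝ) ^ k.natAbs.primeFactors.card ≤ C1 * R ^ δ :=
      (h1 k.natAbs hkpos).1.trans (mul_le_mul_of_nonneg_left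
        (Real.rpow_le_rpow (Nat.cast_nonneg _) (hkN.trans (hBN.trans hBR)) hδ.le) hC1)
    have h3 : K * R + B ≤ (K + 1) * R := by linarith
    have h30 : 0 ≤ K * R + B := by positivity
    have h4 : (k.natAbs : ℝ) * (K * R + B) ≤ 4 * (K + 1) * B ^ 2 := by
      calc (k.natAbs : ℝ) * (K * R + B) ≤ (4 * B ^ 2 / R) * ((K + 1) * R) :=
            mul_le_mul hkN h3 h30 (by positivity)
        _ = 4 * (K + 1) * B ^ 2 := by field_simp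
    have h5 : B ^ 2 + (k.natAbs : ℝ) * (K * R + B) ≤ (4 * K + 5) * B ^ 2 := by
      calc B ^ 2 + (k.natAbs : ℝ) * (K * R + B) ≤ B ^ 2 + 4 * (K + 1) * B ^ 2 := by linarith
        _ = (4 * K + 5) * B ^ 2 := by ring
    have h6 : (K * R + B) ^ 5 ≤ ((K + 1) * R) ^ 5 := pow_le_pow_left₀ h30 h3 5
    calc 10 ^ 21 * ((B ^ 2 + (k.natAbs : ℝ) * (K * R + B)) * (K * R + B) ^ 5) *
          8 ^ k.natAbs.primeFactors.card
        ≤ 10 ^ 21 * (((4 * K + 5) * B ^ 2) * ((K + 1) * R) ^ 5) * (C1 * R ^ δ) := by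
          refine mul_le_mul ?_ h2 (by positivity) (by positivity)
          refine mul_le_mul_of_nonneg_left ?_ (by positivity)
          exact mul_le_mul h5 h6 (by positivity) (by positivity)
      _ = _ := by ring
  have hcard : (X.card : ℝ) = ∑ k ∈ (Finset.Icc (-(N : ℤ)) N).erase 0,
      ((X.filter fun x => q x = k).card : ℝ) := by
    rw [Finset.card_eq_sum_card_fiberwise (f := q) hqT]
    push_cast
    rfl
  rw [hcard]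
  refine (Finset.sum_le_sum hfib).trans ?_
  rw [Finset.sum_const, nsmul_eq_mul]
  refine (mul_le_mul_of_nonneg_right hT (by positivity)).trans (le_of_eq ?_)
  have h7 : R ^ (8 - 3 * δ) = B ^ 2 * B ^ 2 * R ^ 4 * R ^ δ := by
    rw [hB]
    rw [← Real.rpow_natCast (R ^ (1 - δ)) 2, ← Real.rpow_mul hR0.le, ← Real.rpow_natCast R 4,
      ← Real.rpow_add hR0, ← Real.rpow_add hR0, ← Real.rpow_add hR0]
    congr 1
    push_cast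
    ring
  rw [h7]
  field_simp

end Pool.Agent.LB0
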