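import Pool.Agent.LB0.Dom

/-!
# LB5, section L0, module Pk (size 3): null vectors modulo a prime power

PROOF of `pk0`.  `q = p ^ k`.  The map `y ↦ (y 0, y 1, y 3, y 6, y 7, y 8, y 9)` modulo `q`, from `S` to `Fin 7 → ZMod q`, is injective:
let `y, y'` have the same image.  The identities (with `q ∣ Qv`)
`y 0 y 4 ≡ y 1 y 3 - y 6 y 8 + y 7²`, `y 0 y 10 ≡ y 7 y 1 + y 3 y 9 - y 6 y 4`, `y 0 y 2 ≡ y 6 y 10 - y 7 y 9 + y 1²`,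
`y 0 y 5 ≡ y 7 y 10 + y 1 y 4 - y 8 y 9`, `y 0 y 11 ≡ y 3 y 10 - y 7 y 4 + y 1 y 8` (`j = 0, 6, 1, 5, 8`) give successively
`q ∣ y 0 (y 4 - y' 4)`, so (`IsCoprime (q : ℤ) (y 0)`, from `¬ p ∣ y 0`) `q ∣ y 4 - y' 4`, then `q ∣ y 10 - y' 10`, and then `2, 5, 11`.
`Inc q S` gives `y = y'`.  `#(Fin 7 → ZMod q) = q ^ 7`.
PROOF of `pk`.  `p ∣ q ∣ Qv y j` (`1 ≤ k`), so by `domp` `S` is the union of the eight sets `S_e = {y ∈ S : ¬ p ∣ y (ext e)}`;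
`S_e.image (gg e)` satisfies the hypotheses of `pk0` (`gg_inj`, `gg_zero`, `Qv_abs`, `gg_dvd` for `Inc`).
-/

set_option autoImplicit false

namespace Pool.Agent.LB0

open Pool.Agent.PP5

private theorem Pk_det {n : ℕ} (y y' : Sp) (hu : IsUnit ((y 0 : ℤ) : ZMod n))
    (hz : ∀ j, ((Qv y j : ℤ) : ZMod n) = 0) (hz' : ∀ j, ((Qv y' j : ℤ) : ZMod n) = 0)
    (e0 : ((y 0 : ℤ) : ZMod n) = ((y' 0 : ℤ) : ZMod n))
    (e1 : ((y 1 : ℤ) : ZMod n) = ((y' 1 : ℤ) : ZMod n))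
    (e3 : ((y 3 : ℤ) : ZMod n) = ((y' 3 : ℤ) : ZMod n))
    (e6 : ((y 6 : ℤ) : ZMod n) = ((y' 6 : ℤ) : ZMod n))
    (e7 : ((y 7 : ℤ) : ZMod n) = ((y' 7 : ℤ) : ZMod n))
    (e8 : ((y 8 : ℤ) : ZMod n) = ((y' 8 : ℤ) : ZMod n))
    (e9 : ((y 9 : ℤ) : ZMod n) = ((y' 9 : ℤ) : ZMod n)) :
    ∀ i, ((y i : ℤ) : ZMod n) = ((y' i : ℤ) : ZMod n) := by
  have a0 : ((y 0 * y 4 - y 1 * y 3 + y 6 * y 8 - y 7 ^ 2 : ℤ) : ZMod n) = 0 := hz 0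
  have a1 : ((y 6 * y 10 - y 7 * y 9 - y 0 * y 2 + y 1 ^ 2 : ℤ) : ZMod n) = 0 := hz 1
  have a5 : ((y 0 * y 5 + y 8 * y 9 - y 7 * y 10 - y 1 * y 4 : ℤ) : ZMod n) = 0 := hz 5
  have a6 : ((y 6 * y 4 + y 0 * y 10 - y 7 * y 1 - y 3 * y 9 : ℤ) : ZMod n) = 0 := hz 6
  have a8 : ((y 0 * y 11 - y 3 * y 10 + y 7 * y 4 - y 1 * y 8 : ℤ) : ZMod n) = 0 := hz 8
  have b0 : ((y' 0 * y' 4 - y' 1 * y' 3 + y' 6 * y' 8 - y' 7 ^ 2 : ℤ) : ZMod n) = 0 := hz' 0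
  have b1 : ((y' 6 * y' 10 - y' 7 * y' 9 - y' 0 * y' 2 + y' 1 ^ 2 : ℤ) : ZMod n) = 0 := hz' 1
  have b5 : ((y' 0 * y' 5 + y' 8 * y' 9 - y' 7 * y' 10 - y' 1 * y' 4 : ℤ) : ZMod n) = 0 := hz' 5
  have b6 : ((y' 6 * y' 4 + y' 0 * y' 10 - y' 7 * y' 1 - y' 3 * y' 9 : ℤ) : ZMod n) = 0 := hz' 6
  have b8 : ((y' 0 * y' 11 - y' 3 * y' 10 + y' 7 * y' 4 - y' 1 * y' 8 : ℤ) : ZMod n) = 0 := hz' 8
  push_cast at a0 a1 a5 a6 a8 b0 b1 b5 b6 b8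
  rw [← e0, ← e1, ← e3, ← e6, ← e7, ← e8] at b0
  have e4 : ((y 4 : ℤ) : ZMod n) = ((y' 4 : ℤ) : ZMod n) := by
    apply hu.mul_left_cancel
    linear_combination a0 - b0
  rw [← e0, ← e1, ← e3, ← e4, ← e6, ← e7, ← e9] at b6
  have e10 : ((y 10 : ℤ) : ZMod n) = ((y' 10 : ℤ) : ZMod n) := by
    apply hu.mul_left_cancel
    linear_combination a6 - b6
  rw [← e0, ← e1, ← e6, ← e7, ← e9, ← e10] at b1
  have e2 : ((y 2 : ℤ) : ZMod n) = ((y' 2 : ℤ) : ZMod n) := by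
    apply hu.mul_left_cancel
    linear_combination b1 - a1
  rw [← e0, ← e1, ← e4, ← e7, ← e8, ← e9, ← e10] at b5
  have e5 : ((y 5 : ℤ) : ZMod n) = ((y' 5 : ℤ) : ZMod n) := by
    apply hu.mul_left_cancel
    linear_combination a5 - b5
  rw [← e0, ← e1, ← e3, ← e4, ← e7, ← e8, ← e10] at b8
  have e11 : ((y 11 : ℤ) : ZMod n) = ((y' 11 : ℤ) : ZMod n) := by
    apply hu.mul_left_cancel
    linear_combination a8 - b8
  intro i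
  fin_cases i
  · exact e0
  · exact e1
  · exact e2
  · exact e3
  · exact e4
  · exact e5
  · exact e6
  · exact e7
  · exact e8
  · exact e9
  · exact e10
  · exact e11

theorem pk0 {p k : ℕ} (hp : p.Prime) (S : Finset Sp) (hS : Inc (p ^ k) S)
    (h : ∀ y ∈ S, (∀ j, ((p ^ k : ℕ) : ℤ) ∣ Qv y j) ∧ ¬ (p : ℤ) ∣ y 0) : S.card ≤ (p ^ k) ^ 7 := by
  classical
  haveI : NeZero (p ^ k) := ⟨(pow_pos hp.pos k).ne'⟩
  have hcard : (Finset.univ : Finset (Fin 7 → ZMod (p ^ k))).card = (p ^ k) ^ 7 := by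
    rw [Finset.card_univ, Fintype.card_fun, ZMod.card, Fintype.card_fin]
  rw [← hcard]
  refine Finset.card_le_card_of_injOn
    (fun y => (![((y 0 : ℤ) : ZMod (p ^ k)), ((y 1 : ℤ) : ZMod (p ^ k)), ((y 3 : ℤ) : ZMod (p ^ k)),
      ((y 6 : ℤ) : ZMod (p ^ k)), ((y 7 : ℤ) : ZMod (p ^ k)), ((y 8 : ℤ) : ZMod (p ^ k)),
      ((y 9 : ℤ) : ZMod (p ^ k))] : Fin 7 → ZMod (p ^ k)))
    (fun _ _ => Finset.mem_coe.2 (Finset.mem_univ _)) ?_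
  intro y hy y' hy' he
  have hy1 := h y (Finset.mem_coe.1 hy)
  have hy2 := h y' (Finset.mem_coe.1 hy')
  have hu : IsUnit ((y 0 : ℤ) : ZMod (p ^ k)) := by
    rw [ZMod.coe_int_isUnit_iff_isCoprime, Nat.cast_pow]
    exact IsCoprime.pow_left ((Nat.prime_iff_prime_int.1 hp).coprime_iff_not_dvd.2 hy1.2)
  have key := Pk_det y y' hu (fun j => (ZMod.intCast_zmod_eq_zero_iff_dvd _ _).2 (hy1.1 j))
    (fun j => (ZMod.intCast_zmod_eq_zero_iff_dvd _ _).2 (hy2.1 j)) (congrFun he 0) (congrFun he 1)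
    (congrFun he 2) (congrFun he 3) (congrFun he 4) (congrFun he 5) (congrFun he 6)
  refine hS y (Finset.mem_coe.1 hy) y' (Finset.mem_coe.1 hy') fun i => ?_
  exact (ZMod.intCast_eq_intCast_iff_dvd_sub _ _ _).1 (key i).symm

theorem pk {p k : ℕ} (hp : p.Prime) (hk : 1 ≤ k) (S : Finset Sp) (hS : Inc (p ^ k) S)
    (h : ∀ y ∈ S, (∀ j, ((p ^ k : ℕ) : ℤ) ∣ Qv y j) ∧ ∃ i, ¬ (p : ℤ) ∣ y i) :
    S.card ≤ 8 * (p ^ k) ^ 7 := by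
  classical
  have hpq : (p : ℤ) ∣ ((p ^ k : ℕ) : ℤ) := by
    exact_mod_cast dvd_pow_self p (by omega : k ≠ 0)
  have hsub : S ⊆ (Finset.univ : Finset (Fin 8)).biUnion
      (fun e => S.filter (fun y => ¬ (p : ℤ) ∣ y (ext e))) := by
    intro y hy
    obtain ⟨h1, h2⟩ := h y hy
    obtain ⟨e, he⟩ := domp hp (fun j => hpq.trans (h1 j)) h2
    exact Finset.mem_biUnion.2 ⟨e, Finset.mem_univ _, Finset.mem_filter.2 ⟨hy, he⟩⟩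
  have hone : ∀ e : Fin 8, (S.filter (fun y => ¬ (p : ℤ) ∣ y (ext e))).card ≤ (p ^ k) ^ 7 := by
    intro e
    rw [← Finset.card_image_of_injective _ (gg_inj e)]
    apply pk0 hp
    · intro y hy y' hy' hd
      obtain ⟨z, hz, rfl⟩ := Finset.mem_image.1 hy
      obtain ⟨z', hz', rfl⟩ := Finset.mem_image.1 hy'
      rw [hS z (Finset.mem_filter.1 hz).1 z' (Finset.mem_filter.1 hz').1 (fun i => gg_dvd e hd i)]
    · intro y hy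
      obtain ⟨z, hz, rfl⟩ := Finset.mem_image.1 hy
      obtain ⟨hz1, hz2⟩ := Finset.mem_filter.1 hz
      refine ⟨fun j => ?_, ?_⟩
      · obtain ⟨i, hi⟩ := Qv_abs e j
        rw [← dvd_abs, hi z, dvd_abs]
        exact (h z hz1).1 i
      · rw [gg_zero]
        exact hz2
  calc S.card ≤ ((Finset.univ : Finset (Fin 8)).biUnion
      (fun e => S.filter (fun y => ¬ (p : ℤ) ∣ y (ext e)))).card := Finset.card_le_card hsub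
    _ ≤ ∑ e : Fin 8, (S.filter (fun y => ¬ (p : ℤ) ∣ y (ext e))).card := Finset.card_biUnion_le
    _ ≤ ∑ _e : Fin 8, (p ^ k) ^ 7 := Finset.sum_le_sum fun e _ => hone e
    _ = 8 * (p ^ k) ^ 7 := by
        rw [Finset.sum_const, Finset.card_univ, Fintype.card_fin, smul_eq_mul]

end Pool.Agent.LB0
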