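import Pool.Agent.LB0.Rc0

/-!
# LB5, section L0, module Rc (size 3): integer points near the null cone

PROOF.  By `dom` (`Z ≥ 0`) `S = S' ∪ ⋃_e S_e`, `S' = {y : |y i| ≤ 2 √Z for all i}`, `S_e = {y : y (ext e) ≠ 0, |y i| ≤ 4 |y (ext e)|}`.
`#S' ≤ (4 √Z + 1)^12 ≤ (5 √Z)^12 = 5^12 Z^6` (contained in a `Fintype.piFinset` of `Icc (-⌊2 √Z⌋) ⌊2 √Z⌋`, `Z ≥ 1`).
`#S_e = #(S_e.image (gg e))` (`gg_inj`) and the image satisfies the hypotheses of `rc0` (`gg_zero`, `gg_abs`, `Qv_abs`).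
Total `≤ 5^12 Z^6 + 8 · 3 · 9^6 · 5^5 · Y² Z^5 ≤ 5^20 (Y² + Z) Z^5` (`24 · 9^6 · 5^5 ≤ 5^20`: `24 · 531441 · 3125 < 4 · 10^10`, `5^20 > 9 · 10^13`).
-/

set_option autoImplicit false

namespace Pool.Agent.LB0

open Pool.Agent.PP5

theorem rc {Y Z : ℝ} (hY : 1 ≤ Y) (hYZ : Y ≤ Z) (S : Finset Sp)
    (h : ∀ y ∈ S, (∀ i, |(y i : ℝ)| ≤ Y) ∧ ∀ j, |(Qv y j : ℝ)| ≤ Z) :
    (S.card : ℝ) ≤ 5 ^ 20 * ((Y ^ 2 + Z) * Z ^ 5) := by
  classical
  have hZ1 : 1 ≤ Z := hY.trans hYZ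
  have hZ0 : 0 ≤ Z := by linarith
  have hs1 : 1 ≤ Real.sqrt Z := by
    rw [Real.one_le_sqrt]
    exact hZ1
  set S' : Finset Sp := S.filter (fun y => ∀ i, |(y i : ℝ)| ≤ 2 * Real.sqrt Z) with hS'
  set T : Fin 8 → Finset Sp := fun e =>
    S.filter (fun y => y (ext e) ≠ 0 ∧ ∀ i, |(y i : ℝ)| ≤ 4 * |(y (ext e) : ℝ)|) with hT
  have hsub : S ⊆ S' ∪ Finset.univ.biUnion T := by
    intro y hy
    rw [Finset.mem_union]
    rcases dom hZ0 (h y hy).2 with h1 | ⟨e, h1, h2⟩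
    · left
      rw [hS', Finset.mem_filter]
      exact ⟨hy, h1⟩
    · right
      rw [Finset.mem_biUnion]
      refine ⟨e, Finset.mem_univ _, ?_⟩
      rw [hT]
      exact Finset.mem_filter.2 ⟨hy, h1, h2⟩
  -- the small vectors
  have hcS' : (S'.card : ℝ) ≤ 5 ^ 12 * Z ^ 6 := by
    set m : ℕ := ⌊2 * Real.sqrt Z⌋₊ with hm
    have h1 : S' ⊆ Fintype.piFinset (fun _ : Fin 12 => Finset.Icc (-(m : ℤ)) m) := by
      intro y hy
      rw [Fintype.mem_piFinset]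
      intro i
      rw [hS', Finset.mem_filter] at hy
      have h2 := hy.2 i
      have h3 : ((|y i| : ℤ) : ℝ) ≤ 2 * Real.sqrt Z := by
        rw [Int.cast_abs]
        exact h2
      have h4 : ((y i).natAbs : ℝ) ≤ 2 * Real.sqrt Z := by
        have h5 : (((y i).natAbs : ℤ) : ℝ) = ((|y i| : ℤ) : ℝ) := by rw [Int.natCast_natAbs]
        have h6 : (((y i).natAbs : ℤ) : ℝ) = ((y i).natAbs : ℝ) := Int.cast_natCast _
        rw [← h6, h5]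
        exact h3
      have h7 : (y i).natAbs ≤ m := Nat.le_floor h4
      rw [Finset.mem_Icc]
      omega
    have h2 := Finset.card_le_card h1
    rw [Fintype.card_piFinset, Finset.prod_const, Finset.card_univ, Fintype.card_fin,
      Int.card_Icc] at h2
    have h3 : ((m : ℤ) + 1 - -(m : ℤ)).toNat = 2 * m + 1 := by omega
    rw [h3] at h2
    have h4 : (S'.card : ℝ) ≤ (2 * (m : ℝ) + 1) ^ 12 := by exact_mod_cast h2
    have h5 : (m : ℝ) ≤ 2 * Real.sqrt Z := Nat.floor_le (by positivity)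
    have h6 : 2 * (m : ℝ) + 1 ≤ 5 * Real.sqrt Z := by linarith
    have h7 : (2 * (m : ℝ) + 1) ^ 12 ≤ (5 * Real.sqrt Z) ^ 12 :=
      pow_le_pow_left₀ (by positivity) h6 12
    have h8 : (5 * Real.sqrt Z) ^ 12 = 5 ^ 12 * Z ^ 6 := by
      rw [mul_pow, show Real.sqrt Z ^ 12 = (Real.sqrt Z ^ 2) ^ 6 by ring, Real.sq_sqrt hZ0]
    linarith
  -- the charts
  have hcT : ∀ e, ((T e).card : ℝ) ≤ 3 * 9 ^ 6 * 5 ^ 5 * (Y ^ 2 * Z ^ 5) := by
    intro e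
    have h1 : ((T e).image (gg e)).card = (T e).card :=
      Finset.card_image_of_injective _ (gg_inj e)
    rw [← h1]
    apply rc0 hY hYZ
    intro y' hy'
    rw [Finset.mem_image] at hy'
    obtain ⟨y, hy, rfl⟩ := hy'
    have hy2 := Finset.mem_filter.1 hy
    obtain ⟨hyS, hy0, hyb⟩ := hy2
    obtain ⟨hYy, hQy⟩ := h y hyS
    refine ⟨?_, ?_, ?_, ?_⟩
    · rw [gg_zero]
      exact hy0
    · intro i
      obtain ⟨k, hk⟩ := gg_abs e i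
      have h2 : |((gg e y i : ℤ) : ℝ)| = |((y k : ℤ) : ℝ)| := by
        rw [← Int.cast_abs, ← Int.cast_abs, hk y]
      rw [h2, gg_zero]
      exact hyb k
    · rw [gg_zero]
      exact hYy _
    · intro j
      obtain ⟨k, hk⟩ := Qv_abs e j
      have h2 : |((Qv (gg e y) j : ℤ) : ℝ)| = |((Qv y k : ℤ) : ℝ)| := by
        rw [← Int.cast_abs, ← Int.cast_abs, hk y]
      rw [h2]
      exact hQy k
  have h1 : (S.card : ℝ) ≤ (S'.card : ℝ) + ∑ e : Fin 8, ((T e).card : ℝ) := by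
    have h2 := (Finset.card_le_card hsub).trans (Finset.card_union_le _ _)
    have h3 : (Finset.univ.biUnion T).card ≤ ∑ e : Fin 8, (T e).card := Finset.card_biUnion_le
    exact_mod_cast h2.trans (Nat.add_le_add_left h3 _)
  have h2 : ∑ e : Fin 8, ((T e).card : ℝ) ≤ 8 * (3 * 9 ^ 6 * 5 ^ 5 * (Y ^ 2 * Z ^ 5)) := by
    refine (Finset.sum_le_sum fun e _ => hcT e).trans_eq ?_
    rw [Finset.sum_const, Finset.card_univ, Fintype.card_fin, nsmul_eq_mul]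
    norm_num
  have h3 : 0 ≤ Y ^ 2 * Z ^ 5 := by positivity
  have h4 : 0 ≤ Z ^ 6 := by positivity
  have h5 : (5 : ℝ) ^ 20 * ((Y ^ 2 + Z) * Z ^ 5) = 5 ^ 20 * (Y ^ 2 * Z ^ 5) + 5 ^ 20 * Z ^ 6 := by
    ring
  rw [h5]
  have h6 : (8 : ℝ) * (3 * 9 ^ 6 * 5 ^ 5 * (Y ^ 2 * Z ^ 5)) ≤ 5 ^ 20 * (Y ^ 2 * Z ^ 5) := by
    have : (8 : ℝ) * (3 * 9 ^ 6 * 5 ^ 5) ≤ 5 ^ 20 := by norm_num
    nlinarith
  have h7 : (5 : ℝ) ^ 12 * Z ^ 6 ≤ 5 ^ 20 * Z ^ 6 := by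
    have : (5 : ℝ) ^ 12 ≤ 5 ^ 20 := by norm_num
    exact mul_le_mul_of_nonneg_right this h4
  linarith

end Pool.Agent.LB0
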