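import Pool.Agent.LB0.Dom

/-!
# LB5, section L0, module Rc0 (size 4): integer points near the null cone, first chart

PROOF.  Put for an integer vector `y` (truncated quotients, `/` on `ℤ`)
`A4 = y 1 y 3 - y 6 y 8 + y 7²`, `A10 = y 7 y 1 + y 3 y 9 - y 6 y 4`, `A2 = y 6 y 10 - y 7 y 9 + y 1²`,
`A5 = y 7 y 10 + y 1 y 4 - y 8 y 9`, `A11 = y 3 y 10 - y 7 y 4 + y 1 y 8`; then
`y 0 y 4 = A4 + Qv y 0`, `y 0 y 10 = A10 + Qv y 6`, `y 0 y 2 = A2 - Qv y 1`, `y 0 y 5 = A5 + Qv y 5`, `y 0 y 11 = A11 + Qv y 8`.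
`k_d = y d - A_d / y 0` for `d = 4, 10, 2, 5, 11`.  As `|y 0| ≥ 1` and `|A_d / y 0 - (A_d : ℝ) / (y 0 : ℝ)| ≤ 1`,
`|k_d| ≤ Z / |y 0| + 1 ≤ 2 Z / |y 0|` (`|y 0| ≤ Y ≤ Z`).  The map `φ : y ↦` (the vector `y` with the coordinates `4, 10, 2, 5, 11`
replaced by `k_d`) is injective on `S`: `y 0, y 1, y 3, y 6, y 7, y 8, y 9` are coordinates of `φ y`, so `A4`, hence `y 4`, is determined,
then `A10`, `y 10`, then `A2, A5, A11` and `y 2, y 5, y 11`.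
So `#S ≤ ∑_{a ≠ 0, |a| ≤ Y} #{φ y : y 0 = a}`, and `#{φ y : y 0 = a} ≤ (8 |a| + 1)^6 (4 Z / |a| + 1)^5 ≤ (9 |a|)^6 (5 Z / |a|)^5
= 9^6 5^5 |a| Z^5` (the set is contained in a `Fintype.piFinset` of intervals; `2 ⌊t⌋ + 1 ≤ 2 t + 1`).
The number of `a` is `≤ 2 Y + 1 ≤ 3 Y` and `|a| ≤ Y`, so `#S ≤ 3 · 9^6 · 5^5 · Y² Z^5`.
-/

set_option autoImplicit false

namespace Pool.Agent.LB0

open Pool.Agent.PP5

private def rc0phi (y : Sp) : Fin 12 → ℤ :=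
  ![y 0, y 1, y 2 - (y 6 * y 10 - y 7 * y 9 + y 1 ^ 2) / y 0, y 3,
    y 4 - (y 1 * y 3 - y 6 * y 8 + y 7 ^ 2) / y 0,
    y 5 - (y 7 * y 10 + y 1 * y 4 - y 8 * y 9) / y 0,
    y 6, y 7, y 8, y 9,
    y 10 - (y 7 * y 1 + y 3 * y 9 - y 6 * y 4) / y 0,
    y 11 - (y 3 * y 10 - y 7 * y 4 + y 1 * y 8) / y 0]

private theorem rc0phi_inj {y z : Sp} (h : rc0phi y = rc0phi z) : y = z := by
  have h0 : y 0 = z 0 := congrFun h 0
  have h1 : y 1 = z 1 := congrFun h 1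
  have h3 : y 3 = z 3 := congrFun h 3
  have h6 : y 6 = z 6 := congrFun h 6
  have h7 : y 7 = z 7 := congrFun h 7
  have h8 : y 8 = z 8 := congrFun h 8
  have h9 : y 9 = z 9 := congrFun h 9
  have k4 : y 4 - (y 1 * y 3 - y 6 * y 8 + y 7 ^ 2) / y 0 =
      z 4 - (z 1 * z 3 - z 6 * z 8 + z 7 ^ 2) / z 0 := congrFun h 4
  have h4 : y 4 = z 4 := by
    rw [h0, h1, h3, h6, h7, h8] at k4
    linarith
  have k10 : y 10 - (y 7 * y 1 + y 3 * y 9 - y 6 * y 4) / y 0 =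
      z 10 - (z 7 * z 1 + z 3 * z 9 - z 6 * z 4) / z 0 := congrFun h 10
  have h10 : y 10 = z 10 := by
    rw [h0, h1, h3, h6, h7, h9, h4] at k10
    linarith
  have k2 : y 2 - (y 6 * y 10 - y 7 * y 9 + y 1 ^ 2) / y 0 =
      z 2 - (z 6 * z 10 - z 7 * z 9 + z 1 ^ 2) / z 0 := congrFun h 2
  have h2 : y 2 = z 2 := by
    rw [h0, h1, h6, h7, h9, h10] at k2
    linarith
  have k5 : y 5 - (y 7 * y 10 + y 1 * y 4 - y 8 * y 9) / y 0 =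
      z 5 - (z 7 * z 10 + z 1 * z 4 - z 8 * z 9) / z 0 := congrFun h 5
  have h5 : y 5 = z 5 := by
    rw [h0, h1, h7, h8, h9, h4, h10] at k5
    linarith
  have k11 : y 11 - (y 3 * y 10 - y 7 * y 4 + y 1 * y 8) / y 0 =
      z 11 - (z 3 * z 10 - z 7 * z 4 + z 1 * z 8) / z 0 := congrFun h 11
  have h11 : y 11 = z 11 := by
    rw [h0, h1, h3, h7, h8, h4, h10] at k11
    linarith
  funext i
  fin_cases i
  exacts [h0, h1, h2, h3, h4, h5, h6, h7, h8, h9, h10, h11]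

private theorem rc0_icc {n : ℤ} (hn : 0 ≤ n) :
    (((Finset.Icc (-n) n).card : ℕ) : ℝ) = 2 * (n : ℝ) + 1 := by
  have h1 : (((Finset.Icc (-n) n).card : ℕ) : ℤ) = 2 * n + 1 := by
    rw [Int.card_Icc, Int.toNat_of_nonneg (by linarith)]
    ring
  exact_mod_cast h1

/-- the radius -/
private noncomputable def rc0J (Z : ℝ) (a : ℤ) : ℤ := ⌊2 * Z / |(a : ℝ)|⌋

private theorem rc0_k {Z : ℝ} {a A d q : ℤ} (ha : a ≠ 0) (h : a * d = A + q)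
    (hq : |(q : ℝ)| ≤ Z) (haZ : |(a : ℝ)| ≤ Z) :
    d - A / a ∈ Finset.Icc (-(rc0J Z a)) (rc0J Z a) := by
  have ha' : 0 < |(a : ℝ)| := by
    rw [abs_pos]; exact_mod_cast ha
  have e1 : a * (d - A / a) = q + A % a := by
    have := Int.mul_ediv_add_emod A a
    linear_combination h - this
  have m0 : 0 ≤ A % a := Int.emod_nonneg A ha
  have m1 : A % a < |a| := Int.emod_lt_abs A ha
  have e2 : |(a : ℝ)| * |((d - A / a : ℤ) : ℝ)| ≤ 2 * Z := by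
    rw [← abs_mul]
    have e3 : (a : ℝ) * ((d - A / a : ℤ) : ℝ) = (q : ℝ) + ((A % a : ℤ) : ℝ) := by
      exact_mod_cast e1
    rw [e3]
    have m0' : (0 : ℝ) ≤ ((A % a : ℤ) : ℝ) := by exact_mod_cast m0
    have m1' : ((A % a : ℤ) : ℝ) ≤ |(a : ℝ)| := by
      have : ((A % a : ℤ) : ℝ) ≤ ((|a| : ℤ) : ℝ) := by exact_mod_cast m1.le
      simpa using this
    calc |(q : ℝ) + ((A % a : ℤ) : ℝ)| ≤ |(q : ℝ)| + |((A % a : ℤ) : ℝ)| := abs_add_le _ _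
      _ ≤ Z + Z := by
          rw [abs_of_nonneg m0']
          linarith
      _ = 2 * Z := by ring
  have e4 : |((d - A / a : ℤ) : ℝ)| ≤ 2 * Z / |(a : ℝ)| := by
    rw [le_div_iff₀ ha']
    linarith
  have e5 := abs_le.1 e4
  rw [Finset.mem_Icc]
  constructor
  · have : -(d - A / a) ≤ rc0J Z a := by
      apply Int.le_floor.2
      push_cast at e5 ⊢
      linarith [e5.1]
    linarith
  · apply Int.le_floor.2
    exact e5.2

private noncomputable def rc0B (Z : ℝ) (a : ℤ) : Fin 12 → Finset ℤ :=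
  ![{a}, Finset.Icc (-(4 * |a|)) (4 * |a|), Finset.Icc (-(rc0J Z a)) (rc0J Z a),
    Finset.Icc (-(4 * |a|)) (4 * |a|), Finset.Icc (-(rc0J Z a)) (rc0J Z a),
    Finset.Icc (-(rc0J Z a)) (rc0J Z a),
    Finset.Icc (-(4 * |a|)) (4 * |a|), Finset.Icc (-(4 * |a|)) (4 * |a|),
    Finset.Icc (-(4 * |a|)) (4 * |a|), Finset.Icc (-(4 * |a|)) (4 * |a|),
    Finset.Icc (-(rc0J Z a)) (rc0J Z a), Finset.Icc (-(rc0J Z a)) (rc0J Z a)]

private theorem rc0_card {Z : ℝ} {a : ℤ} (ha : a ≠ 0) (haZ : |(a : ℝ)| ≤ Z) :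
    ((Fintype.piFinset (rc0B Z a)).card : ℝ) ≤ 9 ^ 6 * 5 ^ 5 * (|(a : ℝ)| * Z ^ 5) := by
  have ha1 : (1 : ℝ) ≤ |(a : ℝ)| := by
    have : (1 : ℤ) ≤ |a| := Int.one_le_abs ha
    have h2 : ((1 : ℤ) : ℝ) ≤ ((|a| : ℤ) : ℝ) := by exact_mod_cast this
    simpa using h2
  have ha' : 0 < |(a : ℝ)| := by linarith
  have hZ : 0 < Z := by linarith
  have hJ0 : 0 ≤ rc0J Z a := Int.floor_nonneg.2 (by positivity)
  have c1 : ((Finset.Icc (-(4 * |a|)) (4 * |a|)).card : ℝ) ≤ 9 * |(a : ℝ)| := by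
    rw [rc0_icc (by positivity)]
    push_cast
    linarith
  have c2 : ((Finset.Icc (-(rc0J Z a)) (rc0J Z a)).card : ℝ) ≤ 5 * (Z / |(a : ℝ)|) := by
    rw [rc0_icc hJ0]
    have h3 : (rc0J Z a : ℝ) ≤ 2 * Z / |(a : ℝ)| := Int.floor_le _
    have h4 : 1 ≤ Z / |(a : ℝ)| := by rw [le_div_iff₀ ha']; linarith
    have h5 : 2 * Z / |(a : ℝ)| = 2 * (Z / |(a : ℝ)|) := by ring
    rw [h5] at h3
    linarith
  have e : ((Fintype.piFinset (rc0B Z a)).card : ℝ) =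
      ((Finset.Icc (-(4 * |a|)) (4 * |a|)).card : ℝ) ^ 6 *
        ((Finset.Icc (-(rc0J Z a)) (rc0J Z a)).card : ℝ) ^ 5 := by
    rw [Fintype.card_piFinset]
    rw [Nat.cast_prod]
    simp only [Fin.prod_univ_succ, rc0B, Finset.univ_eq_empty, Finset.prod_empty]
    simp only [Matrix.cons_val_zero, Matrix.cons_val_succ, Finset.card_singleton, Nat.cast_one]
    ring
  rw [e]
  have p1 : ((Finset.Icc (-(4 * |a|)) (4 * |a|)).card : ℝ) ^ 6 ≤ (9 * |(a : ℝ)|) ^ 6 :=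
    pow_le_pow_left₀ (Nat.cast_nonneg _) c1 6
  have p2 : ((Finset.Icc (-(rc0J Z a)) (rc0J Z a)).card : ℝ) ^ 5 ≤ (5 * (Z / |(a : ℝ)|)) ^ 5 :=
    pow_le_pow_left₀ (Nat.cast_nonneg _) c2 5
  calc _ ≤ (9 * |(a : ℝ)|) ^ 6 * (5 * (Z / |(a : ℝ)|)) ^ 5 :=
        mul_le_mul p1 p2 (by positivity) (by positivity)
    _ = 9 ^ 6 * 5 ^ 5 * (|(a : ℝ)| * Z ^ 5) := by
        field_simp

theorem rc0 {Y Z : ℝ} (hY : 1 ≤ Y) (hYZ : Y ≤ Z) (S : Finset Sp)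
    (h : ∀ y ∈ S, y 0 ≠ 0 ∧ (∀ i, |(y i : ℝ)| ≤ 4 * |(y 0 : ℝ)|) ∧ |(y 0 : ℝ)| ≤ Y ∧
      ∀ j, |(Qv y j : ℝ)| ≤ Z) : (S.card : ℝ) ≤ 3 * 9 ^ 6 * 5 ^ 5 * (Y ^ 2 * Z ^ 5) := by
  classical
  set I : Finset ℤ := (Finset.Icc (-⌊Y⌋) ⌊Y⌋).erase 0 with hI
  have hmem : ∀ y ∈ S, rc0phi y ∈ I.biUnion (fun a => Fintype.piFinset (rc0B Z a)) := by
    intro y hy
    obtain ⟨h0, h4, hY0, hQ⟩ := h y hy
    have hZ0 : |(y 0 : ℝ)| ≤ Z := hY0.trans hYZ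
    rw [Finset.mem_biUnion]
    refine ⟨y 0, ?_, ?_⟩
    · rw [hI, Finset.mem_erase, Finset.mem_Icc]
      refine ⟨h0, ?_, ?_⟩
      · have : -(y 0) ≤ ⌊Y⌋ := by
          apply Int.le_floor.2
          push_cast
          linarith [(abs_le.1 hY0).1]
        linarith
      · exact Int.le_floor.2 (abs_le.1 hY0).2
    · have hI4 : ∀ i, y i ∈ Finset.Icc (-(4 * |y 0|)) (4 * |y 0|) := by
        intro i
        have h5 : |y i| ≤ 4 * |y 0| := by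
          have := h4 i
          have h6 : ((|y i| : ℤ) : ℝ) ≤ ((4 * |y 0| : ℤ) : ℝ) := by
            push_cast
            exact this
          exact_mod_cast h6
        rw [Finset.mem_Icc]
        exact abs_le.1 h5
      rw [Fintype.mem_piFinset]
      have q4 := rc0_k (Z := Z) (d := y 4) (A := y 1 * y 3 - y 6 * y 8 + y 7 ^ 2)
        (q := Qv y 0) h0 (by simp only [Qv, Matrix.cons_val]; ring) (hQ 0) hZ0
      have q10 := rc0_k (Z := Z) (d := y 10) (A := y 7 * y 1 + y 3 * y 9 - y 6 * y 4)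
        (q := Qv y 6) h0 (by simp only [Qv, Matrix.cons_val]; ring) (hQ 6) hZ0
      have q2 := rc0_k (Z := Z) (d := y 2) (A := y 6 * y 10 - y 7 * y 9 + y 1 ^ 2)
        (q := -Qv y 1) h0 (by simp only [Qv, Matrix.cons_val]; ring)
        (by rw [Int.cast_neg, abs_neg]; exact hQ 1) hZ0
      have q5 := rc0_k (Z := Z) (d := y 5) (A := y 7 * y 10 + y 1 * y 4 - y 8 * y 9)
        (q := Qv y 5) h0 (by simp only [Qv, Matrix.cons_val]; ring) (hQ 5) hZ0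
      have q11 := rc0_k (Z := Z) (d := y 11) (A := y 3 * y 10 - y 7 * y 4 + y 1 * y 8)
        (q := Qv y 8) h0 (by simp only [Qv, Matrix.cons_val]; ring) (hQ 8) hZ0
      intro i
      fin_cases i
      exacts [Finset.mem_singleton_self _, hI4 1, q2, hI4 3, q4, q5, hI4 6, hI4 7, hI4 8, hI4 9,
        q10, q11]
  have hcard : S.card ≤ (I.biUnion (fun a => Fintype.piFinset (rc0B Z a))).card :=
    Finset.card_le_card_of_injOn rc0phi (fun y hy => hmem y hy)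
      (fun y _ z _ hyz => rc0phi_inj hyz)
  have hN0 : 0 ≤ ⌊Y⌋ := Int.floor_nonneg.2 (by linarith)
  have hIc : (I.card : ℝ) ≤ 3 * Y := by
    have h1 : I.card ≤ (Finset.Icc (-⌊Y⌋) ⌊Y⌋).card := Finset.card_le_card (Finset.erase_subset _ _)
    have h3 : (((Finset.Icc (-⌊Y⌋) ⌊Y⌋).card : ℕ) : ℝ) = 2 * (⌊Y⌋ : ℝ) + 1 := rc0_icc hN0
    have h4 : (I.card : ℝ) ≤ (((Finset.Icc (-⌊Y⌋) ⌊Y⌋).card : ℕ) : ℝ) := by exact_mod_cast h1
    have h5 : (⌊Y⌋ : ℝ) ≤ Y := Int.floor_le Y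
    linarith
  have hZ : 0 ≤ Z := by linarith
  have hone : ∀ a ∈ I, ((Fintype.piFinset (rc0B Z a)).card : ℝ) ≤ 9 ^ 6 * 5 ^ 5 * (Y * Z ^ 5) := by
    intro a ha
    rw [hI, Finset.mem_erase, Finset.mem_Icc] at ha
    have haY : |(a : ℝ)| ≤ Y := by
      have h1 : |a| ≤ ⌊Y⌋ := abs_le.2 ha.2
      have h2 : ((|a| : ℤ) : ℝ) ≤ (⌊Y⌋ : ℝ) := by exact_mod_cast h1
      have h3 : (⌊Y⌋ : ℝ) ≤ Y := Int.floor_le Y
      rw [Int.cast_abs] at h2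
      linarith
    refine (rc0_card ha.1 (haY.trans hYZ)).trans ?_
    have : |(a : ℝ)| * Z ^ 5 ≤ Y * Z ^ 5 := mul_le_mul_of_nonneg_right haY (by positivity)
    nlinarith [this]
  calc (S.card : ℝ) ≤ ((I.biUnion (fun a => Fintype.piFinset (rc0B Z a))).card : ℝ) := by
        exact_mod_cast hcard
    _ ≤ ((∑ a ∈ I, (Fintype.piFinset (rc0B Z a)).card : ℕ) : ℝ) := by
        exact_mod_cast Finset.card_biUnion_le
    _ = ∑ a ∈ I, ((Fintype.piFinset (rc0B Z a)).card : ℝ) := by push_cast; rfl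
    _ ≤ ∑ a ∈ I, (9 ^ 6 * 5 ^ 5 * (Y * Z ^ 5) : ℝ) := Finset.sum_le_sum hone
    _ = (I.card : ℝ) * (9 ^ 6 * 5 ^ 5 * (Y * Z ^ 5)) := by rw [Finset.sum_const, nsmul_eq_mul]
    _ ≤ (3 * Y) * (9 ^ 6 * 5 ^ 5 * (Y * Z ^ 5)) :=
        mul_le_mul_of_nonneg_right hIc (by positivity)
    _ = 3 * 9 ^ 6 * 5 ^ 5 * (Y ^ 2 * Z ^ 5) := by ring

end Pool.Agent.LB0
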